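import Pool.Agent.Lib.MP_33b3f9_ag.M4.MxT

/-!
The commutant of a quaternion algebra in the `16 × 16` matrices.
-/

set_option autoImplicit false

noncomputable section

namespace M8

open Matrix Pool.Agent.M4.Mx
open scoped Kronecker

/-- Index set of the lattice basis. -/
abbrev ν : Type := Fin 8 ⊕ Fin 8

/-- Index set of the eight dimensional factor. -/
abbrev ω : Type := Fin 4 ⊕ Fin 4

/-- Integral `16 × 16` matrices. -/
abbrev MZ : Type := Matrix ν ν ℤ

/-- An integral matrix with coefficients in `R`. -/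
abbrev zM (R : Type) [CommRing R] (g : MZ) : Matrix ν ν R := g.map (Int.cast : ℤ → R)

/-- The normal form of the quaternion algebra. -/
structure PEL (a b : MZ) (m n : ℕ) : Prop where
  m0 : 0 < m
  n0 : 0 < n
  aa : a * a = -((m : ℤ) • (1 : MZ))
  bb : b * b = (n : ℤ) • (1 : MZ)
  ab : a * b = -(b * a)
  aJ : aᵀ * J (Fin 8) ℤ = -(J (Fin 8) ℤ * a)
  bJ : bᵀ * J (Fin 8) ℤ = J (Fin 8) ℤ * b

/-- A splitting of `R ^ 16` as `R ^ 8 ⊗ R ^ 2`. -/
structure Mor (a b : MZ) (R : Type) [CommRing R] where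
  /-- from the product -/
  S : Matrix ν (ω × Fin 2) R
  /-- to the product -/
  S' : Matrix (ω × Fin 2) ν R
  /-- the image of `a` -/
  α : M2 R
  /-- the image of `b` -/
  β : M2 R
  /-- the form on the second factor -/
  B : M2 R
  inv : S * S' = 1
  inv' : S' * S = 1
  ea : zM R a * S = S * ((1 : Matrix ω ω R) ⊗ₖ α)
  eb : zM R b * S = S * ((1 : Matrix ω ω R) ⊗ₖ β)
  gen : ∀ i j, ∃ c : Fin 4 → R,
    single i j (1 : R) = c 0 • (1 : M2 R) + c 1 • α + c 2 • β + c 3 • (α * β)
  form : Sᵀ * J (Fin 8) R * S = J (Fin 4) R ⊗ₖ B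
  unit : IsUnit B.det

theorem kron_map {R R' m n : Type} [CommRing R] [CommRing R'] (φ : R →+* R') (x : Matrix m m R)
    (y : Matrix n n R) : (x ⊗ₖ y).map φ = x.map φ ⊗ₖ y.map φ := by
  ext i j
  simp [kroneckerMap_apply]

theorem zM_map {R R' : Type} [CommRing R] [CommRing R'] (φ : R →+* R') (g : MZ) :
    (zM R g).map φ = zM R' g := by
  ext i j
  simp

namespace Mor

variable {a b : MZ} {R : Type} [CommRing R] (s : Mor a b R)

/-- The embedding of the `8 × 8` matrices. -/
def em : Matrix ω ω R →ₐ[R] Matrix ν ν R :=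
  AlgHom.ofLinearMap
    { toFun := fun x => s.S * (x ⊗ₖ (1 : M2 R)) * s.S'
      map_add' := fun x y => by rw [add_kronecker, Matrix.mul_add, Matrix.add_mul]
      map_smul' := fun c x => by
        rw [smul_kronecker, Matrix.mul_smul, Matrix.smul_mul, RingHom.id_apply] }
    (by
      change s.S * ((1 : Matrix ω ω R) ⊗ₖ (1 : M2 R)) * s.S' = 1
      rw [one_kronecker_one, Matrix.mul_one, s.inv])
    (fun x y => by
      change s.S * ((x * y) ⊗ₖ (1 : M2 R)) * s.S' =
        s.S * (x ⊗ₖ (1 : M2 R)) * s.S' * (s.S * (y ⊗ₖ (1 : M2 R)) * s.S')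
      calc _ = s.S * (x ⊗ₖ (1 : M2 R) * y ⊗ₖ (1 : M2 R)) * s.S' := by
            rw [← mul_kronecker_mul, Matrix.mul_one]
        _ = s.S * (x ⊗ₖ (1 : M2 R)) * (s.S' * s.S) * (y ⊗ₖ (1 : M2 R)) * s.S' := by
            rw [s.inv', Matrix.mul_one]
            simp only [Matrix.mul_assoc]
        _ = _ := by simp only [Matrix.mul_assoc])

theorem em_apply (x : Matrix ω ω R) : s.em x = s.S * (x ⊗ₖ (1 : M2 R)) * s.S' := rfl

theorem conj_em (x : Matrix ω ω R) : s.S' * s.em x * s.S = x ⊗ₖ (1 : M2 R) := by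
  calc _ = s.S' * s.S * (x ⊗ₖ (1 : M2 R)) * (s.S' * s.S) := by
        simp only [em_apply, Matrix.mul_assoc]
    _ = _ := by rw [s.inv', Matrix.one_mul, Matrix.mul_one]

/-- A left inverse of the embedding. -/
def pr : Matrix ν ν R →ₗ[R] Matrix ω ω R where
  toFun g := Matrix.of fun i j => (s.S' * g * s.S) (i, 0) (j, 0)
  map_add' g h := by
    ext i j
    simp only [Matrix.mul_add, Matrix.add_mul, of_apply, Matrix.add_apply]
  map_smul' c g := by
    ext i j
    simp only [Matrix.mul_smul, Matrix.smul_mul, of_apply, Matrix.smul_apply, RingHom.id_apply]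

theorem pr_apply (g : Matrix ν ν R) (i j : ω) : s.pr g i j = (s.S' * g * s.S) (i, 0) (j, 0) := rfl

theorem pr_em (x : Matrix ω ω R) : s.pr (s.em x) = x := by
  ext i j
  rw [pr_apply, conj_em]
  simp

theorem pr_one : s.pr 1 = 1 := by rw [← map_one s.em, pr_em]

theorem em_inj : Function.Injective s.em := Function.LeftInverse.injective s.pr_em

/-- Change of rings. -/
def map {R' : Type} [CommRing R'] (φ : R →+* R') : Mor a b R' where
  S := s.S.map φ
  S' := s.S'.map φ
  α := s.α.map φ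
  β := s.β.map φ
  B := s.B.map φ
  inv := by rw [← Matrix.map_mul, s.inv, Matrix.map_one _ (map_zero φ) (map_one φ)]
  inv' := by rw [← Matrix.map_mul, s.inv', Matrix.map_one _ (map_zero φ) (map_one φ)]
  ea := by
    rw [← zM_map φ, ← Matrix.map_mul, s.ea, Matrix.map_mul, kron_map,
      Matrix.map_one _ (map_zero φ) (map_one φ)]
  eb := by
    rw [← zM_map φ, ← Matrix.map_mul, s.eb, Matrix.map_mul, kron_map,
      Matrix.map_one _ (map_zero φ) (map_one φ)]
  gen i j := by
    obtain ⟨c, hc⟩ := s.gen i j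
    refine ⟨fun k => φ (c k), ?_⟩
    rw [← Matrix.map_mul]
    ext p q
    have h := congrArg φ (congrFun (congrFun hc p) q)
    simpa only [single_apply, one_apply, apply_ite φ, Matrix.add_apply, Matrix.smul_apply,
      map_apply, smul_eq_mul, map_add, map_mul, map_one, map_zero] using h
  form := by
    rw [← map_J (Fin 8) φ, ← transpose_map, ← Matrix.map_mul, ← Matrix.map_mul, s.form, kron_map,
      map_J]
  unit := by
    rw [← RingHom.mapMatrix_apply, ← RingHom.map_det]
    exact s.unit.map φ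

theorem map_em {R' : Type} [CommRing R'] (φ : R →+* R') (x : Matrix ω ω R) :
    (s.em x).map φ = (s.map φ).em (x.map φ) := by
  rw [em_apply, em_apply, Matrix.map_mul, Matrix.map_mul, kron_map,
    Matrix.map_one _ (map_zero φ) (map_one φ)]
  rfl

theorem map_pr {R' : Type} [CommRing R'] (φ : R →+* R') (g : Matrix ν ν R) :
    (s.pr g).map φ = (s.map φ).pr (g.map φ) := by
  ext i j
  rw [map_apply, pr_apply, pr_apply, ← map_apply (f := φ), Matrix.map_mul, Matrix.map_mul]
  rfl

theorem slot_eq {g : Matrix ν ν R} {x : M2 R} (h : g * s.S = s.S * ((1 : Matrix ω ω R) ⊗ₖ x)) :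
    g = s.S * ((1 : Matrix ω ω R) ⊗ₖ x) * s.S' := by
  rw [← h, Matrix.mul_assoc, s.inv, Matrix.mul_one]

theorem comm_slot (y : M2 R) (x : Matrix ω ω R) :
    Commute (s.S * ((1 : Matrix ω ω R) ⊗ₖ y) * s.S') (s.em x) := by
  have h : ∀ u v : Matrix (ω × Fin 2) (ω × Fin 2) R,
      s.S * u * s.S' * (s.S * v * s.S') = s.S * (u * v) * s.S' := fun u v => by
    calc _ = s.S * u * (s.S' * s.S) * v * s.S' := by simp only [Matrix.mul_assoc]
      _ = _ := by rw [s.inv', Matrix.mul_one, Matrix.mul_assoc s.S]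
  rw [Commute, SemiconjBy, em_apply, h, h, ← mul_kronecker_mul, ← mul_kronecker_mul]
  simp only [Matrix.one_mul, Matrix.mul_one]

theorem comm_a (x : Matrix ω ω R) : Commute (zM R a) (s.em x) :=
  s.slot_eq s.ea ▸ s.comm_slot _ x

theorem comm_b (x : Matrix ω ω R) : Commute (zM R b) (s.em x) :=
  s.slot_eq s.eb ▸ s.comm_slot _ x

/-- The image is the commutant. -/
theorem em_pr {g : Matrix ν ν R} (ha : Commute (zM R a) g) (hb : Commute (zM R b) g) :
    s.em (s.pr g) = g := by
  have h1 : ∀ (d : Matrix ν ν R) (x : M2 R), d * s.S = s.S * ((1 : Matrix ω ω R) ⊗ₖ x) →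
      Commute d g → Commute ((1 : Matrix ω ω R) ⊗ₖ x) (s.S' * g * s.S) := fun d x h hc => by
    have h2 : (1 : Matrix ω ω R) ⊗ₖ x * s.S' = s.S' * d := by
      rw [s.slot_eq h, ← Matrix.mul_assoc, ← Matrix.mul_assoc, s.inv', Matrix.one_mul]
    rw [Commute, SemiconjBy, ← Matrix.mul_assoc, ← Matrix.mul_assoc, h2, Matrix.mul_assoc s.S',
      hc.eq, Matrix.mul_assoc _ s.S, ← h]
    simp only [Matrix.mul_assoc]
  have h2 := h1 _ _ s.ea ha
  have h3 := h1 _ _ s.eb hb
  have h4 : ∀ i j, Commute ((1 : Matrix ω ω R) ⊗ₖ single i j (1 : R)) (s.S' * g * s.S) :=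
    fun i j => by
      obtain ⟨c, hc⟩ := s.gen i j
      have e : (1 : Matrix ω ω R) ⊗ₖ (s.α * s.β) =
          (1 : Matrix ω ω R) ⊗ₖ s.α * (1 : Matrix ω ω R) ⊗ₖ s.β := by
        rw [← mul_kronecker_mul, Matrix.one_mul]
      rw [hc, kronecker_add, kronecker_add, kronecker_add, kronecker_smul, kronecker_smul,
        kronecker_smul, kronecker_smul, one_kronecker_one, e]
      exact ((((Commute.one_left _).smul_left _).add_left (h2.smul_left _)).add_left
        (h3.smul_left _)).add_left ((h2.mul_left h3).smul_left _)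
  have h5 : s.pr g ⊗ₖ (1 : M2 R) = s.S' * g * s.S := by
    ext ⟨i, p⟩ ⟨j, q⟩
    rw [kroneckerMap_apply, pr_apply]
    generalize s.S' * g * s.S = G at h4
    have h6 := congrFun (congrFun (h4 p 0).eq (i, p)) (j, q)
    have h7 := congrFun (congrFun (h4 p 0).eq (i, p)) (j, 0)
    have h8 := congrFun (congrFun (h4 0 0).eq (i, 1)) (j, 0)
    fin_cases p <;> fin_cases q <;>
      simp [Matrix.mul_apply, Fintype.sum_prod_type, one_apply, single_apply] at h6 h7 h8 ⊢ <;>
      simp [*]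
  rw [em_apply, h5]
  calc _ = s.S * s.S' * g * (s.S * s.S') := by simp only [Matrix.mul_assoc]
    _ = g := by rw [s.inv, Matrix.one_mul, Matrix.mul_one]

theorem form_em (x y : Matrix ω ω R) :
    s.Sᵀ * ((s.em x)ᵀ * J (Fin 8) R * s.em y) * s.S = (xᵀ * J (Fin 4) R * y) ⊗ₖ s.B := by
  have h1 : ∀ z, s.em z * s.S = s.S * (z ⊗ₖ (1 : M2 R)) := fun z => by
    rw [em_apply, Matrix.mul_assoc, s.inv', Matrix.mul_one]
  calc _ = (s.em x * s.S)ᵀ * J (Fin 8) R * (s.em y * s.S) := by
        simp only [transpose_mul, Matrix.mul_assoc]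
    _ = (x ⊗ₖ (1 : M2 R))ᵀ * (s.Sᵀ * J (Fin 8) R * s.S) * (y ⊗ₖ (1 : M2 R)) := by
        simp only [h1, transpose_mul, Matrix.mul_assoc]
    _ = _ := by
        rw [s.form, ← kroneckerMap_transpose, transpose_one, ← mul_kronecker_mul,
          ← mul_kronecker_mul, Matrix.one_mul, Matrix.mul_one]

theorem form_inj {g h : Matrix ν ν R} (e : s.Sᵀ * g * s.S = s.Sᵀ * h * s.S) : g = h := by
  have h1 : ∀ g : Matrix ν ν R, s.S'ᵀ * (s.Sᵀ * g * s.S) * s.S' = g := fun g => by
    calc _ = (s.S * s.S')ᵀ * g * (s.S * s.S') := by simp only [transpose_mul, Matrix.mul_assoc]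
      _ = g := by rw [s.inv, transpose_one, Matrix.one_mul, Matrix.mul_one]
  rw [← h1 g, e, h1]

theorem kron_inj {x y : Matrix ω ω R} (e : x ⊗ₖ s.B = y ⊗ₖ s.B) : x = y := by
  have h := congrArg (· * ((1 : Matrix ω ω R) ⊗ₖ s.B⁻¹)) e
  simp only [← mul_kronecker_mul, Matrix.mul_one, mul_nonsing_inv _ s.unit] at h
  ext i j
  simpa using congrFun (congrFun h (i, 0)) (j, 0)

/-- Similitudes. -/
theorem sim_iff (x : Matrix ω ω R) (c : R) :
    (s.em x)ᵀ * J (Fin 8) R * s.em x = c • J (Fin 8) R ↔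
      xᵀ * J (Fin 4) R * x = c • J (Fin 4) R := by
  have h : s.Sᵀ * (c • J (Fin 8) R) * s.S = (c • J (Fin 4) R) ⊗ₖ s.B := by
    rw [Matrix.mul_smul, Matrix.smul_mul, s.form, smul_kronecker]
  exact ⟨fun e => s.kron_inj (by rw [← form_em, e, h]),
    fun e => s.form_inj (by rw [form_em, e, h])⟩

/-- The symplectic Lie algebras. -/
theorem sp_iff (x : Matrix ω ω R) : Sp (J (Fin 8) R) (s.em x) ↔ Sp (J (Fin 4) R) x := by
  have h : s.Sᵀ * ((s.em x)ᵀ * J (Fin 8) R + J (Fin 8) R * s.em x) * s.S =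
      (xᵀ * J (Fin 4) R + J (Fin 4) R * x) ⊗ₖ s.B := by
    have h1 := s.form_em x 1
    have h2 := s.form_em 1 x
    rw [map_one, Matrix.mul_one, Matrix.mul_one] at h1
    rw [map_one, transpose_one, transpose_one, Matrix.one_mul, Matrix.one_mul] at h2
    rw [Matrix.mul_add, Matrix.add_mul, h1, h2, add_kronecker]
  exact ⟨fun e => s.kron_inj (by rw [← h, e, zero_kronecker, Matrix.mul_zero, Matrix.zero_mul]),
    fun e => s.form_inj (by rw [h, e, zero_kronecker, Matrix.mul_zero, Matrix.zero_mul])⟩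

theorem trace_em (x : Matrix ω ω R) : (s.em x).trace = 2 * x.trace := by
  rw [em_apply, trace_mul_comm, ← Matrix.mul_assoc, s.inv', Matrix.one_mul, trace_kronecker]
  simp [mul_comm]

theorem det_em (x : Matrix ω ω R) : (s.em x).det = x.det ^ 2 := by
  let e : ω × Fin 2 ≃ ν := Fintype.equivOfCardEq (by simp)
  have h1 : s.em x = s.S.submatrix id e.symm * (x ⊗ₖ (1 : M2 R)).submatrix e.symm e.symm *
      s.S'.submatrix e.symm id := by
    rw [submatrix_mul_equiv, submatrix_mul_equiv, submatrix_id_id, em_apply]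
  have h2 : (s.S.submatrix id e.symm).det * (s.S'.submatrix e.symm id).det = 1 := by
    rw [← det_mul, submatrix_mul_equiv, submatrix_id_id, s.inv, det_one]
  rw [h1, det_mul, det_mul, mul_right_comm, h2, one_mul, det_submatrix_equiv_self, det_kronecker]
  simp

theorem charpoly_em (x : Matrix ω ω R) : (s.em x).charpoly = x.charpoly ^ 2 := by
  have h := (s.map (Polynomial.C : R →+* Polynomial R)).det_em x.charmatrix
  rw [charmatrix, map_sub, RingHom.mapMatrix_apply, ← map_em] at h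
  have e : ∀ {n : Type} [Fintype n] [DecidableEq n], Matrix.scalar n (Polynomial.X : Polynomial R) =
      (Polynomial.X : Polynomial R) • (1 : Matrix n n (Polynomial R)) := by
    intro n _ _
    rw [scalar_apply, smul_one_eq_diagonal]
  rw [e, map_smul, map_one] at h
  rw [charpoly, charpoly, charmatrix, charmatrix, e, e]
  exact h

end Mor

end M8
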