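import Pool.Agent.Lib.MP_33b3f9_ag.M4.IDefs
import Pool.Agent.Lib.MP_33b3f9_ag.M8.S0
import Pool.Agent.Lib.MP_33b3f9_ag.M8.Mor

/-!
Definitions shared by the blocks: the arithmetic half.
-/

set_option autoImplicit false

noncomputable section

namespace M8

open Matrix Filter Topology M4 Pool.Agent.M4.Det Pool.Agent.M4.Mx Pool.Agent.Lib.MP_33b3f9_ag
open scoped Kronecker

/-- Index set of the level two characteristics. -/
abbrev Bits : Type := ν → Fin 2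

/-- Period matrices. -/
abbrev Mat : Type := Matrix (Fin 8) (Fin 8) ℂ

/-- The family of `ℓ`-adic representations. -/
abbrev Rep (K : IntermediateField ℚ ℂ) : Type :=
  ∀ (l : ℕ) [Fact l.Prime], (ℂ ≃ₐ[K] ℂ) →* GL ν ℤ_[l]

/-- The level two theta null vector. -/
def th2 (τ : Mat) : Bits → ℂ := fun ε => Th τ (hf (bz ε))

/-- An integral matrix as a real matrix. -/
def zr (g : MZ) : Matrix ν ν ℝ := g.map (Int.cast : ℤ → ℝ)

/-- `g = 1` modulo `32`. -/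
def Lev (g : MZ) : Prop := ∀ i j, (32 : ℤ) ∣ (g - 1) i j

/-- `g` is an integral similitude of level `32` with admissible multiplier `M`. -/
def Iso (g : MZ) (M : ℕ) : Prop := Adm M ∧ Lev g ∧ Sim (zr g) M

/-- The kernel of `g` modulo `M`. -/
def Ker (g : MZ) (M : ℕ) : AddSubgroup (ν → ℤ) where
  carrier := {x | ∀ i, (M : ℤ) ∣ (g *ᵥ x) i}
  zero_mem' := fun i => by simp
  add_mem' := fun {a b} ha hb i => by
    rw [Matrix.mulVec_add]; exact dvd_add (ha i) (hb i)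
  neg_mem' := fun {a} ha i => by
    rw [Matrix.mulVec_neg]; exact (dvd_neg).2 (ha i)

/-- `G` is its own orthogonal modulo `l`. -/
def Lag (l : ℕ) (G : AddSubgroup (ν → ℤ)) : Prop :=
  ∀ y, y ∈ G ↔ ∀ x ∈ G, (l : ℤ) ∣ x ⬝ᵥ Matrix.J (Fin 8) ℤ *ᵥ y

/-- The Mumford-Tate group of `I` contains all symplectic matrices that commute with `a`, `b`. -/
def GEN (a b : MZ) (I : Matrix ν ν ℝ) : Prop :=
  ∀ g : Matrix ν ν ℂ, gᵀ * Matrix.J (Fin 8) ℂ * g = Matrix.J (Fin 8) ℂ → Commute (zM ℂ a) g →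
    Commute (zM ℂ b) g → ∀ P ∈ mtEqns I, evalM g P = 0

/-- `K` contains the eighth roots of unity and the ratios of the theta constants. -/
def DefX (τ : Mat) (K : IntermediateField ℚ ℂ) : Prop :=
  ee (1 / 8) ∈ K ∧ ∀ ε ε', th2 τ ε / th2 τ ε' ∈ K

/-- `r` is the action on the torsion points, in the coordinates `XX`. -/
def TateX (τ : Mat) (K : IntermediateField ℚ ℂ) (r : Rep K) : Prop :=
  ∀ (σ : ℂ ≃ₐ[K] ℂ) (x y : ν → ℚ),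
    (∀ (l : ℕ) [Fact l.Prime] (i : ν),
      ‖((Pool.Agent.M8.toQ (r l σ) : Matrix ν ν ℚ_[l]) *ᵥ fun j => (x j : ℚ_[l])) i -
        (y i : ℚ_[l])‖ ≤ 1) →
    ∃ c : ℂ, ∀ ε : Bits, σ (XX τ (bz ε) fun i => (x i : ℝ)) = c * XX τ (bz ε) fun i => (y i : ℝ)

/-- The abelian variety and its Galois representations. -/
structure AV (τ : Mat) (K : IntermediateField ℚ ℂ) (r : Rep K) : Prop where
  inH : InH τ
  fin : FiniteDimensional ℚ K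
  defX : DefX τ K
  tate : TateX τ K r

/-- The endomorphisms are defined over `K`. -/
def COMM (a b : MZ) {K : IntermediateField ℚ ℂ} (r : Rep K) : Prop :=
  ∀ (l : ℕ) [Fact l.Prime] (σ : ℂ ≃ₐ[K] ℂ), Commute (zM ℤ_[l] a) (r l σ : Matrix ν ν ℤ_[l]) ∧
    Commute (zM ℤ_[l] b) (r l σ : Matrix ν ν ℤ_[l])

/-- The integral matrix `R` is congruent to `r σ` modulo `M`. -/
def Cong {K : IntermediateField ℚ ℂ} (r : Rep K) (σ : ℂ ≃ₐ[K] ℂ) (M : ℕ) (R : MZ) : Prop :=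
  ∀ (l : ℕ) [Fact l.Prime] (i j : ν),
    (M : ℤ_[l]) ∣ (r l σ : Matrix ν ν ℤ_[l]) i j - (R i j : ℤ_[l])

/-- The representation modulo `l`. -/
def rb {K : IntermediateField ℚ ℂ} (r : Rep K) (l : ℕ) [Fact l.Prime] (σ : ℂ ≃ₐ[K] ℂ) :
    Matrix ν ν (ZMod l) :=
  (r l σ : Matrix ν ν ℤ_[l]).map PadicInt.toZMod

/-- `r l σ` is a similitude with the cyclotomic multiplier. -/
def MUst {K : IntermediateField ℚ ℂ} (r : Rep K) : Prop :=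
  ∀ (l : ℕ) [Fact l.Prime] (σ : ℂ ≃ₐ[K] ℂ), ∃ c : ℤ_[l],
    (r l σ : Matrix ν ν ℤ_[l])ᵀ * Matrix.J (Fin 8) ℤ_[l] * (r l σ : Matrix ν ν ℤ_[l]) =
      c • Matrix.J (Fin 8) ℤ_[l] ∧
    ∀ (n : ℕ) (ζ : ℂ), ζ ^ l ^ n = 1 → σ ζ = ζ ^ (PadicInt.toZModPow n c).val

/-- Similitudes with prescribed kernels. -/
def LAGRst : Prop :=
  ∀ (S : Finset ℕ) (G : ℕ → AddSubgroup (ν → ℤ)),
    (∀ l ∈ S, l.Prime ∧ l ≡ 1 [MOD 32] ∧ Lag l (G l)) →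
    ∃ g : MZ, Iso g (∏ l ∈ S, l) ∧ ∀ l ∈ S, Ker g l = G l

/-- Integral equivariant coordinates of the isogenous points. -/
def POINTSst (τ : Mat) {K : IntermediateField ℚ ℂ} (r : Rep K) : Prop :=
  ∃ (C : ℝ) (y : ℕ → AddSubgroup (ν → ℤ) → Bits → ℂ), ∀ (g : MZ) (M : ℕ), Iso g M →
    (∃ c : ℂ, c ≠ 0 ∧ y M (Ker g M) = c • th2 (act (zr g) τ)) ∧
    (∀ i, IsIntegral ℤ (y M (Ker g M) i)) ∧
    (∀ (φ : ℂ →+* ℂ) i, ‖φ (y M (Ker g M) i)‖ ≤ C * (M : ℝ) ^ 32) ∧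
    ∀ (σ : ℂ ≃ₐ[K] ℂ) (R g' : MZ), Cong r σ M R → Iso g' M →
      (∀ x ∈ Ker g M, R *ᵥ x ∈ Ker g' M) → ∀ i, σ (y M (Ker g M) i) = y M (Ker g' M) i

/-- The representation with coefficients in `ℚ_ℓ`. -/
def rq {K : IntermediateField ℚ ℂ} (r : Rep K) (l : ℕ) [Fact l.Prime] (σ : ℂ ≃ₐ[K] ℂ) :
    Matrix ν ν ℚ_[l] :=
  (Pool.Agent.M8.toQ (r l σ) : Matrix ν ν ℚ_[l])

/-- The exact integral tensor structure over the algebraic closure of `ℚ_ℓ`. -/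
def TENS {K : IntermediateField ℚ ℂ} (r : Rep K) (l : ℕ) [Fact l.Prime] : Prop :=
  ∃ (S : Matrix ν (κ × Fin 2) (PadicAlgCl l)) (S' : Matrix (κ × Fin 2) ν (PadicAlgCl l)),
    (∀ i j, ‖S i j‖ ≤ 1) ∧ (∀ i j, ‖S' i j‖ ≤ 1) ∧ S * S' = 1 ∧ S' * S = 1 ∧
    ∀ σ, ∃ h : Fin 3 → M2 (PadicAlgCl l), (∀ f i j, ‖h f i j‖ ≤ 1) ∧
      (rq r l σ).map (algebraMap ℚ_[l] (PadicAlgCl l)) =
        S * (Pool.Agent.M4.tp h ⊗ₖ (1 : M2 (PadicAlgCl l))) * S'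

/-- `P` is the minimal polynomial of the Frobenius `σ`. -/
structure Weil {K : IntermediateField ℚ ℂ} (r : Rep K) (p : ℕ) (σ : ℂ ≃ₐ[K] ℂ)
    (P : Polynomial ℤ) : Prop where
  monic : P.Monic
  weil : ∀ z : ℂ, Polynomial.aeval z P = 0 → ‖z‖ ^ 2 = p
  zero : ∀ (l : ℕ) [Fact l.Prime], l ≠ p → Polynomial.aeval (r l σ : Matrix ν ν ℤ_[l]) P = 0
  dvd : ∀ (l : ℕ) [Fact l.Prime], l ≠ p → ∀ c : Polynomial ℤ_[l],
    Polynomial.aeval (r l σ : Matrix ν ν ℤ_[l]) c = 0 → P.map (Int.castRingHom ℤ_[l]) ∣ c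

/-- `σ` is a Frobenius at the place `e`. -/
structure Frob (τ : Mat) {K : IntermediateField ℚ ℂ} (r : Rep K) {p : ℕ} [Fact p.Prime]
    (e : ℂ ≃+* PadicAlgCl p) (σ : ℂ ≃ₐ[K] ℂ) : Prop where
  dec : NT.Dec e σ
  /-- the decomposition group acts on the prime to `p` torsion through powers of `σ` -/
  unram : ∀ σ' : ℂ ≃ₐ[K] ℂ, NT.Dec e σ' → ∀ n : ℕ, ¬ p ∣ n → ∃ j : ℕ, ∀ R : MZ,
    Cong r (σ ^ j) n R → Cong r σ' n R
  mult : ∀ (l : ℕ) [Fact l.Prime], l ≠ p →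
    (rq r l σ)ᵀ * Matrix.J (Fin 8) ℚ_[l] * rq r l σ = (p : ℚ_[l]) • Matrix.J (Fin 8) ℚ_[l]
  weil : ∃ P, Weil r p σ P
  few : ∀ P, Weil r p σ P → (P.map (Int.castRingHom ℚ)).Separable → TENS r p →
    ∀ (γ : Polynomial ℚ) (M M' : ℕ) (g g' : MZ),
    Cube p P γ M M' → Iso g M → Iso g' M' → ¬ p ∣ M → ¬ p ∣ M' →
    (∀ (l : ℕ) [Fact l.Prime], l ≠ p → ∃ W : Matrix ν ν ℤ_[l],
      g'.map (Int.cast : ℤ → ℚ_[l]) * Polynomial.aeval (rq r l σ) (γ.map (algebraMap ℚ ℚ_[l])) =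
        W.map ((↑) : ℤ_[l] → ℚ_[l]) * g.map (Int.cast : ℤ → ℚ_[l]) ∧
      ∀ a b, (32 : ℤ_[l]) ∣ (W - 1) a b) →
    SameRed e (th2 (act (zr g) τ)) (th2 (act (zr g') τ))

/-- Frobenius elements at almost all places of degree one. -/
def REDst (τ : Mat) {K : IntermediateField ℚ ℂ} (r : Rep K) : Prop :=
  ∃ p₀ : ℕ, ∀ (p : ℕ) [Fact p.Prime], p₀ ≤ p → ∀ e : ℂ ≃+* PadicAlgCl p, IsPlace K e →
    ∃ σ, Frob τ r e σ

/-- The vectors whose slot `f` is killed by the covector `w`. -/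
def slot {l : ℕ} (A : Matrix (κ × Fin 2) ν (ZMod l)) (f : Fin 3) (w : Fin 2 → ZMod l) :
    AddSubgroup (ν → ℤ) where
  carrier := {x | ∀ (i : κ) (c : Fin 2),
    ∑ a, w a * (A *ᵥ fun j => (x j : ZMod l)) (Function.update i f a, c) = 0}
  zero_mem' := fun i c => by
    have : (fun j => ((0 : ν → ℤ) j : ZMod l)) = 0 := by funext j; simp
    rw [this, Matrix.mulVec_zero]
    simp
  add_mem' := fun {a b} ha hb i c => by
    have : (fun j => ((a + b) j : ZMod l)) = (fun j => (a j : ZMod l)) + fun j => (b j : ZMod l) := by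
      funext j; simp
    rw [this, Matrix.mulVec_add]
    simp only [Pi.add_apply, mul_add, Finset.sum_add_distrib]
    rw [ha i c, hb i c, add_zero]
  neg_mem' := fun {a} ha i c => by
    have : (fun j => ((-a) j : ZMod l)) = -fun j => (a j : ZMod l) := by funext j; simp
    rw [this, Matrix.mulVec_neg]
    simp only [Pi.neg_apply, mul_neg, Finset.sum_neg_distrib]
    rw [ha i c, neg_zero]

/-- A tensor structure on the `l`-torsion. -/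
structure TS {K : IntermediateField ℚ ℂ} (r : Rep K) (l : ℕ) [Fact l.Prime]
    (A : Matrix (κ × Fin 2) ν (ZMod l)) (A' : Matrix ν (κ × Fin 2) (ZMod l)) : Prop where
  inv : A * A' = 1
  inv' : A' * A = 1
  im : ∀ σ, ∃ h, A * rb r l σ * A' = Pool.Agent.M4.tp h ⊗ₖ (1 : M2 (ZMod l))
  big : ∀ (f : Fin 3) (u : M2 (ZMod l)), u.det = 1 →
    ∃ σ, A * rb r l σ * A' = Pool.Agent.M4.tp (Function.update 1 f u) ⊗ₖ (1 : M2 (ZMod l))
  /-- the endomorphisms act on the fourth slot -/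
  en : ∀ d : MZ, (∀ σ, Commute (zM ℤ_[l] d) (r l σ : Matrix ν ν ℤ_[l])) →
    ∃ x : M2 (ZMod l), A * zM (ZMod l) d * A' = (1 : Matrix κ κ (ZMod l)) ⊗ₖ x

/-- The subgroup `G` is stable under `σ` modulo `M`. -/
def Stab {K : IntermediateField ℚ ℂ} (r : Rep K) (σ : ℂ ≃ₐ[K] ℂ) (M : ℕ)
    (G : AddSubgroup (ν → ℤ)) : Prop :=
  ∀ R : MZ, Cong r σ M R → ∀ x ∈ G, R *ᵥ x ∈ G

/-- A similitude of slot type whose kernel is stable under the decomposition group of `e`. -/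
def Good {K : IntermediateField ℚ ℂ} (r : Rep K) (L : Type) [Field L] (l₁ : ℕ)
    (A : ∀ l : ℕ, Matrix (κ × Fin 2) ν (ZMod l)) {p : ℕ} [Fact p.Prime]
    (e : ℂ ≃+* PadicAlgCl p) (Δ : ℤ) (g : MZ) (M : ℕ) : Prop :=
  Iso g M ∧ ∀ l, l.Prime → l ∣ M → l₁ < l ∧ l ≠ p ∧ NT.Spl L l ∧ jacobiSym Δ l = 1 ∧
    (∃ f w, w ≠ 0 ∧ Ker g l = slot (A l) f w) ∧
    ∀ σ : ℂ ≃ₐ[K] ℂ, NT.Dec e σ → Stab r σ l (Ker g l)

/-- The class bound. -/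
def CBst (τ : Mat) {K : IntermediateField ℚ ℂ} (r : Rep K) (F : Type) [Field F] [NumberField F] :
    Prop :=
  ∃ (L : Type) (_ : Field L) (_ : NumberField L) (l₁ : ℕ)
    (A : ∀ l : ℕ, Matrix (κ × Fin 2) ν (ZMod l))
    (A' : ∀ l : ℕ, Matrix ν (κ × Fin 2) (ZMod l)) (G : Set ℕ) (t : ℕ → F) (Δ : ℕ → ℤ) (C : ℝ),
    (∀ (l : ℕ) [Fact l.Prime], l₁ < l → NT.Spl L l → l ≡ 1 [MOD 32] ∧ TS r l (A l) (A' l)) ∧
    NT.Dvg G ∧ (∀ p ∈ G, NT.Plc p (t p) (Δ p)) ∧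
    ∀ (p : ℕ) [Fact p.Prime], p ∈ G → ∃ e : ℂ ≃+* PadicAlgCl p, IsPlace K e ∧
      (∀ l : ℕ, l.Prime → l₁ < l → l ≠ p → NT.Spl L l → jacobiSym (Δ p) l = 1 →
        ∃ f w, w ≠ 0 ∧ ∀ σ : ℂ ≃ₐ[K] ℂ, NT.Dec e σ → Stab r σ l (slot (A l) f w)) ∧
      ∃ (h : ℕ) (cl : MZ → ℕ → Fin h), (h : ℝ) ≤ C * (p : ℝ) ^ (7 / 10 : ℝ) ∧
        ∀ g M g' M', Good r L l₁ A e (Δ p) g M → Good r L l₁ A e (Δ p) g' M' →
          cl g M = cl g' M' → SameRed e (th2 (act (zr g) τ)) (th2 (act (zr g') τ))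

end M8
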