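import Pool.Agent.Lib.MP_33b3f9_ag.M4.CBOpen
import Pool.Agent.Lib.MP_33b3f9_ag.M8.IDefA

/-!
The representation modulo `n` factors through a finite extension, dimension eight.
-/

set_option autoImplicit false

noncomputable section

namespace M8.CB

open Matrix M4 M4.CB

variable {τ : Mat} {K : IntermediateField ℚ ℂ} {r : Rep K}

theorem exists_cong (r : Rep K) (σ : ℂ ≃ₐ[K] ℂ) {n : ℕ} (hn : n ≠ 0) : ∃ R, Cong r σ n R := by
  obtain ⟨R, hR⟩ := M4.Kz.exists_lifts (fun l _ => (r l σ : Matrix ν ν ℤ_[l])) hn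
  exact ⟨R, fun l _ i j => hR.dvd l i j⟩

/-- The action on the `n`-torsion. -/
theorem AV_tors (h : AV τ K r) {σ : ℂ ≃ₐ[K] ℂ} {n : ℕ} (hn : n ≠ 0) {R : MZ} (hR : Cong r σ n R)
    (a : ν → ℤ) : ∃ c : ℂ, ∀ ε : Bits, σ (XX τ (bz ε) fun i => (a i : ℝ) / n) =
      c * XX τ (bz ε) fun i => ((R *ᵥ a) i : ℝ) / n := by
  have hL : M4.Kz.Lifts (fun l _ => (r l σ : Matrix ν ν ℤ_[l])) n R := fun l _ i j =>
    (M4.Kz.norm_le_iff_dvd _ _).2 (hR l i j)
  obtain ⟨c, hc⟩ := h.tate σ (fun j => (a j : ℚ) / n) (fun i => ((R *ᵥ a) i : ℚ) / n)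
    fun l _ i => hL.tate hn a l i
  exact ⟨c, fun ε => by simpa using hc ε⟩

/-- OPEN: the automorphisms that fix a suitable number field act trivially modulo `n`. -/
theorem open_mod (h : AV τ K r) {n : ℕ} (hn : n ≠ 0) : ∃ K₁ : IntermediateField ℚ ℂ,
    FiniteDimensional ℚ K₁ ∧ ∀ σ : ℂ ≃ₐ[K] ℂ, (∀ x ∈ K₁, σ x = x) → Cong r σ n 1 := by
  have := h.fin
  have hn' : (n : ℝ) ≠ 0 := by exact_mod_cast hn
  let X : (ν → ℤ) → Bits → ℂ := fun a ε => XX τ (bz ε) fun i => (a i : ℝ) / n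
  choose e he using fun j : ν => M4.Kz.bpfXX h.inH fun i => ((Pi.single j 1 : ν → ℤ) i : ℝ) / n
  let ρ : ν × Bits → ℂ := fun q => X (Pi.single q.1 1) q.2 / X (Pi.single q.1 1) (e q.1)
  have key : ∀ (σ : ℂ ≃ₐ[K] ℂ) (R : MZ), Cong r σ n R → ∀ q : ν × Bits,
      X (R *ᵥ Pi.single q.1 1) (e q.1) ≠ 0 ∧
      σ (ρ q) = X (R *ᵥ Pi.single q.1 1) q.2 / X (R *ᵥ Pi.single q.1 1) (e q.1) := by
    intro σ R hR q
    obtain ⟨c, hc⟩ := AV_tors h hn hR (Pi.single q.1 1)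
    have h1 : c * X (R *ᵥ Pi.single q.1 1) (e q.1) ≠ 0 := by
      rw [← hc]; exact (map_ne_zero σ).2 (he q.1)
    refine ⟨right_ne_zero_of_mul h1, ?_⟩
    rw [map_div₀, hc, hc, mul_div_mul_left _ _ (left_ne_zero_of_mul h1)]
  have halg : ∀ q, IsAlgebraic ℚ (ρ q) := fun q => by
    refine alg_of_finite K ((Set.finite_range fun a : ν → Fin n =>
      X (fun i => (a i : ℕ)) q.2 / X (fun i => (a i : ℕ)) (e q.1)).subset ?_)
    rintro _ ⟨σ, rfl⟩
    obtain ⟨R, hR⟩ := exists_cong r σ hn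
    set b : ν → ℤ := R *ᵥ Pi.single q.1 1 with hb
    have hn0 : (0 : ℤ) < n := by exact_mod_cast Nat.pos_of_ne_zero hn
    refine ⟨fun i => ⟨(b i % n).toNat, by
      have := Int.emod_lt_of_pos (b i) hn0
      omega⟩, ?_⟩
    have e1 : (fun i => (b i : ℝ) / n) =
        (fun i => ((((b i % n).toNat : ℕ) : ℤ) : ℝ) / n) + rz fun i => b i / n := by
      funext i
      rw [Pi.add_apply, Int.toNat_of_nonneg (Int.emod_nonneg _ hn0.ne'), rz,
        div_add' _ _ _ hn']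
      congr 1
      exact_mod_cast (Int.emod_add_ediv_mul (b i) n).symm
    simp only [(key σ R hR q).2, ← hb, X, e1, M4.Kz.XX_shift h.inH]
    rw [mul_div_mul_left _ _ (M4.Kz.ee_ne _)]
  refine ⟨IntermediateField.adjoin ℚ (Set.range ρ), IntermediateField.finiteDimensional_adjoin
    (by rintro _ ⟨q, rfl⟩; exact (halg q).isIntegral), fun σ hσ l _ i j => ?_⟩
  obtain ⟨R, hR⟩ := exists_cong r σ hn
  have h1 : ∀ ε : Bits, X (R *ᵥ Pi.single j 1) ε =
      X (R *ᵥ Pi.single j 1) (e j) / X (Pi.single j 1) (e j) * X (Pi.single j 1) ε := fun ε => by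
    have h2 := (key σ R hR (j, ε)).2
    rw [hσ _ (IntermediateField.subset_adjoin _ _ ⟨_, rfl⟩)] at h2
    have h3 := (key σ R hR (j, ε)).1
    have h4 : X (Pi.single j 1) (e j) ≠ 0 := he j
    simp only [ρ] at h2 h3
    field_simp at h2 ⊢
    exact h2.symm
  obtain ⟨m, hm⟩ := XX_inj h.inH h1
  have h5 : R i j - (1 : MZ) i j = n * m i := by
    have h6 := congrFun hm i
    rw [Pi.sub_apply, rz, ← sub_div, div_eq_iff hn', Matrix.mulVec_single_one] at h6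
    have h7 : ((R i j - (1 : MZ) i j : ℤ) : ℝ) = ((n * m i : ℤ) : ℝ) := by
      rw [Matrix.one_apply]
      rw [Pi.single_apply] at h6
      push_cast at h6 ⊢
      rw [mul_comm]
      exact h6
    exact_mod_cast h7
  have h8 := hR l i j
  have h9 : (n : ℤ_[l]) ∣ (R i j : ℤ_[l]) - ((1 : MZ) i j : ℤ_[l]) :=
    ⟨m i, by exact_mod_cast congrArg (Int.cast : ℤ → ℤ_[l]) h5⟩
  simpa using dvd_add h8 h9

end M8.CB
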