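import Pool.Agent.Lib.MP_33b3f9_ag.M8.Mor

/-!
An orthogonal basis over the quaternion algebra.
-/

set_option autoImplicit false

noncomputable section

namespace M8

open Matrix

theorem orth_aux {F W : Type} [Field F] [CharZero F] [AddCommGroup W] [Module F W]
    [FiniteDimensional F W] (E : W →ₗ[F] W →ₗ[F] F) (A B : W →ₗ[F] W) {m n : F} (hm : m ≠ 0)
    (hn : n ≠ 0) (hE : ∀ x y, E y x = -E x y) (hd : ∀ x, (∀ y, E x y = 0) → x = 0)
    (hA : ∀ x y, E (A x) y = -E x (A y)) (hB : ∀ x y, E (B x) y = E x (B y))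
    (aa : ∀ x, A (A x) = -(m • x)) (bb : ∀ x, B (B x) = n • x) (ba : ∀ x, B (A x) = -A (B x))
    (k : ℕ) (hk : 4 * k ≤ Module.finrank F W) :
    ∃ (v : Fin k → W) (q : Fin k → F), (∀ i, q i ≠ 0) ∧ (∀ i j, E (v i) (v j) = 0) ∧
      (∀ i j, E (v i) (A (v j)) = if i = j then q i else 0) ∧ (∀ i j, E (v i) (B (v j)) = 0) ∧
      ∀ i j, E (v i) (A (B (v j))) = 0 := by
  have s1 : ∀ x y, E y (A x) = E x (A y) := fun x y => by rw [hE, hA, neg_neg]
  have s2 : ∀ x y, E y (B x) = -E x (B y) := fun x y => by rw [hE, hB]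
  have s3 : ∀ x y, E y (A (B x)) = -E x (A (B y)) := fun x y => by
    rw [hE, hA, hB, ba, map_neg, neg_neg]
  have half : ∀ z : F, z = -z → z = 0 := fun z h => by
    have : (2 : F) * z = 0 := by linear_combination h
    exact (mul_eq_zero.1 this).resolve_left two_ne_zero
  induction k with
  | zero => exact ⟨0, 0, nofun, nofun, nofun, nofun, nofun⟩
  | succ k ih =>
    obtain ⟨v, q, hq, h1, h2, h3, h4⟩ := ih (by omega)
    let L : W →ₗ[F] (Fin k ⊕ Fin k) ⊕ (Fin k ⊕ Fin k) → F := LinearMap.pi (Sum.elim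
      (Sum.elim (fun i => E (v i)) fun i => E (v i) ∘ₗ A)
      (Sum.elim (fun i => E (v i) ∘ₗ B) fun i => E (v i) ∘ₗ A ∘ₗ B))
    have hL : ∀ x, L x = 0 ↔ ∀ i, E (v i) x = 0 ∧ E (v i) (A x) = 0 ∧ E (v i) (B x) = 0 ∧
        E (v i) (A (B x)) = 0 := fun x =>
      ⟨fun h i => ⟨congrFun h (.inl (.inl i)), congrFun h (.inl (.inr i)),
        congrFun h (.inr (.inl i)), congrFun h (.inr (.inr i))⟩, fun h => by
        funext s
        rcases s with (i | i) | (i | i)
        exacts [(h i).1, (h i).2.1, (h i).2.2.1, (h i).2.2.2]⟩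
    obtain ⟨x, hx, hx0⟩ : ∃ x, L x = 0 ∧ E x (A x) ≠ 0 := by
      by_contra hc
      push Not at hc
      obtain ⟨x, hx, hx0⟩ := (Submodule.ne_bot_iff _).1 (LinearMap.ker_ne_bot_of_finrank_lt
        (f := L) (by simp; omega))
      replace hx : L x = 0 := hx
      obtain ⟨w, hw⟩ := not_forall.1 (mt (hd x) hx0)
      obtain ⟨y, rfl⟩ : ∃ y, w = A y := ⟨-(m⁻¹ • A w), by
        rw [map_neg, map_smul, aa, smul_neg, neg_neg, smul_smul, inv_mul_cancel₀ hm, one_smul]⟩
      set y' := y - ∑ i, ((E (v i) (A y) / q i) • v i + (E (v i) y / q i) • A (v i) +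
        (E (v i) (A (B y)) / (n * q i)) • B (v i) - (E (v i) (B y) / (n * q i)) • A (B (v i)))
        with hy'
      have hy : L y' = 0 := (hL _).2 fun i => by
        have := hq i
        refine ⟨?_, ?_, ?_, ?_⟩ <;>
          simp [hy', h1, h2, h3, h4, aa, bb, ba, this, hn]
      have h5 := (hL x).1 hx
      have h6 : E x (A y') = E x (A y) := by
        simp [hy', aa, hE (v _) x, s1 (v _) x, s2 (v _) x, s3 (v _) x, h5]
      have h7 := hc (x + y') (by rw [map_add, hx, hy, add_zero])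
      simp only [map_add, LinearMap.add_apply, hc x hx, hc y' hy, s1 x y', h6] at h7
      exact hw (half _ (by linear_combination h7))
    have h5 := (hL x).1 hx
    refine ⟨Fin.cons x v, Fin.cons (E x (A x)) q, fun i => ?_, fun i j => ?_, fun i j => ?_,
      fun i j => ?_, fun i j => ?_⟩
    · induction i using Fin.cases
      · exact hx0
      · exact hq _
    all_goals
      induction i using Fin.cases <;> induction j using Fin.cases <;>
        simp [h1, h2, h3, h4, h5, hE (v _) x, s1 (v _) x, s2 (v _) x, s3 (v _) x,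
          half _ (hE x x), half _ (s2 x x), half _ (s3 x x), (Fin.succ_ne_zero _).symm]

variable {a b : MZ} {m n : ℕ}

theorem zM_mul (R : Type) [CommRing R] (g h : MZ) : zM R (g * h) = zM R g * zM R h :=
  Matrix.map_mul (f := Int.castRingHom R)

theorem zM_J (R : Type) [CommRing R] : zM R (J (Fin 8) ℤ) = J (Fin 8) R :=
  map_J (Fin 8) (Int.castRingHom R)

theorem zM_one (R : Type) [CommRing R] : zM R 1 = 1 :=
  Matrix.map_one _ Int.cast_zero Int.cast_one

theorem zM_neg (R : Type) [CommRing R] (g : MZ) : zM R (-g) = -zM R g := by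
  ext i j
  simp

theorem zM_add (R : Type) [CommRing R] (g h : MZ) : zM R (g + h) = zM R g + zM R h := by
  ext i j
  simp

theorem zM_smul (R : Type) [CommRing R] (c : ℤ) (g : MZ) : zM R (c • g) = (c : R) • zM R g := by
  ext i j
  simp only [map_apply, Matrix.smul_apply, smul_eq_mul, Int.cast_mul]

theorem zM_injective (R : Type) [CommRing R] [CharZero R] : Function.Injective (zM R) :=
  Matrix.map_injective Int.cast_injective

/-- The relations over any ring. -/
theorem PEL.rel (h : PEL a b m n) (R : Type) [CommRing R] :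
    zM R a * zM R a = -((m : R) • 1) ∧ zM R b * zM R b = (n : R) • 1 ∧
      zM R a * zM R b = -(zM R b * zM R a) ∧
      (zM R a)ᵀ * J (Fin 8) R = -(J (Fin 8) R * zM R a) ∧
      (zM R b)ᵀ * J (Fin 8) R = J (Fin 8) R * zM R b := by
  refine ⟨?_, ?_, ?_, ?_, ?_⟩
  · rw [← zM_mul, h.aa, zM_neg, zM_smul, zM_one, Int.cast_natCast]
  · rw [← zM_mul, h.bb, zM_smul, zM_one, Int.cast_natCast]
  · rw [← zM_mul, h.ab, zM_neg, zM_mul]
  · rw [← zM_J, ← zM_mul, ← zM_neg, ← h.aJ, zM_mul]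
    rfl
  · rw [← zM_J, ← zM_mul, ← h.bJ, zM_mul]
    rfl

/-- An orthogonal basis of `ℚ ^ 16` over the quaternion algebra. -/
structure Orth (a b : MZ) (V : Matrix ν (Fin 4) ℤ) (q : Fin 4 → ℤ) : Prop where
  ne : ∀ i, q i ≠ 0
  e1 : Vᵀ * J (Fin 8) ℤ * V = 0
  ea : Vᵀ * J (Fin 8) ℤ * a * V = diagonal q
  eb : Vᵀ * J (Fin 8) ℤ * b * V = 0
  eab : Vᵀ * J (Fin 8) ℤ * (a * b) * V = 0

theorem PEL.exists_orth (h : PEL a b m n) : ∃ V q, Orth a b V q := by
  obtain ⟨aa, bb, ab, aJ, bJ⟩ := h.rel ℚ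
  have hE : ∀ x y : ν → ℚ, toLinearMap₂' ℚ (J (Fin 8) ℚ) x y = x ⬝ᵥ J (Fin 8) ℚ *ᵥ y :=
    toLinearMap₂'_apply' _
  have hT : ∀ (g : Matrix ν ν ℚ) (x y : ν → ℚ), (g *ᵥ x) ⬝ᵥ J (Fin 8) ℚ *ᵥ y =
      x ⬝ᵥ (gᵀ * J (Fin 8) ℚ) *ᵥ y := fun g x y => by
    rw [← mulVec_mulVec, dotProduct_mulVec x, vecMul_transpose]
  obtain ⟨v, q, hq, h1, h2, h3, h4⟩ := orth_aux (toLinearMap₂' ℚ (J (Fin 8) ℚ))
    (mulVecLin (zM ℚ a)) (mulVecLin (zM ℚ b)) (m := (m : ℚ)) (n := (n : ℚ))
    (Nat.cast_ne_zero.2 h.m0.ne') (Nat.cast_ne_zero.2 h.n0.ne')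
    (fun x y => by
      rw [hE, hE, dotProduct_mulVec, ← mulVec_transpose, J_transpose, neg_mulVec, neg_dotProduct,
        dotProduct_comm])
    (fun x hx => (Matrix.nondegenerate_of_det_ne_zero
      (isUnit_det_J (Fin 8) ℚ).ne_zero).eq_zero_of_ortho fun y => (hE x y).symm.trans (hx y))
    (fun x y => by
      rw [hE, hE, mulVecLin_apply, mulVecLin_apply, hT, aJ, neg_mulVec, dotProduct_neg,
        mulVec_mulVec])
    (fun x y => by rw [hE, hE, mulVecLin_apply, mulVecLin_apply, hT, bJ, mulVec_mulVec])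
    (fun x => by
      rw [mulVecLin_apply, mulVecLin_apply, mulVec_mulVec, aa, neg_mulVec, smul_mulVec, one_mulVec])
    (fun x => by
      rw [mulVecLin_apply, mulVecLin_apply, mulVec_mulVec, bb, smul_mulVec, one_mulVec])
    (fun x => by
      simp only [mulVecLin_apply, mulVec_mulVec, ab, neg_mulVec, neg_neg]) 4 (by simp)
  obtain ⟨N, hN⟩ := IsLocalization.exist_integer_multiples_of_finite (nonZeroDivisors ℤ)
    fun s : ν × Fin 4 => v s.2 s.1
  choose G hG using hN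
  have hN0 : ((N : ℤ) : ℚ) ≠ 0 := Int.cast_ne_zero.2 (nonZeroDivisors.ne_zero N.2)
  have key : ∀ (d : MZ) (i j : Fin 4),
      ((((of fun s t => G (s, t))ᵀ * J (Fin 8) ℤ * d * of fun s t => G (s, t) :
        Matrix (Fin 4) (Fin 4) ℤ) i j : ℤ) : ℚ) =
      ((N : ℤ) : ℚ) ^ 2 * (v i ⬝ᵥ J (Fin 8) ℚ *ᵥ (zM ℚ d *ᵥ v j)) := fun d i j => by
    have e : ∀ s t, ((G (s, t) : ℤ) : ℚ) = ((N : ℤ) : ℚ) * v t s := fun s t => by
      simpa using hG (s, t)
    rw [Matrix.mul_assoc _ _ d, Matrix.mul_assoc, mulVec_mulVec, ← zM_J ℚ, ← zM_mul]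
    simp only [mul_apply (M := (of fun s t => G (s, t))ᵀ), mul_apply (M := J (Fin 8) ℤ * d),
      transpose_apply, of_apply, Int.cast_sum, Int.cast_mul, e, dotProduct, mulVec, map_apply,
      Finset.mul_sum]
    exact Finset.sum_congr rfl fun s _ => Finset.sum_congr rfl fun t _ => by ring
  simp only [hE, mulVecLin_apply] at h1 h2 h3 h4
  refine ⟨of fun s t => G (s, t), fun i => ((of fun s t => G (s, t))ᵀ * J (Fin 8) ℤ * a *
    of fun s t => G (s, t) : Matrix (Fin 4) (Fin 4) ℤ) i i, fun i hi => ?_, ?_, ?_, ?_, ?_⟩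
  · have h5 := key a i i
    rw [hi, h2, if_pos rfl, Int.cast_zero] at h5
    exact mul_ne_zero (pow_ne_zero 2 hN0) (hq i) h5.symm
  · ext i j
    have h5 := key 1 i j
    rw [Matrix.mul_one, zM_one, one_mulVec, h1, mul_zero] at h5
    exact Int.cast_eq_zero.1 h5
  · ext i j
    by_cases hij : i = j
    · rw [hij, diagonal_apply_eq]
    · have h5 := key a i j
      rw [h2, if_neg hij, mul_zero] at h5
      rw [diagonal_apply_ne _ hij]
      exact Int.cast_eq_zero.1 h5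
  · ext i j
    have h5 := key b i j
    rw [h3, mul_zero] at h5
    exact Int.cast_eq_zero.1 h5
  · ext i j
    have h5 := key (a * b) i j
    rw [zM_mul, ← mulVec_mulVec (v j), h4, mul_zero] at h5
    exact Int.cast_eq_zero.1 h5

end M8
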