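import Pool.Agent.Lib.MP_33b3f9_ag.M8.IDefs
import Pool.Agent.Lib.MP_33b3f9_ag.M8.MorA
import Pool.Agent.Lib.MP_33b3f9_ag.M4.FP.Sg

/-!
Transport of the quaternion structure along integral similitudes.
-/

set_option autoImplicit false

noncomputable section

namespace M8

open M4 Matrix

variable {τ : Mat} {a b a' b' g : MZ} {m n M : ℕ}

theorem zr_mul (g h : MZ) : zr (g * h) = zr g * zr h := zM_mul ℝ g h

theorem zr_smul (c : ℤ) (g : MZ) : zr (c • g) = (c : ℝ) • zr g := zM_smul ℝ c g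

theorem zr_one : zr 1 = 1 := zM_one ℝ

theorem zr_inj : Function.Injective zr := zM_injective ℝ

theorem zr_tr (g : MZ) : zr gᵀ = (zr g)ᵀ := rfl

theorem zr_J : zr (J (Fin 8) ℤ) = J (Fin 8) ℝ := zM_J ℝ

theorem sim_int {M : ℤ} : Sim (zr g) M ↔ gᵀ * J (Fin 8) ℤ * g = M • J (Fin 8) ℤ := by
  rw [M4.sim_iff, ← zr_J, ← zr_tr, ← zr_mul, ← zr_mul, ← zr_smul, zr_inj.eq_iff]

theorem sim_nat : Sim (zr g) M ↔ gᵀ * J (Fin 8) ℤ * g = (M : ℤ) • J (Fin 8) ℤ := by
  rw [← sim_int, Int.cast_natCast]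

theorem act_mul' {g h : Matrix ν ν ℝ} {m n : ℝ} (hg : Sim g m) (hm : 0 < m) (hh : Sim h n)
    (hn : 0 < n) (hτ : InH τ) : act (g * h) τ = act g (act h τ) :=
  M4.act_mul (den_det_ne_zero hh hn hτ) (den_det_ne_zero hg hm (M4.inH_act hh hn hτ))

theorem fix_iff {g : Matrix ν ν ℝ} {m : ℝ} (hg : Sim g m) (hm : 0 < m) (hτ : InH τ) :
    act g τ = τ ↔ g * cst τ = cst τ * g := by
  have h1 := M4.cst_act hg hm hτ
  refine ⟨fun h => by rw [← h1, h], fun h => FP.cst_inj (M4.inH_act hg hm hτ) hτ ?_⟩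
  exact (isUnit_iff_isUnit_det _ |>.2 (hg.det_ne_zero hm.ne').isUnit).mul_right_cancel (h1.trans h)

/-- The symplectic adjoint. -/
def adj (g : MZ) : MZ := -(J (Fin 8) ℤ * gᵀ * J (Fin 8) ℤ)

theorem adj_mul (hg : Sim (zr g) M) : adj g * g = (M : ℤ) • (1 : MZ) := by
  rw [adj, neg_mul, mul_assoc (J _ _), mul_assoc (J _ _), sim_nat.1 hg, Matrix.mul_smul, J_squared]
  simp

theorem det_ne (hM : 0 < M) (hg : Sim (zr g) M) : g.det ≠ 0 := fun h => by
  have h1 := congrArg det (adj_mul hg)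
  rw [det_mul, h, mul_zero, det_smul, det_one, mul_one] at h1
  exact pow_ne_zero _ (Int.natCast_ne_zero.2 hM.ne') h1.symm

theorem cancel_right (hg : g.det ≠ 0) {x y : MZ} (h : x * g = y * g) : x = y := by
  have h1 := congrArg (· * g.adjugate) h
  simp only [mul_assoc, mul_adjugate, Matrix.mul_smul, mul_one] at h1
  exact smul_right_injective _ hg h1

theorem cancel_left (hg : g.det ≠ 0) {x y : MZ} (h : g * x = g * y) : x = y := by
  have h1 := congrArg (g.adjugate * ·) h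
  simp only [← mul_assoc, adjugate_mul, Matrix.smul_mul, one_mul] at h1
  exact smul_right_injective _ hg h1

theorem mul_adj (hM : 0 < M) (hg : Sim (zr g) M) : g * adj g = (M : ℤ) • (1 : MZ) :=
  cancel_right (det_ne hM hg) (by
    rw [mul_assoc, adj_mul hg, mul_smul_comm, smul_mul_assoc, mul_one, one_mul])

theorem sim_adj (hM : 0 < M) (hg : Sim (zr g) M) : Sim (zr (adj g)) M := by
  have hd := det_ne hM hg
  rw [sim_nat]
  refine cancel_right hd (cancel_left (g := gᵀ) (by rwa [det_transpose]) ?_)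
  rw [mul_assoc, adj_mul hg, ← mul_assoc, ← mul_assoc, ← transpose_mul, adj_mul hg,
    smul_mul_assoc _ _ g, mul_smul_comm _ gᵀ, ← mul_assoc, sim_nat.1 hg, transpose_smul,
    transpose_one, mul_smul_comm, smul_mul_assoc, mul_one, one_mul]

/-- An intertwining relation is inverted by the adjoint. -/
theorem adj_tw (hM : 0 < M) (hg : Sim (zr g) M) (ha : g * a = a' * g) :
    adj g * a' = a * adj g :=
  cancel_right (det_ne hM hg) (by
    rw [mul_assoc, ← ha, ← mul_assoc, adj_mul hg, mul_assoc, adj_mul hg,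
      mul_smul_comm, smul_mul_assoc, mul_one, one_mul])

theorem PEL.sim_a (h : PEL a b m n) : Sim (zr a) m := by
  rw [sim_nat, h.aJ, neg_mul, mul_assoc, h.aa, mul_neg, neg_neg, mul_smul_comm, mul_one]

theorem PEL.sim_b (h : PEL a b m n) : Sim (zr b) n := by
  rw [sim_nat, h.bJ, mul_assoc, h.bb, mul_smul_comm, mul_one]

theorem PEL.fx_iff (h : PEL a b m n) (hτ : InH τ) :
    τ ∈ FX a b ↔ zr a * cst τ = cst τ * zr a ∧ zr b * cst τ = cst τ * zr b := by
  rw [← fix_iff h.sim_a (Nat.cast_pos.2 h.m0) hτ, ← fix_iff h.sim_b (Nat.cast_pos.2 h.n0) hτ]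
  exact ⟨fun h => h.2, fun h => ⟨hτ, h⟩⟩

theorem tw_J (hM : 0 < M) (hg : Sim (zr g) M) (ha : g * a = a' * g) {e : ℤ}
    (h : aᵀ * J (Fin 8) ℤ = e • (J (Fin 8) ℤ * a)) : a'ᵀ * J (Fin 8) ℤ = e • (J (Fin 8) ℤ * a') := by
  have hd := det_ne hM hg
  refine cancel_right hd (cancel_left (g := gᵀ) (by rwa [det_transpose]) ?_)
  calc gᵀ * (a'ᵀ * J (Fin 8) ℤ * g) = aᵀ * (gᵀ * J (Fin 8) ℤ * g) := by
        rw [← mul_assoc, ← mul_assoc, ← transpose_mul, ← ha, transpose_mul]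
        simp only [mul_assoc]
    _ = e • (gᵀ * J (Fin 8) ℤ * g * a) := by
        rw [sim_nat.1 hg, Matrix.mul_smul, h, Matrix.smul_mul, smul_comm]
    _ = _ := by
        rw [Matrix.smul_mul, Matrix.mul_smul, mul_assoc _ g, ha]
        simp only [mul_assoc]

theorem PEL.conj (h : PEL a b m n) (hM : 0 < M) (hg : Sim (zr g) M) (ha : g * a = a' * g)
    (hb : g * b = b' * g) : PEL a' b' m n := by
  have hd := det_ne hM hg
  refine ⟨h.m0, h.n0, cancel_right hd ?_, cancel_right hd ?_, cancel_right hd ?_, ?_, ?_⟩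
  · rw [mul_assoc, ← ha, ← mul_assoc, ← ha, mul_assoc, h.aa, mul_neg, neg_mul,
      mul_smul_comm, smul_mul_assoc, mul_one, one_mul]
  · rw [mul_assoc, ← hb, ← mul_assoc, ← hb, mul_assoc, h.bb,
      mul_smul_comm, smul_mul_assoc, mul_one, one_mul]
  · rw [mul_assoc, ← hb, ← mul_assoc, ← ha, mul_assoc, h.ab, neg_mul, mul_assoc, ← ha,
      ← mul_assoc b', ← hb, mul_neg, mul_assoc]
  · simpa using tw_J hM hg ha (e := -1) (by simpa using h.aJ)
  · simpa using tw_J hM hg hb (e := 1) (by simpa using h.bJ)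

theorem fix_tw (hM : 0 < M) (hg : Sim (zr g) M) (hτ : InH τ) (ha : g * a = a' * g) :
    zr a * cst τ = cst τ * zr a ↔
      zr a' * cst (act (zr g) τ) = cst (act (zr g) τ) * zr a' := by
  have hM' : (0 : ℝ) < M := Nat.cast_pos.2 hM
  have hu : IsUnit (zr g) := (isUnit_iff_isUnit_det _).2 (hg.det_ne_zero hM'.ne').isUnit
  have h1 := M4.cst_act hg hM' hτ
  have h2 : zr g * zr a = zr a' * zr g := by rw [← zr_mul, ha, zr_mul]
  rw [← hu.mul_left_inj (b := zr a' * _), ← hu.mul_right_inj, mul_assoc (zr a'), h1,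
    ← mul_assoc (zr a'), ← h2, mul_assoc _ (zr a'), ← h2, ← mul_assoc _ (zr g), h1]
  simp only [mul_assoc]

theorem PEL.fx_act (h : PEL a b m n) (hM : 0 < M) (hg : Sim (zr g) M) (ha : g * a = a' * g)
    (hb : g * b = b' * g) (hτ : τ ∈ FX a b) : act (zr g) τ ∈ FX a' b' := by
  rw [(h.conj hM hg ha hb).fx_iff (M4.inH_act hg (Nat.cast_pos.2 hM) hτ.1),
    ← fix_tw hM hg hτ.1 ha, ← fix_tw hM hg hτ.1 hb, ← h.fx_iff hτ.1]
  exact hτ

end M8
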