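import Pool.Agent.Lib.MP_33b3f9_ag.M8.TrE

/-!
Elements of level eight that normalise the quaternion algebra centralise it.
-/

set_option autoImplicit false

noncomputable section

namespace M8

open Matrix M4

theorem cent_num {N r n : ℤ} (h : ∀ k : ℕ, N ^ k ∣ r ^ k * n) (hr : 2 * |r| ≤ N) (hn : n ≠ 0) :
    r = 0 := by
  by_contra h0
  have h1 := Int.le_of_dvd (abs_pos.2 (mul_ne_zero (pow_ne_zero _ h0) hn))
    ((dvd_abs _ _).2 (h n.natAbs))
  have h2 := (pow_le_pow_left₀ (by positivity) hr n.natAbs).trans h1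
  rw [abs_mul, abs_pow, mul_pow, mul_comm, mul_le_mul_iff_right₀ (pow_pos (abs_pos.2 h0) _),
    ← Int.natCast_natAbs] at h2
  exact (Nat.lt_two_pow_self (n := n.natAbs)).not_ge (by exact_mod_cast h2)

theorem cent_alg {R : Type} [Ring R] (hc : ∀ (N : ℤ) (x y : R), N ≠ 0 → N • x = N • y → x = y)
    (hd : ∀ (N M : ℤ) (w : R), N • w = M • 1 → N ∣ M) {a b : R} {m n : ℤ} (hm : 0 < m)
    (hn : 0 < n) (aa : a * a = -(m • 1)) (bb : b * b = n • 1) (ab : a * b = -(b * a))
    (C : R →+* R) (hC : ∀ z, ∃ w, C z = z + (8 : ℤ) • w) {d e c : ℤ} {f : Fin 4 → ℤ} (d0 : d ≠ 0)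
    (e0 : e ≠ 0) (ha : d • C a = c • a)
    (hb : e • C b = f 0 • 1 + f 1 • a + f 2 • b + f 3 • (a * b)) : C a = a ∧ C b = b := by
  have hz : ∀ M M' : ℤ, M • (1 : R) = M' • 1 → M = M' := fun M M' h =>
    sub_eq_zero.1 (zero_dvd_iff.1 (hd 0 _ 0 (by rw [sub_smul, h, sub_self, zero_smul])))
  have ba : b * a = -(a * b) := by rw [ab, neg_neg]
  have a2 : ∀ x, a * (a * x) = -(m • x) := fun x => by
    rw [← mul_assoc, aa, neg_mul, smul_mul_assoc, one_mul]
  have b2 : ∀ x, b * (a * x) = -(a * (b * x)) := fun x => by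
    rw [← mul_assoc, ba, neg_mul, mul_assoc]
  have h1 : C a = a := by
    have k1 : (d * d * m) • (1 : R) = (c * c * m) • 1 := by
      have k2 := congrArg (fun x => x * x) ha
      simp only [smul_mul_smul_comm, ← map_mul, aa, map_neg, map_zsmul, map_one, smul_neg,
        smul_smul, neg_inj] at k2
      exact k2
    rcases mul_self_eq_mul_self_iff.1 (mul_right_cancel₀ hm.ne' (hz _ _ k1)) with k2 | k2
    · exact hc d _ _ d0 (k2 ▸ ha)
    have k3 : C a = -a := hc d _ _ d0 (by rw [ha, k2, neg_smul, smul_neg, neg_neg])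
    have k4 : ∀ k : ℕ, ∃ z, a = (2 : ℤ) ^ k • z ∧ C z = -z := fun k => by
      induction k with
      | zero => exact ⟨a, by simp, k3⟩
      | succ k ih =>
        obtain ⟨z, h1, h2⟩ := ih
        obtain ⟨w, hw⟩ := hC z
        have h3 : z = (2 : ℤ) • (-2 : ℤ) • w := hc 2 _ _ two_ne_zero (by
          rw [h2] at hw
          linear_combination (norm := module) -hw)
        refine ⟨(-2 : ℤ) • w, by rw [h1, pow_succ, mul_smul, ← h3], hc 2 _ _ two_ne_zero ?_⟩
        rw [← map_zsmul, smul_neg, ← h3, h2]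
    refine absurd (cent_num (N := 4) (r := 1) (n := -m) (fun k => ?_) (by norm_num)
      (neg_ne_zero.2 hm.ne')) one_ne_zero
    obtain ⟨z, h1, -⟩ := k4 k
    refine hd _ _ (z * z) ?_
    rw [one_pow, one_mul, neg_smul, ← aa, h1, smul_mul_smul_comm, ← mul_pow]
    norm_num
  refine ⟨h1, ?_⟩
  have sq : ∀ p q : ℤ, (p • b + q • (a * b)) * (p • b + q • (a * b)) =
      ((p ^ 2 + m * q ^ 2) * n) • 1 := fun p q => by
    simp only [add_mul, mul_add, smul_mul_assoc, mul_smul_comm, mul_assoc, b2, bb, mul_neg,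
      mul_one, aa]
    module
  have h2 : e • C b = f 2 • b + f 3 • (a * b) := by
    have k1 := congrArg (fun x => e • C x) ab
    simp only [map_mul, map_neg, h1, smul_neg, ← mul_smul_comm e a, ← smul_mul_assoc e _ a, hb] at k1
    have k2 := congrArg (a * ·) k1
    simp only [add_mul, mul_add, smul_mul_assoc, mul_smul_comm, mul_assoc, a2, ba, mul_neg,
      mul_one, one_mul, aa, neg_add] at k2
    refine hc (2 * m) _ _ (by positivity) ?_
    rw [hb]
    linear_combination (norm := module) -k2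
  have h3 : e * e = f 2 ^ 2 + m * f 3 ^ 2 := by
    have k2 := congrArg (fun x => x * x) h2
    simp only [smul_mul_smul_comm, ← map_mul, bb, map_zsmul, map_one, smul_smul, sq] at k2
    exact mul_right_cancel₀ hn.ne' (hz _ _ k2)
  have h4 : ∀ k : ℕ, ∃ (z : R) (p q : ℤ), (8 * e) ^ k • z = p • b + q • (a * b) ∧
      p ^ 2 + m * q ^ 2 = ((f 2 - e) ^ 2 + m * f 3 ^ 2) ^ k := fun k => by
    induction k with
    | zero => exact ⟨b, 1, 0, by simp, by simp⟩
    | succ k ih =>
      obtain ⟨z, p, q, k1, k2⟩ := ih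
      obtain ⟨w, hw⟩ := hC z
      refine ⟨w, p * (f 2 - e) - m * q * f 3, p * f 3 + q * (f 2 - e), ?_, by
        rw [pow_succ _ k, ← k2]; ring⟩
      have k3 : e • (8 * e) ^ k • C z = p • e • C b + q • (a * e • C b) := by
        rw [← map_zsmul C _ z, k1, map_add, map_zsmul, map_zsmul, map_mul, h1, mul_smul_comm,
          smul_add, smul_comm e p, smul_comm e q]
      rw [hw, h2, smul_add _ z, k1, mul_add, mul_smul_comm, mul_smul_comm, a2] at k3
      rw [pow_succ]
      linear_combination (norm := module) k3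
  have h5 : (f 2 - e) ^ 2 + m * f 3 ^ 2 = 0 := by
    refine cent_num (N := 8 * e * (8 * e)) (fun k => ?_) ?_ hn.ne'
    · obtain ⟨z, p, q, k1, k2⟩ := h4 k
      exact hd _ _ (z * z) (by rw [mul_pow, ← smul_mul_smul_comm, k1, sq, k2])
    · rw [abs_of_nonneg (by positivity)]
      nlinarith [sq_nonneg (f 2 + e), mul_nonneg hm.le (sq_nonneg (f 3)), mul_self_nonneg e]
  have h6 : f 2 = e := by nlinarith [mul_nonneg hm.le (sq_nonneg (f 3)), sq_nonneg (f 2 - e)]
  have h7 : f 3 = 0 := by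
    rw [h6, sub_self, zero_pow two_ne_zero, zero_add] at h5
    exact pow_eq_zero_iff two_ne_zero |>.1 ((mul_eq_zero.1 h5).resolve_left hm.ne')
  exact hc e _ _ e0 (by rw [h2, h6, h7, zero_smul, add_zero])

variable {τ : Mat} {a b : MZ} {m n : ℕ}

theorem adj_of {g h : MZ} (e : gᵀ * J (Fin 8) ℤ = J (Fin 8) ℤ * h) : adj g = h := by
  rw [adj, mul_assoc, e, ← mul_assoc, J_squared, neg_mul, neg_neg, one_mul]

theorem adj_mul_rev (g h : MZ) : adj (g * h) = adj h * adj g := by
  rw [adj, adj, adj, neg_mul_neg, transpose_mul]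
  simp only [mul_assoc]
  rw [← mul_assoc (J _ _) (J _ _), J_squared, neg_mul, one_mul, mul_neg, mul_neg]

theorem adj_adj (g : MZ) : adj (adj g) = g := adj_of (by
  simp only [adj, transpose_neg, transpose_mul, J_transpose, transpose_transpose, neg_mul, mul_neg,
    neg_neg, mul_assoc, J_squared, mul_one])

theorem adj_lin (c : Fin 4 → ℤ) (x y z : MZ) : adj (c 0 • 1 + c 1 • x + c 2 • y + c 3 • z) =
    c 0 • 1 + c 1 • adj x + c 2 • adj y + c 3 • adj z := by
  simp only [adj, transpose_add, transpose_smul, transpose_one, mul_add, add_mul, mul_smul_comm,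
    smul_mul_assoc, mul_one, J_squared, neg_add, smul_neg, neg_neg]

theorem adj_smul (c : ℤ) (x : MZ) : adj (c • x) = c • adj x := by
  simp only [adj, transpose_smul, mul_smul_comm, smul_mul_assoc, smul_neg]

theorem cent (hP : PEL a b m n) (hτ : τ ∈ FX a b) (hE : EndX a b τ) {δ : MZ} (hs : Sim (zr δ) 1)
    (h8 : ∀ i j, (8 : ℤ) ∣ (δ - 1) i j) (h : act (zr δ) τ ∈ FX a b) : Com a b δ := by
  have hs' : Sim (zr δ) (1 : ℕ) := by rwa [Nat.cast_one]
  have e1 : adj δ * δ = 1 := by simpa using adj_mul hs'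
  have e2 : δ * adj δ = 1 := mul_eq_one_comm.1 e1
  have e3 : ∀ x : MZ, δ * (adj δ * x * δ) = x * δ := fun x => by
    rw [← mul_assoc, ← mul_assoc, e2, one_mul]
  obtain ⟨h1, h2⟩ := (hP.fx_iff h.1).1 h
  obtain ⟨d, c, d0, hd⟩ := hE _ ((fix_tw one_pos hs' hτ.1 (e3 a)).2 h1)
  obtain ⟨e, f, e0, he⟩ := hE _ ((fix_tw one_pos hs' hτ.1 (e3 b)).2 h2)
  have ka : adj a = -a := adj_of (by rw [hP.aJ, mul_neg])
  have kb : adj b = b := adj_of hP.bJ
  have hc : ∀ (N : ℤ) (x y : MZ), N ≠ 0 → N • x = N • y → x = y := fun N x y hN h =>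
    smul_right_injective _ hN h
  have k1 : d • (adj δ * a * δ) = c 1 • a := by
    have k2 := congrArg adj hd
    rw [adj_lin, adj_smul, adj_mul_rev, adj_mul_rev, adj_mul_rev, adj_adj, ka, kb, neg_mul, mul_neg,
      mul_neg, ← hP.ab, ← mul_assoc] at k2
    refine hc 2 _ _ two_ne_zero ?_
    linear_combination (norm := module) hd - k2
  choose β hβ using h8
  have k2 : δ = 1 + (8 : ℤ) • Matrix.of β := by
    rw [← sub_eq_iff_eq_add']
    exact Matrix.ext hβ
  let C : MZ →+* MZ :=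
    { toFun := fun x => adj δ * x * δ
      map_one' := by rw [mul_one, e1]
      map_mul' := fun x y => by rw [mul_assoc (adj δ * x), e3, ← mul_assoc, ← mul_assoc]
      map_zero' := by rw [mul_zero, zero_mul]
      map_add' := fun x y => by rw [mul_add, add_mul] }
  obtain ⟨k3, k4⟩ := cent_alg hc (fun N M w h => ⟨w (.inl 0) (.inl 0), by
      simpa using (congrFun (congrFun h (.inl 0)) (.inl 0)).symm⟩) (Nat.cast_pos.2 hP.m0)
    (Nat.cast_pos.2 hP.n0) hP.aa hP.bb hP.ab C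
    (fun z => ⟨adj δ * (z * Matrix.of β - Matrix.of β * z), by
      change adj δ * z * δ = _
      have k5 : z * δ - δ * z = (8 : ℤ) • (z * Matrix.of β - Matrix.of β * z) := by
        rw [k2, mul_add, add_mul, mul_one, one_mul, mul_smul_comm, smul_mul_assoc, smul_sub]
        abel
      rw [← mul_smul_comm, ← k5, mul_sub, ← mul_assoc, ← mul_assoc, e1, one_mul,
        add_sub_cancel]⟩) d0 e0 k1 he
  exact ⟨(congrArg (δ * ·) k3).symm.trans (e3 a), (congrArg (δ * ·) k4).symm.trans (e3 b)⟩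

theorem SH.stab (hP : PEL a b m n) (hτ : τ ∈ FX a b) (hE : EndX a b τ) : STABst a b τ := by
  intro g g' δ M M' hg hg' hs h8 h
  have hM := hg.1.pos
  have hM' := hg'.1.pos
  have hR : (0 : ℝ) < M := Nat.cast_pos.2 hM
  have hR' : (0 : ℝ) < M' := Nat.cast_pos.2 hM'
  obtain ⟨-, -, s1, c1, c2⟩ := hg
  obtain ⟨-, -, s2, c3, c4⟩ := hg'
  obtain ⟨c5, c6⟩ := cent hP (hP.fx_act hM s1 c1 c2 hτ) (hE.act hτ.1 hM s1 c1 c2) hs h8 (by
    rw [← act_mul' hs one_pos s1 hR hτ.1, ← zr_mul, h]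
    exact hP.fx_act hM' s2 c3 c4 hτ)
  have s3 := sim_adj hM' s2
  have s4 : Sim (zr (δ * g)) (1 * M) := zr_mul δ g ▸ hs.mul s1
  obtain ⟨d, c, d0, hd⟩ := hE (adj g' * (δ * g)) (by
    rw [zr_mul, ← fix_iff (s3.mul s4) (by positivity) hτ.1,
      act_mul' s3 hR' s4 (by positivity) hτ.1, h, ← act_mul' s3 hR' s2 hR' hτ.1, ← zr_mul,
      adj_mul s2, zr_smul, zr_one, act_smul (by exact_mod_cast hM'.ne'), act_one])
  have k1 : ∀ x : MZ, g * x = x * g → g' * x = x * g' → δ * x = x * δ →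
      x * (d • (adj g' * (δ * g))) = d • (adj g' * (δ * g)) * x := fun x h1 h2 h3 => by
    rw [mul_smul_comm, smul_mul_assoc, ← mul_assoc, ← adj_tw hM' s2 h2, mul_assoc, mul_assoc,
      mul_assoc, h1, ← mul_assoc δ, h3, mul_assoc]
  have k2 := k1 a c1 c3 c5
  have k3 := k1 b c2 c4 c6
  have ba : b * a = -(a * b) := by rw [hP.ab, neg_neg]
  have a2 : ∀ x, a * (a * x) = -((m : ℤ) • x) := fun x => by
    rw [← mul_assoc, hP.aa, neg_mul, smul_mul_assoc, one_mul]
  have hc : ∀ (N : ℤ) (x y : MZ), N ≠ 0 → N • x = N • y → x = y := fun N x y hN h =>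
    smul_right_injective _ hN h
  have m0 : (m : ℤ) ≠ 0 := Nat.cast_ne_zero.2 hP.m0.ne'
  have n0 : (n : ℤ) ≠ 0 := Nat.cast_ne_zero.2 hP.n0.ne'
  have k4 : d • (adj g' * (δ * g)) = c 0 • 1 + c 1 • a := by
    rw [hd] at k2 ⊢
    have k5 := congrArg (a * ·) k2
    simp only [add_mul, mul_add, smul_mul_assoc, mul_smul_comm, mul_assoc, a2, ba, mul_neg,
      mul_one, one_mul, hP.aa, neg_neg] at k5
    refine hc (2 * m) _ _ (mul_ne_zero two_ne_zero m0) ?_
    linear_combination (norm := module) -k5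
  have k5 : d • (adj g' * (δ * g)) = c 0 • 1 := by
    rw [k4] at k3 ⊢
    have k6 := congrArg (· * b) k3
    simp only [add_mul, mul_add, smul_mul_assoc, mul_smul_comm, mul_assoc, ba, neg_mul,
      mul_one, one_mul, hP.bb] at k6
    refine hc (2 * n) _ _ (mul_ne_zero two_ne_zero n0) ?_
    linear_combination (norm := module) -k6
  have k6 : c 0 • g' = (d * M') • (δ * g) := by
    have k7 := congrArg (g' * ·) k5
    simp only [mul_smul_comm, mul_one] at k7
    rw [← k7, ← mul_assoc, mul_adj hM' s2, smul_mul_assoc, one_mul, smul_smul]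
  refine ⟨c 0, d * M', fun h0 => ?_, k6⟩
  rw [h0, zero_smul, eq_comm, smul_eq_zero] at k6
  rcases k6 with k6 | k6
  · exact mul_ne_zero d0 (Nat.cast_ne_zero.2 hM'.ne') k6
  · refine s4.det_ne_zero (by positivity) ?_
    rw [k6, show zr 0 = 0 from Matrix.map_zero _ Int.cast_zero, det_zero]

end M8
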