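import Pool.Agent.Lib.MP_33b3f9_ag.M8.MorA

/-!
Existence of splittings.
-/

set_option autoImplicit false

noncomputable section

namespace M8

open Matrix Pool.Agent.M4.Mx
open scoped Kronecker

section ring

variable {R : Type} [CommRing R] {A B : Matrix ν ν R} {m n h x y : R}

/-- A symplectic basis of the eigenspace of the involution `u = x B + y A B`. -/
theorem exists_half (aa : A * A = -(m • 1)) (bb : B * B = n • 1) (ab : A * B = -(B * A))
    (aJ : Aᵀ * J (Fin 8) R = -(J (Fin 8) R * A)) (bJ : Bᵀ * J (Fin 8) R = J (Fin 8) R * B)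
    {V : Matrix ν (Fin 4) R} {q r : Fin 4 → R} (hr : ∀ i, q i * r i = 1)
    (e1 : Vᵀ * J (Fin 8) R * V = 0) (ea : Vᵀ * J (Fin 8) R * A * V = diagonal q)
    (eb : Vᵀ * J (Fin 8) R * B * V = 0) (eab : Vᵀ * J (Fin 8) R * (A * B) * V = 0)
    (hh : 2 * h = 1) (hc : n * (x ^ 2 + m * y ^ 2) = 1) :
    ∃ P : Matrix ν ω R, (x • B + y • (A * B)) * P = P ∧ Pᵀ * J (Fin 8) R * P = J (Fin 4) R ∧
      Pᵀ * J (Fin 8) R * (A * P) = 0 := by
  have ba : B * A = -(A * B) := by rw [ab, neg_neg]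
  have aa' : ∀ X : Matrix ν ν R, A * (A * X) = -(m • X) := fun X => by
    rw [← Matrix.mul_assoc, aa, Matrix.neg_mul, Matrix.smul_mul, Matrix.one_mul]
  have ba' : ∀ X : Matrix ν ν R, B * (A * X) = -(A * (B * X)) := fun X => by
    rw [← Matrix.mul_assoc, ba, Matrix.neg_mul, Matrix.mul_assoc]
  obtain ⟨u, hu⟩ : ∃ u, u = x • B + y • (A * B) := ⟨_, rfl⟩
  rw [← hu]
  have uu : u * u = 1 := by
    simp only [hu, Matrix.add_mul, Matrix.mul_add, Matrix.smul_mul, Matrix.mul_smul,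
      Matrix.mul_assoc, ba', bb, Matrix.mul_neg, Matrix.mul_one, aa]
    match_scalars
    · linear_combination hc
    · ring
  have ua : u * A = -(A * u) := by
    simp only [hu, Matrix.add_mul, Matrix.mul_add, Matrix.smul_mul, Matrix.mul_smul,
      Matrix.mul_assoc, aa', ba, Matrix.mul_neg]
    module
  have uJ : uᵀ * J (Fin 8) R = J (Fin 8) R * u := by
    have : (A * B)ᵀ * J (Fin 8) R = J (Fin 8) R * (A * B) := by
      rw [transpose_mul, Matrix.mul_assoc, aJ, Matrix.mul_neg, ← Matrix.mul_assoc, bJ,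
        Matrix.mul_assoc, ba, Matrix.mul_neg, neg_neg]
    simp only [hu, transpose_add, transpose_smul, Matrix.add_mul, Matrix.mul_add, Matrix.smul_mul,
      Matrix.mul_smul, bJ, this]
  have au : A * u = x • (A * B) - (y * m) • B := by
    simp only [hu, Matrix.mul_add, Matrix.mul_smul, aa']
    module
  obtain ⟨e, he⟩ : ∃ e, e = h • (1 + u) := ⟨_, rfl⟩
  have ue : u * e = e := by rw [he, Matrix.mul_smul, Matrix.mul_add, uu, Matrix.mul_one, add_comm]
  have ee : e * e = e := by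
    nth_rewrite 1 [he]
    rw [Matrix.smul_mul, Matrix.add_mul, ue, Matrix.one_mul, ← two_smul R, smul_smul, mul_comm, hh,
      one_smul]
  have eJ : eᵀ * J (Fin 8) R = J (Fin 8) R * e := by
    simp only [he, transpose_add, transpose_smul, transpose_one, Matrix.add_mul, Matrix.mul_add,
      Matrix.smul_mul, Matrix.mul_smul, uJ, Matrix.one_mul, Matrix.mul_one]
  have eae : e * (A * e) = 0 := by
    nth_rewrite 1 [he]
    rw [Matrix.smul_mul, Matrix.add_mul, Matrix.one_mul, ← Matrix.mul_assoc u, ua, Matrix.neg_mul,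
      Matrix.mul_assoc, ue, add_neg_cancel, smul_zero]
  have vu : Vᵀ * J (Fin 8) R * u * V = 0 := by
    simp only [hu, Matrix.add_mul, Matrix.mul_add, Matrix.smul_mul, Matrix.mul_smul, eb, eab,
      smul_zero, add_zero]
  have vau : Vᵀ * J (Fin 8) R * (A * u) * V = 0 := by
    simp only [au, Matrix.sub_mul, Matrix.mul_sub, Matrix.smul_mul, Matrix.mul_smul, eb, eab,
      smul_zero, sub_zero]
  have f1 : ∀ X Y : Matrix ν (Fin 4) R, (e * X)ᵀ * J (Fin 8) R * (e * Y) =
      Xᵀ * J (Fin 8) R * e * Y := fun X Y => by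
    rw [transpose_mul, Matrix.mul_assoc Xᵀ, eJ, ← Matrix.mul_assoc Xᵀ, Matrix.mul_assoc _ e,
      ← Matrix.mul_assoc e, ee, ← Matrix.mul_assoc]
  have f2 : (A * V)ᵀ * J (Fin 8) R = -(Vᵀ * J (Fin 8) R * A) := by
    rw [transpose_mul, Matrix.mul_assoc, aJ, Matrix.mul_neg, Matrix.mul_assoc]
  have g1 : Vᵀ * J (Fin 8) R * e * V = 0 := by
    simp only [he, Matrix.add_mul, Matrix.mul_add, Matrix.smul_mul, Matrix.mul_smul,
      Matrix.mul_one, e1, vu, add_zero, smul_zero]
  have g2 : Vᵀ * J (Fin 8) R * e * (A * V) = h • diagonal q := by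
    rw [← Matrix.mul_assoc, Matrix.mul_assoc _ e]
    simp only [he, Matrix.add_mul, Matrix.mul_add, Matrix.smul_mul, Matrix.mul_smul,
      Matrix.one_mul, ua, Matrix.mul_neg, Matrix.neg_mul, ea, vau, neg_zero, add_zero]
  have g3 : (A * V)ᵀ * J (Fin 8) R * e * V = -(h • diagonal q) := by
    rw [f2, Matrix.neg_mul, Matrix.neg_mul, Matrix.mul_assoc _ A]
    simp only [he, Matrix.add_mul, Matrix.mul_add, Matrix.smul_mul, Matrix.mul_smul,
      Matrix.mul_one, ea, vau, add_zero]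
  have g4 : (A * V)ᵀ * J (Fin 8) R * e * (A * V) = 0 := by
    have : A * (e * A) = (h * m) • (u - 1) := by
      simp only [he, Matrix.add_mul, Matrix.mul_add, Matrix.smul_mul, Matrix.mul_smul,
        Matrix.one_mul, ua, Matrix.mul_neg, aa, aa']
      module
    rw [f2, Matrix.neg_mul, Matrix.neg_mul, ← Matrix.mul_assoc, Matrix.mul_assoc _ e,
      Matrix.mul_assoc _ A, this]
    simp only [Matrix.sub_mul, Matrix.mul_sub, Matrix.smul_mul, Matrix.mul_smul, Matrix.mul_one,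
      e1, vu, sub_zero, smul_zero, neg_zero]
  have d1 : (h • diagonal q) * diagonal (fun i => -(2 * r i)) = -1 := by
    rw [← diagonal_smul, diagonal_mul_diagonal, ← diagonal_one, diagonal_neg]
    congr 1
    funext i
    rw [Pi.smul_apply, smul_eq_mul]
    linear_combination (-(q i * r i)) * hh - hr i
  have d2 : diagonal (fun i => -(2 * r i)) * (h • diagonal q) = -1 := by
    rw [← d1, ← diagonal_smul, diagonal_mul_diagonal, diagonal_mul_diagonal]
    simp only [mul_comm]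
  refine ⟨e * fromCols V (A * V * diagonal fun i => -(2 * r i)), ?_, ?_, ?_⟩
  · rw [← Matrix.mul_assoc, ue]
  · rw [mul_fromCols, transpose_fromCols, fromRows_mul, fromRows_mul_fromCols, f1, f1, f1, f1, g1,
      ← Matrix.mul_assoc _ (A * V), g2, d1, transpose_mul (A * V), diagonal_transpose]
    simp only [Matrix.mul_assoc (diagonal _)]
    rw [g3, ← Matrix.mul_assoc _ (A * V), g4, Matrix.mul_neg, d2, neg_neg, Matrix.zero_mul,
      Matrix.mul_zero, J]
  · rw [transpose_mul, Matrix.mul_assoc _ eᵀ, eJ, ← Matrix.mul_assoc A, Matrix.mul_assoc,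
      Matrix.mul_assoc (J _ _), ← Matrix.mul_assoc e, eae, Matrix.zero_mul, Matrix.mul_zero,
      Matrix.mul_zero]

/-- Two matrices side by side. -/
def side (P Q : Matrix ν ω R) : Matrix ν (ω × Fin 2) R := of fun i j => ![P, Q] j.2 i j.1

theorem mul_side (X : Matrix ν ν R) (P Q : Matrix ν ω R) :
    X * side P Q = side (X * P) (X * Q) := by
  ext i ⟨j, s⟩
  fin_cases s <;> simp [side, mul_apply]

theorem side_mul (P Q : Matrix ν ω R) (d : M2 R) : side P Q * ((1 : Matrix ω ω R) ⊗ₖ d) =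
    side (d 0 0 • P + d 1 0 • Q) (d 0 1 • P + d 1 1 • Q) := by
  ext i ⟨j, s⟩
  fin_cases s <;>
    simp [side, mul_apply, Fintype.sum_prod_type, one_apply, mul_comm]

theorem side_form (P Q P' Q' : Matrix ν ω R) (i j : ω) (s t : Fin 2) :
    ((side P Q)ᵀ * side P' Q') (i, s) (j, t) = ((![P, Q] s)ᵀ * ![P', Q'] t) i j := rfl

end ring

variable {a b : MZ} {m n : ℕ}

theorem exists_mor (hP : PEL a b m n) {V : Matrix ν (Fin 4) ℤ} {q : Fin 4 → ℤ} (hV : Orth a b V q)
    (R : Type) [CommRing R] {h m' x y t t' : R} {r : Fin 4 → R} (hr : ∀ i, (q i : R) * r i = 1)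
    (hh : 2 * h = 1) (hm : (m : R) * m' = 1) (ht : t * t' = 1)
    (hc : (n : R) * (x ^ 2 + m * y ^ 2) = 1) :
    ∃ s : Mor a b R, s.B = diagonal ![1, t ^ 2 * m] := by
  obtain ⟨aa, bb, ab, aJ, bJ⟩ := hP.rel R
  have key : ∀ d : MZ, (V.map (Int.castRingHom R))ᵀ * J (Fin 8) R * zM R d *
      V.map (Int.castRingHom R) = (Vᵀ * J (Fin 8) ℤ * d * V).map (Int.castRingHom R) := fun d => by
    rw [Matrix.map_mul, Matrix.map_mul, Matrix.map_mul, map_J]
    rfl
  obtain ⟨P, h1, h2, h3⟩ := exists_half aa bb ab aJ bJ (V := V.map (Int.castRingHom R)) hr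
    (by
      have := key 1
      rwa [zM_one, Matrix.mul_one, Matrix.mul_one, hV.e1, Matrix.map_zero _ (map_zero _)] at this)
    (by
      rw [key, hV.ea, diagonal_map (map_zero _)]
      rfl)
    (by rw [key, hV.eb, Matrix.map_zero _ (map_zero _)])
    (by rw [← zM_mul, key, hV.eab, Matrix.map_zero _ (map_zero _)]) hh hc
  generalize hA : zM R a = A at *
  generalize hB : zM R b = B at *
  have aa' : ∀ X : Matrix ν ω R, A * (A * X) = -((m : R) • X) := fun X => by
    rw [← Matrix.mul_assoc, aa, Matrix.neg_mul, Matrix.smul_mul, Matrix.one_mul]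
  have ba' : ∀ X : Matrix ν ω R, B * (A * X) = -(A * (B * X)) := fun X => by
    rw [← Matrix.mul_assoc, ← Matrix.mul_assoc, ab, Matrix.neg_mul, neg_neg]
  have h4 : B * P = ((n : R) * x) • P - ((n : R) * y) • (A * P) := by
    have e1 := congrArg (fun Z => A * Z) h1
    simp only [Matrix.add_mul, Matrix.mul_add, Matrix.smul_mul, Matrix.mul_smul, Matrix.mul_assoc,
      aa'] at h1 e1
    rw [← e1]
    nth_rewrite 2 [← h1]
    match_scalars
    · linear_combination -hc
    · ring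
  have hf : (side P (t • (A * P)))ᵀ * J (Fin 8) R * side P (t • (A * P)) =
      J (Fin 4) R ⊗ₖ diagonal ![1, t ^ 2 * m] := by
    have e1 : (A * P)ᵀ * J (Fin 8) R = -(Pᵀ * J (Fin 8) R * A) := by
      rw [transpose_mul, Matrix.mul_assoc, aJ, Matrix.mul_neg, Matrix.mul_assoc]
    have e2 : (A * P)ᵀ * (J (Fin 8) R * P) = 0 := by
      rw [← Matrix.mul_assoc, e1, Matrix.neg_mul, Matrix.mul_assoc _ A, h3, neg_zero]
    have e3 : (A * P)ᵀ * (J (Fin 8) R * (A * P)) = (m : R) • J (Fin 4) R := by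
      rw [← Matrix.mul_assoc, e1, Matrix.neg_mul, Matrix.mul_assoc _ A, aa', Matrix.mul_neg,
        neg_neg, Matrix.mul_smul, h2]
    rw [Matrix.mul_assoc] at h2 h3
    rw [Matrix.mul_assoc, mul_side]
    ext ⟨i, s⟩ ⟨j, s'⟩
    rw [side_form]
    fin_cases s <;> fin_cases s' <;>
      simp [h2, h3, e2, e3, -transpose_mul, transpose_smul, Matrix.smul_mul, Matrix.mul_smul]
    ring
  have hi : -(J (Fin 4) R ⊗ₖ diagonal ![1, t' ^ 2 * m'] * (side P (t • (A * P)))ᵀ * J (Fin 8) R) *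
      side P (t • (A * P)) = 1 := by
    have e1 : diagonal ![1, t' ^ 2 * m'] * diagonal ![1, t ^ 2 * (m : R)] = 1 := by
      rw [diagonal_mul_diagonal, ← diagonal_one]
      congr 1
      funext i
      fin_cases i
      · simp
      · simp only [Fin.mk_one, cons_val_one, cons_val_fin_one]
        linear_combination (t * t' + 1) * (m * m') * ht + hm
    rw [Matrix.neg_mul, Matrix.mul_assoc _ _ (J _ _), Matrix.mul_assoc, hf, ← mul_kronecker_mul,
      J_squared, e1, ← neg_one_smul R (1 : Matrix ω ω R), smul_kronecker, one_kronecker_one,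
      neg_one_smul, neg_neg]
  refine ⟨⟨side P (t • (A * P)), _, !![0, -(t * m); t', 0],
    !![n * x, -(n * t * m * y); -(n * y * t'), -(n * x)], diagonal ![1, t ^ 2 * m],
    (mul_eq_one_comm_of_equiv (Fintype.equivOfCardEq (by simp))).1 hi, hi, ?_, ?_, ?_, hf, ?_⟩,
    rfl⟩
  · rw [hA, mul_side, side_mul, Matrix.mul_smul, aa']
    congr 1 <;> simp [smul_smul, mul_comm t', ht]
  · rw [hB, mul_side, side_mul, Matrix.mul_smul, ba', h4, Matrix.mul_sub, Matrix.mul_smul,
      Matrix.mul_smul, aa']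
    congr 1
    · simp only [of_apply, cons_val', cons_val_zero, cons_val_one, cons_val_fin_one]
      match_scalars
      · ring
      · linear_combination (n * y) * ht
    · simp only [of_apply, cons_val', cons_val_zero, cons_val_one, cons_val_fin_one]
      module
  · intro i j
    fin_cases i <;> fin_cases j
    · refine ⟨![h, 0, h * x, h * y], ?_⟩
      ext p q
      fin_cases p <;> fin_cases q <;> simp <;> grind
    · refine ⟨![0, -(t' * m' * h), -(t' * h * y), t' * m' * h * x], ?_⟩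
      ext p q
      fin_cases p <;> fin_cases q <;> simp <;> grind
    · refine ⟨![0, t * h, -(t * h * y * m), t * h * x], ?_⟩
      ext p q
      fin_cases p <;> fin_cases q <;> simp <;> grind
    · refine ⟨![h, 0, -(h * x), -(h * y)], ?_⟩
      ext p q
      fin_cases p <;> fin_cases q <;> simp <;> grind
  · refine IsUnit.of_mul_eq_one (t' ^ 2 * m') ?_
    simp only [det_diagonal, Fin.prod_univ_two, cons_val_zero, cons_val_one, cons_val_fin_one]
    linear_combination (t * t' + 1) * (m * m') * ht + hm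

theorem exists_mor_one (hP : PEL a b m n) (F : Type) [Field F] [CharZero F] {x t : F}
    (hx : x * x = n) (ht : t * t = m) : ∃ s : Mor a b F, s.B = 1 := by
  obtain ⟨V, q, hV⟩ := hP.exists_orth
  have m0 : (m : F) ≠ 0 := Nat.cast_ne_zero.2 hP.m0.ne'
  have n0 : (n : F) ≠ 0 := Nat.cast_ne_zero.2 hP.n0.ne'
  have t0 : t ≠ 0 := left_ne_zero_of_mul (ht ▸ m0)
  have x0 : x ≠ 0 := left_ne_zero_of_mul (hx ▸ n0)
  obtain ⟨s, hs⟩ := exists_mor hP hV F (h := 2⁻¹) (m' := (m : F)⁻¹) (x := x⁻¹) (y := 0) (t := t⁻¹)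
    (t' := t) (r := fun i => (q i : F)⁻¹) (fun i => mul_inv_cancel₀ (Int.cast_ne_zero.2 (hV.ne i)))
    (mul_inv_cancel₀ two_ne_zero) (mul_inv_cancel₀ m0) (inv_mul_cancel₀ t0) (by
      rw [← hx]
      field_simp
      ring)
  refine ⟨s, hs.trans ?_⟩
  rw [← diagonal_one, ← ht]
  congr 1
  funext i
  fin_cases i
  · rfl
  · simp only [Fin.mk_one, cons_val_one, cons_val_fin_one]
    field_simp

/-- (E2). -/
theorem exists_mor_closed (hP : PEL a b m n) (F : Type) [Field F] [IsAlgClosed F] [CharZero F] :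
    ∃ s : Mor a b F, s.B = 1 := by
  obtain ⟨x, hx⟩ := IsAlgClosed.exists_eq_mul_self (n : F)
  obtain ⟨t, ht⟩ := IsAlgClosed.exists_eq_mul_self (m : F)
  exact exists_mor_one hP F hx.symm ht.symm

/-- (E3). -/
theorem exists_mor_real (hP : PEL a b m n) : ∃ s : Mor a b ℝ, s.B = 1 :=
  exists_mor_one hP ℝ (Real.mul_self_sqrt (Nat.cast_nonneg n))
    (Real.mul_self_sqrt (Nat.cast_nonneg m))

theorem padic_unit {l : ℕ} [Fact l.Prime] {z : ℤ_[l]} : IsUnit z ↔ PadicInt.toZMod z ≠ 0 := by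
  rw [Ne, ← RingHom.mem_ker, PadicInt.ker_toZMod, IsLocalRing.mem_maximalIdeal, mem_nonunits_iff,
    not_not]

theorem padic_sqrt {l : ℕ} [Fact l.Prime] (h2 : (2 : ZMod l) ≠ 0) {w : ℤ_[l]} {z : ZMod l}
    (hz : z ≠ 0) (h : z ^ 2 = PadicInt.toZMod w) : ∃ x : ℤ_[l], x ^ 2 = w := by
  obtain ⟨z, rfl⟩ := ZMod.ringHom_surjective (PadicInt.toZMod (p := l)) z
  have h1 : ‖z ^ 2 - w‖ < 1 := by
    rw [← PadicInt.not_isUnit_iff, padic_unit, not_not, map_sub, map_pow, h, sub_self]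
  have h3 : ‖2 * z‖ = 1 := by
    rw [← PadicInt.isUnit_iff, padic_unit, map_mul, map_ofNat]
    exact mul_ne_zero h2 hz
  obtain ⟨x, hx, -⟩ := hensels_lemma (F := Polynomial.X ^ 2 - Polynomial.C w) (a := z) (by
    simpa [h3, one_add_one_eq_two] using h1)
  exact ⟨x, by simpa [sub_eq_zero] using hx⟩

theorem padic_conic {l : ℕ} [Fact l.Prime] (h2 : (2 : ZMod l) ≠ 0) {u v : ℤ_[l]} (hu : IsUnit u)
    (hv : IsUnit v) : ∃ x y : ℤ_[l], x ^ 2 + u * y ^ 2 = v := by
  have hu' := padic_unit.1 hu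
  have hv' := padic_unit.1 hv
  have hl : Fintype.card (ZMod l) % 2 = 1 := by
    rw [ZMod.card]
    refine ((Fact.out : l.Prime).eq_two_or_odd).resolve_left ?_
    rintro rfl
    exact h2 rfl
  obtain ⟨x, y, h⟩ := FiniteField.exists_root_sum_quadratic
    (f := Polynomial.X ^ 2 - Polynomial.C (PadicInt.toZMod v))
    (g := Polynomial.C (PadicInt.toZMod u) * Polynomial.X ^ 2)
    (Polynomial.degree_X_pow_sub_C two_pos _) (Polynomial.degree_C_mul_X_pow 2 hu') hl
  simp only [Polynomial.eval_sub, Polynomial.eval_pow, Polynomial.eval_X, Polynomial.eval_C,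
    Polynomial.eval_mul] at h
  by_cases hx : x = 0
  · obtain ⟨u, rfl⟩ := hu
    have h3 : PadicInt.toZMod (u : ℤ_[l]) * PadicInt.toZMod ((u⁻¹ : ℤ_[l]ˣ) : ℤ_[l]) = 1 := by
      rw [← map_mul, u.mul_inv, map_one]
    obtain ⟨Y, hY⟩ := padic_sqrt h2 (w := (u⁻¹ : ℤ_[l]ˣ) * v) (z := y) (by
      rintro rfl
      exact hv' (by linear_combination -h + x * hx)) (by
      rw [map_mul]
      linear_combination PadicInt.toZMod ((u⁻¹ : ℤ_[l]ˣ) : ℤ_[l]) * (h - x * hx) - y ^ 2 * h3)
    exact ⟨0, Y, by rw [hY, u.mul_inv_cancel_left, zero_pow two_ne_zero, zero_add]⟩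
  · obtain ⟨y, rfl⟩ := ZMod.ringHom_surjective (PadicInt.toZMod (p := l)) y
    obtain ⟨X, hX⟩ := padic_sqrt h2 (w := v - u * y ^ 2) hx (by
      rw [map_sub, map_mul, map_pow]
      linear_combination h)
    exact ⟨X, y, by rw [hX, sub_add_cancel]⟩

/-- (E1). -/
theorem exists_mor_padic (hP : PEL a b m n) :
    ∃ n₀ : ℕ, ∀ (l : ℕ) [Fact l.Prime], n₀ < l → Nonempty (Mor a b ℤ_[l]) := by
  obtain ⟨V, q, hV⟩ := hP.exists_orth
  refine ⟨2 + m + n + ∑ i, (q i).natAbs, fun l _ hl => ?_⟩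
  have hu : ∀ z : ℤ, z ≠ 0 → z.natAbs < l → IsUnit (z : ℤ_[l]) := fun z hz h => by
    rw [padic_unit, map_intCast, Ne, ZMod.intCast_zmod_eq_zero_iff_dvd, Int.natCast_dvd]
    exact fun hd => absurd (Nat.le_of_dvd (Int.natAbs_pos.2 hz) hd) (not_le.2 h)
  have hn : ∀ z : ℕ, 0 < z → z < l → IsUnit (z : ℤ_[l]) := fun z hz h => by
    simpa using hu z (by omega) (by simpa using h)
  have h2 : IsUnit (2 : ℤ_[l]) := by simpa using hn 2 two_pos (by omega)
  obtain ⟨h, hh⟩ := h2.exists_right_inv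
  obtain ⟨m', hm⟩ := (hn m hP.m0 (by omega)).exists_right_inv
  obtain ⟨n', hn'⟩ := (hn n hP.n0 (by omega)).exists_right_inv
  choose r hr using fun i => (hu (q i) (hV.ne i) (by
    have := Finset.single_le_sum (f := fun i => (q i).natAbs) (fun _ _ => Nat.zero_le _)
      (Finset.mem_univ i)
    omega)).exists_right_inv
  obtain ⟨x, y, hxy⟩ := padic_conic (by simpa only [map_ofNat] using padic_unit.1 h2)
    (hn m hP.m0 (by omega)) (IsUnit.of_mul_eq_one_right _ hn')
  obtain ⟨s, -⟩ := exists_mor hP hV ℤ_[l] hr hh hm (mul_one 1) (x := x) (y := y) (hxy ▸ hn')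
  exact ⟨s⟩

theorem PEL.mor_int (h : PEL a b m n) :
    ∃ n₀ : ℕ, ∀ (l : ℕ) [Fact l.Prime], n₀ < l → Nonempty (Mor a b ℤ_[l]) := exists_mor_padic h

theorem PEL.mor_cl (h : PEL a b m n) (F : Type) [Field F] [IsAlgClosed F] [CharZero F] :
    Nonempty (Mor a b F) := (exists_mor_closed h F).nonempty

end M8
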