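import Pool.Agent.Lib.MP_33b3f9_ag.M8.GDefs
import Pool.Agent.Lib.MP_33b3f9_ag.M8.MorEx
import Pool.Agent.Lib.MP_33b3f9_ag.Rx.Main
import Pool.Agent.Lib.MP_33b3f9_ag.M4.FP.Sg

/-!
The chart of the fixed locus.
-/

set_option autoImplicit false

noncomputable section

namespace M8

open Matrix M4
open scoped Kronecker

section kr

variable {α β R : Type} [CommRing R] (e : α × Fin 2 ≃ β)

/-- Two copies of `A`, reindexed by `e`. -/
def kr (A : Matrix α α R) : Matrix β β R :=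
  (A ⊗ₖ (1 : Matrix (Fin 2) (Fin 2) R)).submatrix e.symm e.symm

theorem kr_apply (A : Matrix α α R) (i j : α) (s t : Fin 2) :
    kr e A (e (i, s)) (e (j, t)) = if s = t then A i j else 0 := by
  simp [kr, one_apply]

omit [CommRing R] in
theorem kr_ext {X Y : Matrix β β R}
    (h : ∀ i j s t, X (e (i, s)) (e (j, t)) = Y (e (i, s)) (e (j, t))) : X = Y := by
  ext u v
  obtain ⟨⟨i, s⟩, rfl⟩ := e.surjective u
  obtain ⟨⟨j, t⟩, rfl⟩ := e.surjective v
  exact h i j s t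

theorem kr_map {R' : Type} [CommRing R'] {f : R → R'} (hf : f 0 = 0) (A : Matrix α α R) :
    (kr e A).map f = kr e (A.map f) :=
  kr_ext e fun i j s t => by
    rw [map_apply, kr_apply, kr_apply, apply_ite f, hf, map_apply]

variable [Fintype α] [Fintype β] [DecidableEq α] [DecidableEq β]

/-- The same as a map of algebras. -/
def krL : Matrix α α R →ₐ[R] Matrix β β R :=
  AlgHom.ofLinearMap
    { toFun := kr e
      map_add' := fun A B => by rw [kr, add_kronecker]; rfl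
      map_smul' := fun c A => by rw [kr, smul_kronecker]; rfl }
    (by
      change kr e 1 = 1
      rw [kr, one_kronecker_one, submatrix_one_equiv])
    fun A B => by
      change kr e (A * B) = kr e A * kr e B
      rw [kr, kr, kr, submatrix_mul_equiv, ← mul_kronecker_mul, Matrix.mul_one]

theorem krL_eq (A : Matrix α α R) : krL e A = kr e A := rfl

theorem krL_inv (A : Matrix α α R) : (krL e A)⁻¹ = krL e A⁻¹ := by
  by_cases h : IsUnit A.det
  · exact inv_eq_right_inv (by rw [← map_mul, mul_nonsing_inv _ h, map_one])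
  · rw [nonsing_inv_apply_not_isUnit _ h, map_zero, nonsing_inv_apply_not_isUnit]
    rw [krL_eq, kr, det_submatrix_equiv_self, det_kronecker, det_one, one_pow, mul_one,
      Fintype.card_fin]
    exact fun h' => h ((isUnit_pow_iff two_ne_zero).1 h')

end kr

/-- Eight is four times two. -/
def e8 : Fin 4 × Fin 2 ≃ Fin 8 := finProdFinEquiv

/-- Sixteen is eight times two. -/
def eν : ω × Fin 2 ≃ ν := (Equiv.sumProdDistrib _ _ _).trans (Equiv.sumCongr e8 e8)

theorem eν_inl (i : Fin 4) (s : Fin 2) : eν (.inl i, s) = .inl (e8 (i, s)) := rfl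

theorem eν_inr (i : Fin 4) (s : Fin 2) : eν (.inr i, s) = .inr (e8 (i, s)) := rfl

section

variable {R : Type} [CommRing R]

theorem em0_blocks (A B C D : Matrix (Fin 4) (Fin 4) R) :
    krL eν (fromBlocks A B C D) = fromBlocks (krL e8 A) (krL e8 B) (krL e8 C) (krL e8 D) := by
  refine kr_ext eν fun i j s t => ?_
  rw [krL_eq, kr_apply]
  rcases i with i | i <;> rcases j with j | j <;>
    simp [eν_inl, eν_inr, krL_eq, kr_apply]

theorem em0_J : krL eν (J (Fin 4) R) = J (Fin 8) R := by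
  rw [J, em0_blocks, map_zero, map_neg, map_one, J]

end

theorem inH_bd {z : M4.Mat} (hz : InH z) : InH (kr e8 z) := by
  have h1 : kr e8 z = (dg (Fin 2) z).submatrix e8.symm e8.symm := kr_ext e8 fun i j s t => by
    rw [kr_apply, submatrix_apply, e8.symm_apply_apply, e8.symm_apply_apply, dg,
      blockDiagonal_apply]
  have h2 := inH_dg (ρ := Fin 2) hz
  rw [h1]
  exact ⟨h2.1.submatrix _, h2.2.submatrix e8.symm.injective⟩

theorem cst_bd (z : M4.Mat) : cst (kr e8 z) = krL eν (cst z) := by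
  rw [cst, cst, kr_map e8 Complex.zero_im, kr_map e8 Complex.zero_re, em0_blocks]
  simp only [← krL_eq, krL_inv, map_mul, map_neg, map_add]

theorem eq_bd {τ : Mat} (hτ : InH τ) {A : Matrix ω ω ℝ} (h : cst τ = krL eν A) :
    τ = kr e8 (τ.submatrix (fun i => e8 (i, 0)) fun i => e8 (i, 0)) := by
  have hd : IsUnit (τ.map Complex.im).det := hτ.2.det_pos.ne'.isUnit
  rw [← fromBlocks_toBlocks A, em0_blocks, cst, fromBlocks_inj] at h
  have h1 : τ.map Complex.im = krL e8 A.toBlocks₁₂⁻¹ := by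
    rw [← krL_inv, ← h.2.1, nonsing_inv_nonsing_inv _ hd]
  have h2 : τ.map Complex.re = krL e8 (A.toBlocks₁₂⁻¹ * A.toBlocks₁₁) := by
    rw [map_mul, ← h1, ← h.1, mul_nonsing_inv_cancel_left _ _ hd]
  have h3 : ∀ i j s t, τ (e8 (i, s)) (e8 (j, t)) = if s = t then
      ⟨(A.toBlocks₁₂⁻¹ * A.toBlocks₁₁) i j, A.toBlocks₁₂⁻¹ i j⟩ else 0 := fun i j s t => by
    have k1 := congrFun (congrFun h1 (e8 (i, s))) (e8 (j, t))
    have k2 := congrFun (congrFun h2 (e8 (i, s))) (e8 (j, t))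
    rw [krL_eq, kr_apply, map_apply] at k1 k2
    refine Complex.ext (k2.trans ?_) (k1.trans ?_) <;> split_ifs <;> rfl
  refine kr_ext e8 fun i j s t => ?_
  rw [kr_apply, submatrix_apply, h3, h3, if_pos rfl]

theorem act_eq_of_cst {ι : Type} [Fintype ι] [DecidableEq ι] {g : Matrix (ι ⊕ ι) (ι ⊕ ι) ℝ} {m : ℝ}
    (hg : Sim g m) (hm : 0 < m) {τ τ' : Matrix ι ι ℂ} (hτ : InH τ) (hτ' : InH τ') :
    act g τ = τ' ↔ g * cst τ = cst τ' * g := by
  rw [← cst_act hg hm hτ]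
  refine ⟨fun h => by rw [h], fun h => FP.cst_inj (inH_act hg hm hτ) hτ' ?_⟩
  exact ((isUnit_iff_isUnit_det g).2 (hg.det_ne_zero hm.ne').isUnit).mul_right_cancel h

variable {a b : MZ} {m n : ℕ}

theorem PEL.em_sim (h : PEL a b m n) : Sim (zr a) m ∧ Sim (zr b) n := by
  obtain ⟨h1, h2, -, h4, h5⟩ := h.rel ℝ
  refine ⟨sim_iff.2 ?_, sim_iff.2 ?_⟩
  · change (zM ℝ a)ᵀ * _ * zM ℝ a = _
    rw [h4, Matrix.neg_mul, Matrix.mul_assoc, h1, Matrix.mul_neg, neg_neg, Matrix.mul_smul,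
      Matrix.mul_one]
  · change (zM ℝ b)ᵀ * _ * zM ℝ b = _
    rw [h5, Matrix.mul_assoc, h2, Matrix.mul_smul, Matrix.mul_one]

theorem PEL.em_fx (h : PEL a b m n) {τ : Mat} (hτ : InH τ) :
    τ ∈ FX a b ↔ Commute (zM ℝ a) (cst τ) ∧ Commute (zM ℝ b) (cst τ) := by
  rw [FX, Set.mem_ofPred_eq, act_eq_of_cst h.em_sim.1 (Nat.cast_pos.2 h.m0) hτ hτ,
    act_eq_of_cst h.em_sim.2 (Nat.cast_pos.2 h.n0) hτ hτ, and_iff_right hτ]
  rfl

namespace Mor

variable (s : Mor a b ℝ)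

/-- The splitting as a square matrix. -/
def S0 : Matrix ν ν ℝ := s.S.submatrix id eν.symm

theorem S0_mul (g : Matrix ω ω ℝ) : s.S0 * krL eν g = s.em g * s.S0 := by
  have h : s.em g * s.S = s.S * (g ⊗ₖ (1 : Matrix (Fin 2) (Fin 2) ℝ)) := by
    rw [em_apply, Matrix.mul_assoc, s.inv', Matrix.mul_one]
  rw [S0, krL_eq, kr, submatrix_mul_equiv, ← h]
  rfl

theorem S0_sim (hB : s.B = 1) : Sim s.S0 1 := by
  have h : s.S0ᵀ * J (Fin 8) ℝ * s.S0 = (s.Sᵀ * J (Fin 8) ℝ * s.S).submatrix eν.symm eν.symm := rfl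
  rw [M4.sim_iff, h, s.form, hB, one_smul, ← em0_J]
  rfl

theorem cst_ch (hB : s.B = 1) {z : M4.Mat} (hz : InH z) :
    cst (act s.S0 (kr e8 z)) = s.em (cst z) := by
  refine ((isUnit_iff_isUnit_det _).2 ((s.S0_sim hB).det_ne_zero one_ne_zero).isUnit).mul_right_cancel
    ?_
  rw [cst_act (s.S0_sim hB) one_pos (inH_bd hz), cst_bd, S0_mul]

end Mor

theorem PEL.ch (h : PEL a b m n) : Nonempty (Ch a b) := by
  obtain ⟨s, hB⟩ := exists_mor_real h
  have hS := s.S0_sim hB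
  have hS' := hS.inv one_ne_zero
  rw [inv_one] at hS'
  have hd := (hS.det_ne_zero one_ne_zero).isUnit
  have hH : ∀ z, InH z → InH (act s.S0 (kr e8 z)) := fun z hz => inH_act hS one_pos (inH_bd hz)
  have mem : ∀ z, InH z → act s.S0 (kr e8 z) ∈ FX a b := fun z hz => by
    rw [h.em_fx (hH z hz), s.cst_ch hB hz]
    exact ⟨s.comm_a _, s.comm_b _⟩
  have sur : ∀ τ ∈ FX a b, ∃ z, InH z ∧ act s.S0 (kr e8 z) = τ := fun τ hτ => by
    obtain ⟨h1, h2⟩ := (h.em_fx hτ.1).1 hτ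
    have h3 := inH_act hS' one_pos hτ.1
    have h4 : cst (act s.S0⁻¹ τ) = krL eν (s.pr (cst τ)) := by
      rw [← nonsing_inv_mul_cancel_left _ (krL eν _) hd, s.S0_mul, s.em_pr h1 h2,
        ← Matrix.mul_assoc, ← cst_act hS' one_pos hτ.1, nonsing_inv_mul_cancel_right _ _ hd]
    have hj : Function.Injective fun i : Fin 4 => e8 (i, 0) := fun i j e =>
      (Prod.ext_iff.1 (e8.injective e)).1
    refine ⟨_, ⟨h3.1.submatrix _, h3.2.submatrix hj⟩, ?_⟩
    rw [← eq_bd h3 h4, ← Mo.act_mul hS one_pos hS' one_pos hτ.1, mul_nonsing_inv _ hd, act_one]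
  have hb : Differentiable ℂ fun (t : Sy) (i j : Fin 8) => kr e8 (mat t) i j := by
    refine differentiable_pi.2 fun p => differentiable_pi.2 fun q => ?_
    obtain ⟨⟨i, u⟩, rfl⟩ := e8.surjective p
    obtain ⟨⟨j, v⟩, rfl⟩ := e8.surjective q
    simp only [kr_apply, mat, of_apply]
    split_ifs <;> fun_prop
  refine ⟨⟨s, fun z => act s.S0 (kr e8 z),
    fun τ => sco fun i j => act s.S0⁻¹ τ (e8 (i, 0)) (e8 (j, 0)), mem, sur,
    fun z hz => s.cst_ch hB hz, fun g μ z hg hμ hz => ?_, fun t ht => ?_, fun τ hτ => ?_,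
    fun t ht => ?_, ?_⟩⟩
  · have hg' : Sim (s.em g) μ := sim_iff.2 ((s.sim_iff g μ).2 (sim_iff.1 hg))
    rw [act_eq_of_cst hg' hμ (hH z hz) (hH _ (inH_act hg hμ hz)), s.cst_ch hB hz,
      s.cst_ch hB (inH_act hg hμ hz), ← map_mul, ← map_mul, cst_act hg hμ hz]
  · have h1 : DifferentiableAt ℂ (fun (σ : Fin 8 → Fin 8 → ℂ) i j => act s.S0 σ i j)
        (kr e8 (mat t)) := Mo.differentiableAt_act hS one_pos (inH_bd ht)
    exact (h1.comp t (hb t)).differentiableWithinAt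
  · have h1 : DifferentiableAt ℂ (fun (σ : Fin 8 → Fin 8 → ℂ) i j => act s.S0⁻¹ σ i j) τ :=
      Mo.differentiableAt_act hS' one_pos hτ
    refine differentiableAt_pi.2 fun p => ?_
    induction p using Sym2.ind with
    | _ i j =>
      change DifferentiableAt ℂ (fun τ : Fin 8 → Fin 8 → ℂ => (act s.S0⁻¹ τ (e8 (i, 0)) (e8 (j, 0)) +
        act s.S0⁻¹ τ (e8 (j, 0)) (e8 (i, 0))) / 2) τ
      simp only [div_eq_mul_inv]
      exact ((differentiableAt_pi.1 (differentiableAt_pi.1 h1 _) _).fun_add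
        (differentiableAt_pi.1 (differentiableAt_pi.1 h1 _) _)).mul_const _
  · rw [← Mo.act_mul hS' one_pos hS one_pos (inH_bd ht), nonsing_inv_mul _ hd, act_one]
    simp only [kr_apply, if_true]
    exact Mo.sco_smat t
  · have e : Rx.Fx ![a, b] = Set.range fun z : HH (Fin 4) =>
        (⟨act s.S0 (kr e8 z.1), (mem z.1 z.2).1⟩ : HH (Fin 8)) := by
      ext τ
      refine ⟨fun hτ => ?_, ?_⟩
      · obtain ⟨z, hz, e⟩ := sur τ.1 ⟨τ.2, hτ 0, hτ 1⟩
        exact ⟨⟨z, hz⟩, Subtype.ext e⟩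
      · rintro ⟨z, rfl⟩
        exact Fin.forall_fin_two.2 (mem z.1 z.2).2
    rw [e]
    exact Rx.chart_blk e8 (B := kr e8) (fun z p q => kr_apply e8 z p.1 q.1 p.2 q.2) hS one_pos
      fun _ => rfl

end M8
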