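import Pool.Agent.Lib.MP_33b3f9_ag.M8.IDefs
import Pool.Agent.Lib.MP_33b3f9_ag.Rx.Defs
import Pool.Agent.Lib.MP_33b3f9_ag.M4.FP.Defs
import Pool.Agent.Lib.MP_33b3f9_ag.M8.E3.Fix

/-!
The geometric half: definitions, and the statements that cross block borders.
-/

set_option autoImplicit false

noncomputable section

namespace M8

open M4 Matrix Filter Topology Pool.Agent.Lib.MP_33b3f9_ag

/-- A chart of the fixed locus of `a` and `b` by the Siegel space of degree four. -/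
structure Ch (a b : MZ) where
  /-- the real splitting -/
  s : Mor a b ℝ
  /-- the chart -/
  f : M4.Mat → Mat
  /-- a left inverse -/
  L : (Fin 8 → Fin 8 → ℂ) → Sy
  mem : ∀ z, InH z → f z ∈ FX a b
  sur : ∀ τ ∈ FX a b, ∃ z, InH z ∧ f z = τ
  cs : ∀ z, InH z → cst (f z) = s.em (cst z)
  eqv : ∀ (g : Matrix ω ω ℝ) (μ : ℝ) (z : M4.Mat), Sim g μ → 0 < μ → InH z →
    act (s.em g) (f z) = f (act g z)
  hol : DifferentiableOn ℂ (fun (t : Sy) (i j : Fin 8) => f (mat t) i j) {t | InH (mat t)}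
  holL : ∀ τ : Fin 8 → Fin 8 → ℂ, InH τ → DifferentiableAt ℂ L τ
  inv : ∀ t, InH (mat t) → L (f (mat t)) = t
  rx : Rx.Chart (Rx.Fx ![a, b]) fun z : HH (Fin 4) => (⟨f z.1, (mem z.1 z.2).1⟩ : HH (Fin 8))

variable {a b : MZ}

/-- The chart as a map of Siegel spaces. -/
def Ch.h (c : Ch a b) (z : HH (Fin 4)) : HH (Fin 8) := ⟨c.f z.1, (c.mem z.1 z.2).1⟩

/-- The projection of the theta null point to `ℂ^11`. -/
def lin (y : Matrix (Fin 11) Bits ℂ) (τ : Mat) : Fin 11 → ℂ := y *ᵥ th2 τ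

/-- The projected theta null point of `g z`. -/
def Thy (c : Ch a b) (y : Matrix (Fin 11) Bits ℂ) (g : MZ) (z : Sy) : Fin 11 → ℂ :=
  lin y (act (zr g) (c.f (mat z)))

/-- A finite projection of the fixed locus: every theta constant is integral over the `11` forms,
and these are algebraically independent. -/
def FinProj (a b : MZ) (y : Matrix (Fin 11) Bits ℂ) : Prop :=
  (∀ ε : Bits, ∃ (d : ℕ) (c : ℕ → MvPolynomial (Fin 11) ℂ),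
    (∀ e < d, (c e).IsHomogeneous (d - e)) ∧ ∀ τ ∈ FX a b,
      th2 τ ε ^ d + ∑ e ∈ Finset.range d, MvPolynomial.eval (lin y τ) (c e) * th2 τ ε ^ e = 0) ∧
  ∀ (n : ℕ) (φ : MvPolynomial (Fin 11) ℂ), φ.IsHomogeneous n →
    (∀ τ ∈ FX a b, MvPolynomial.eval (lin y τ) φ = 0) → φ = 0

/-- The projection is etale at all points `g z`. -/
def EtProj (c : Ch a b) (y : Matrix (Fin 11) Bits ℂ) (z : Sy) : Prop :=
  ∀ (g : MZ) (m : ℕ), 0 < m → Sim (zr g) m → AnalyticAt ℂ (Thy c y g) z ∧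
    Function.Injective fun q : ℂ × Sy => q.1 • Thy c y g z + fderiv ℂ (Thy c y g) z q.2

/-- B5: a good projection exists. -/
def PROJst (c : Ch a b) : Prop := ∀ z : Sy, InH (mat z) → ∃ y, FinProj a b y ∧ EtProj c y z

/-- B5: Hecke norms. -/
def HNst (c : Ch a b) (y : Matrix (Fin 11) Bits ℂ) : Prop :=
  ∃ e₁ : ℕ, ∀ Y : ℕ, 2 ≤ Y → ∃ D : ℕ, D ≤ Y ^ e₁ ∧
    ∀ (n : ℕ) (φ : MvPolynomial (Fin 11) ℂ), φ.IsHomogeneous n →
      ∃ q : ℕ → MvPolynomial (Fin 11) ℂ, (∀ e, ∃ d ≤ D * n, (q e).IsHomogeneous d) ∧ q D = 1 ∧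
        ∀ (m : ℕ) (h : MZ), m ≤ Y ^ 2 → m ≡ 1 [MOD 32] → Lev h → Sim (zr h) m →
          ∃ ρ : Mat → ℂ, (∀ (z : Sy) (g : MZ) (k : ℕ), InH (mat z) → 0 < k → Sim (zr g) k →
              ContinuousAt (fun t => ρ (act (zr g) (c.f (mat t)))) z) ∧
            ∀ τ ∈ FX a b, (ρ τ = 0 ↔ MvPolynomial.eval (lin y (act (zr h) τ)) φ = 0) ∧
              ∑ e ∈ Finset.range (D + 1), MvPolynomial.eval (lin y τ) (q e) * ρ τ ^ e = 0

/-- B5: the fibres of the projection lie in finitely many orbits of the group of level eight. -/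
def FIBst (a b : MZ) (y : Matrix (Fin 11) Bits ℂ) : Prop :=
  ∃ C₀ : ℕ, ∀ v : Fin 11 → ℂ, ∃ T : Finset Mat, T.card ≤ C₀ ∧ (∀ t ∈ T, InH t) ∧
    ∀ τ ∈ FX a b, (∃ c : ℂ, lin y τ = c • v) → ∃ t ∈ T, ∃ γ : MZ, Sim (zr γ) 1 ∧
      (∀ i j, (8 : ℤ) ∣ (γ - 1) i j) ∧ τ = act (zr γ) t

/-- B5: the invariants of level `32` on the fixed locus are generated by the functions `gg i` over
the polynomials in the `11` linear forms. -/
def Gen (c : Ch a b) (y : Matrix (Fin 11) Bits ℂ) {N0 : ℕ} (kk : Fin N0 → ℕ)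
    (gg : Fin N0 → HH (Fin 4) → ℂ) : Prop :=
  ∀ k, ∀ f ∈ Rx.MIX ![a, b] c.h {γ | Lv 32 γ} k, ∃ q : Fin N0 → MvPolynomial (Fin 11) ℂ,
    (∀ i, q i = 0 ∨ (kk i ≤ k ∧ (q i).IsHomogeneous (8 * (k - kk i)))) ∧
      ∀ z : HH (Fin 4), f z = ∑ i, MvPolynomial.eval (lin y (c.f z.1)) (q i) * gg i z

/-- B5: finite generation. -/
def FINst (c : Ch a b) (y : Matrix (Fin 11) Bits ℂ) : Prop :=
  ∃ (N0 : ℕ) (kk : Fin N0 → ℕ) (gg : Fin N0 → HH (Fin 4) → ℂ), Gen c y kk gg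

/-- `G` commutes with `a` and `b`, and its adjoint action is irreducible. -/
def IRR (a b : MZ) (G : Subgroup (symplecticGroup (Fin 8) ℤ)) : Prop :=
  (∀ g ∈ G, Com a b g.1) ∧
    E3.Irr ((fun g : symplecticGroup (Fin 8) ℤ => zr g.1) '' G) (E3.gC {zr a, zr b})

/-- B6: monodromy. -/
def MONOst (c : Ch a b) (y : Matrix (Fin 11) Bits ℂ) (z : Sy) : Prop :=
  ∀ (g : MZ) (M : ℕ), Isg a b g M → ∀ (d : ℕ) (v : (Fin d → ℂ) → Sy)
    (P : Ideal (MvPolynomial (Fin 11) ℂ)), 1 ≤ d → AnalyticAt ℂ v 0 → v 0 = z →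
    Function.Injective (fderiv ℂ v 0) → P.IsPrime → Z.Hom P → Z.dm ℂ P = d + 1 →
    Z.Cuts z (Thy c y g) (Filter.map v (𝓝 0)) P →
    ∃ G : Subgroup (symplecticGroup (Fin 8) ℤ), IRR a b G ∧ (∀ γ ∈ G, Lv 8 γ.1) ∧
      ∀ γ ∈ G, ∀ F : (Fin 8 → Fin 8 → ℂ) → ℂ, DifferentiableOn ℂ F (PosIm (Fin 8)) →
        (∀ᶠ s in 𝓝 0, F (act (zr g) (c.f (mat (v s)))) = 0) →
        ∀ᶠ s in 𝓝 0, F (FP.az γ (act (zr g) (c.f (mat (v s))))) = 0

/-- B6 + B7: the counting lemma. -/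
def CLst (c : Ch a b) (y : Matrix (Fin 11) Bits ℂ) (z : Sy) : Prop :=
  ∃ C₀ : ℕ, ∀ (α : Type) (X : Finset α) (g : α → MZ) (M : α → ℕ),
    (∀ ξ ∈ X, Isg a b (g ξ) (M ξ)) →
    (∀ ξ ∈ X, ∀ ξ' ∈ X, ∀ t : ℂ, Thy c y (g ξ') z = t • Thy c y (g ξ) z → ξ = ξ') →
    ∀ (d : ℕ) (v : (Fin d → ℂ) → Sy) (P : Ideal (MvPolynomial (Fin 11) ℂ)) (del e : ℕ),
      1 ≤ d → d < 10 → AnalyticAt ℂ v 0 → v 0 = z → Function.Injective (fderiv ℂ v 0) →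
      P.IsPrime → Z.Hom P → Z.dm ℂ P = d + 1 → (∀ μ, Z.HF P μ ≤ del * (μ + e + d).choose d) →
      (∀ ξ ∈ X, Z.Cuts z (Thy c y (g ξ)) (Filter.map v (𝓝 0)) P) → X.card ≤ C₀ * del

end M8
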