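import Mathlib
import Pool.Agent.Lib.MP_33b3f9_ag.M8.GDefs
import Pool.Agent.Lib.MP_33b3f9_ag.M8.Tr
import Pool.Agent.Lib.MP_33b3f9_ag.Rx.Main
import Pool.Agent.Lib.MP_33b3f9_ag.M4.MFInt
import Pool.Agent.Lib.MP_33b3f9_ag.M4.MFGen
import Pool.Agent.Lib.MP_33b3f9_ag.M4.GrC

/-!
Rings of invariant forms are finite over the polynomial ring of the projection.
-/

set_option autoImplicit false

namespace M8

open M4 Complex Matrix Polynomial

variable {a b : MZ} {m n : ℕ} {y : Matrix (Fin 11) Bits ℂ}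

/-- The coordinates of the projection as functions on the Siegel space. -/
noncomputable def yH (y : Matrix (Fin 11) Bits ℂ) (i : Fin 11) : HH (Fin 8) → ℂ :=
  fun τ => lin y τ.1 i

theorem aeval_yH (φ : MvPolynomial (Fin 11) ℂ) (τ : HH (Fin 8)) :
    MvPolynomial.aeval (yH y) φ τ = MvPolynomial.eval (lin y τ.1) φ := by
  induction φ using MvPolynomial.induction_on with
  | C a => simp
  | add p q hp hq => rw [map_add, map_add, Pi.add_apply, hp, hq]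
  | mul_X p i hp =>
    rw [map_mul, map_mul, Pi.mul_apply, hp, MvPolynomial.aeval_X, MvPolynomial.eval_X]
    rfl

theorem yH_mem (i : Fin 11) : yH y i ∈ Submodule.span ℂ (Set.range (t2 (ι := Fin 8))) := by
  have h : yH y i = ∑ e, y i e • t2 e := by
    funext τ
    rw [Finset.sum_apply]
    rfl
  rw [h]
  exact Submodule.sum_mem _ fun e _ => Submodule.smul_mem _ _ (Submodule.subset_span ⟨e, rfl⟩)

/-- A form of degree `n` in the `yH y i` is in the `n`-th power of the span of the `t2 e`. -/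
theorem aeval_yH_mem {n : ℕ} {φ : MvPolynomial (Fin 11) ℂ} (hφ : φ.IsHomogeneous n) :
    MvPolynomial.aeval (yH y) φ ∈ Submodule.span ℂ (Set.range (t2 (ι := Fin 8))) ^ n := by
  have hW : Gr.MulFam fun k => Submodule.span ℂ (Set.range (t2 (ι := Fin 8))) ^ k :=
    ⟨by rw [pow_zero]; exact Submodule.one_le.1 le_rfl, fun hf hg => by
      rw [pow_add]; exact Submodule.mul_mem_mul hf hg⟩
  have h := (Gr.mem_rees hW).1 (Gr.Ya_mem_rees hW (y := yH y)
    (fun i => by rw [pow_one]; exact yH_mem i) φ) n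
  rwa [Gr.Ya_hom _ hφ, coeff_monomial, if_pos rfl] at h

/-- The pull back of functions by the chart. -/
noncomputable def Ch.pb (c : Ch a b) : (HH (Fin 8) → ℂ) →ₐ[ℂ] (HH (Fin 4) → ℂ) :=
  AlgHom.pi fun z => Pi.evalAlgHom ℂ _ (c.h z)

theorem Ch.pb_apply (c : Ch a b) (f : HH (Fin 8) → ℂ) (z : HH (Fin 4)) : c.pb f z = f (c.h z) := rfl

theorem Ch.h_mem (c : Ch a b) (z : HH (Fin 4)) : (c.h z).1 ∈ FX a b := c.mem z.1 z.2

theorem Ch.h_sur (c : Ch a b) {τ : Mat} (hτ : τ ∈ FX a b) : ∃ z, (c.h z).1 = τ := by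
  obtain ⟨z, hz, e⟩ := c.sur τ hτ
  exact ⟨⟨z, hz⟩, e⟩

theorem Ch.aeval_pb (c : Ch a b) {σ : Type} (t : σ → HH (Fin 8) → ℂ) (φ : MvPolynomial σ ℂ) :
    MvPolynomial.aeval (fun i => c.pb (t i)) φ = c.pb (MvPolynomial.aeval t φ) := by
  rw [← AlgHom.comp_apply, MvPolynomial.comp_aeval]

theorem Ch.mul_eq_zero (c : Ch a b) {k l : ℕ} {f g : HH (Fin 8) → ℂ} (hf : f ∈ MF (Fin 8) k)
    (hg : g ∈ MF (Fin 8) l) (h : c.pb f * c.pb g = 0) : c.pb f = 0 ∨ c.pb g = 0 :=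
  (Rx.MIX.mul_eq_zero c.rx hf hg (congrFun h)).imp funext funext

/-- The dimension bound on the fixed locus. -/
theorem PEL.dim (hP : PEL a b m n) (c : Ch a b) : ∃ C : ℕ, ∀ q k : ℕ, q ≠ 0 →
    Module.Finite ℂ (Rx.MIX ![a, b] c.h {γ | Lv q γ} k) ∧
      Module.finrank ℂ (Rx.MIX ![a, b] c.h {γ | Lv q γ} k) ≤ C * q ^ 256 * (k + 1) ^ 10 := by
  obtain ⟨C, hC⟩ := Rx.dim_MIX (a := ![a, b]) (m := ![m, n])
    (Fin.forall_fin_two.2 ⟨Nat.cast_pos.2 hP.m0, Nat.cast_pos.2 hP.n0⟩)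
    (Fin.forall_fin_two.2 ⟨hP.sim_a, hP.sim_b⟩) c.rx
  have hs : Fintype.card (Sym2 (Fin 4)) = 10 := by
    rw [Sym2.card, Fintype.card_fin]
    rfl
  rw [hs, Fintype.card_fin] at hC
  exact ⟨C, fun q k hq => ⟨(hC q k hq).1, (hC q k hq).2.trans (le_of_eq (by ring))⟩⟩

theorem intY_map {R R' σ : Type} [CommRing R] [Algebra ℂ R] [CommRing R'] [Algebra ℂ R']
    (φ : R →ₐ[ℂ] R') {t : σ → R} {k : ℕ} {f : R} (h : Gr.IntY t (monomial k f)) :
    Gr.IntY (fun i => φ (t i)) (monomial k (φ f)) := by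
  obtain ⟨d, q, h1, h2⟩ := Gr.intY_iff.1 h
  refine Gr.intY_iff.2 ⟨d, q, h1, ?_⟩
  have h3 := congrArg φ h2
  rw [map_add, map_sum, map_zero, map_pow] at h3
  refine Eq.trans (congrArg _ (Finset.sum_congr rfl fun e _ => ?_)) h3
  rw [map_mul, map_pow, ← AlgHom.comp_apply, MvPolynomial.comp_aeval]

theorem FinProj.intY (hy : FinProj a b y) (c : Ch a b) (e : Bits) :
    Gr.IntY (fun i => c.pb (yH y i)) (monomial 1 (c.pb (t2 e))) := by
  obtain ⟨d, q, h1, h2⟩ := hy.1 e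
  refine Gr.intY_iff.2 ⟨d, q, fun k hk => by rw [one_mul]; exact h1 k hk, ?_⟩
  funext z
  simp only [Pi.add_apply, Pi.pow_apply, Finset.sum_apply, Pi.mul_apply, c.aeval_pb, c.pb_apply,
    aeval_yH]
  exact h2 _ (c.h_mem z)

theorem FinProj.intY_eight (hy : FinProj a b y) (c : Ch a b) {k : ℕ} {f : HH (Fin 8) → ℂ}
    (hf : f ∈ MF (Fin 8) (8 * k)) :
    Gr.IntY (fun i => c.pb (yH y i) ^ 8) (monomial k (c.pb f)) := by
  refine Gr.IntY.of_expand (by norm_num) ?_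
  rw [expand_monomial, mul_comm]
  exact Gr.IntY.trans (hy.intY c) (intY_map c.pb (Gr.intY_pow tq_int hf))

end M8
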