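import Pool.Agent.Lib.MP_33b3f9_ag.M8.IDefA

/-!
Definitions shared by the blocks: families of lattices.
-/

set_option autoImplicit false

noncomputable section

namespace M8

open Matrix Filter Topology M4 Pool.Agent.M4.Det Pool.Agent.Lib.MP_33b3f9_ag

/-- `g` commutes with `a` and `b`. -/
def Com (a b g : MZ) : Prop := g * a = a * g ∧ g * b = b * g

/-- A similitude of level `32` with odd multiplier that commutes with `a` and `b`. -/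
def Isg (a b g : MZ) (M : ℕ) : Prop := Odd M ∧ Lev g ∧ Sim (zr g) M ∧ Com a b g

/-- A similitude with admissible multiplier whose kernel is stable under `a` and `b`. -/
def Ist (a b g : MZ) (M : ℕ) : Prop :=
  Iso g M ∧ (∃ a' : MZ, g * a = a' * g) ∧ ∃ b' : MZ, g * b = b' * g

/-- The points of the Siegel space that are fixed by `a` and `b`. -/
def FX (a b : MZ) : Set Mat := {τ | InH τ ∧ act (zr a) τ = τ ∧ act (zr b) τ = τ}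

/-- The lattices of the family are pairwise not homothetic. -/
def Sep {α : Type} (X : Finset α) (g : α → MZ) : Prop :=
  ∀ ξ ∈ X, ∀ ξ' ∈ X, ∀ γ : MZ, Sim (zr γ) 1 → ∀ c c' : ℤ, c ≠ 0 → c • g ξ' = c' • (γ * g ξ) →
    ξ = ξ'

/-- B6: two points of the family in one orbit of the level group come from homothetic
lattices. -/
def STABst (a b : MZ) (τ : Mat) : Prop :=
  ∀ (g g' δ : MZ) (M M' : ℕ), Isg a b g M → Isg a b g' M' → Sim (zr δ) 1 →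
    (∀ i j, (8 : ℤ) ∣ (δ - 1) i j) → act (zr (δ * g)) τ = act (zr g') τ →
    ∃ c c' : ℤ, c ≠ 0 ∧ c • g' = c' • (δ * g)

/-- A family of lattices indexed by tuples. -/
structure Fam (Q : MZ → ℕ → Prop) (Y : ℕ) {s : ℕ} {Om : Fin s → Type} (X : Finset (∀ i, Om i))
    (g : (∀ i, Om i) → MZ) (M : (∀ i, Om i) → ℕ) : Prop where
  iso : ∀ ξ ∈ X, Q (g ξ) (M ξ)
  sep : Sep X g
  nb : ∀ ξ ∈ X, ∀ ξ' ∈ X, (∃ i, ∀ j, j ≠ i → ξ j = ξ' j) → ∃ (l m : ℕ) (h : MZ), 0 < l ∧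
    m ≤ Y ^ 2 ∧ m ≡ 1 [MOD 32] ∧ Lev h ∧ Sim (zr h) m ∧ (l : ℤ) • g ξ' = h * g ξ

/-- B8: the zero estimate for families of lattices. -/
def GEOst (Q : MZ → ℕ → Prop) (τ : Mat) : Prop :=
  ∃ e₀ : ℕ, ∀ (Y s : ℕ) (Om : Fin s → Type) [∀ i, Fintype (Om i)] (X : Finset (∀ i, Om i))
    (g : (∀ i, Om i) → MZ) (M : (∀ i, Om i) → ℕ) (N k₀ k₁ H₀ L th : ℕ), 2 ≤ Y →
    Fam Q Y X g M →
    0 < N → (∀ i, N ≤ Fintype.card (Om i)) →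
    (∀ μ ≤ k₁, hil (fun ξ : X => th2 (act (zr (g ξ)) τ)) μ ≤ H₀) →
    1 ≤ k₀ → H₀ < (k₀ + 10).choose 10 → H₀ < 2 ^ L → k₀ * Y ^ e₀ ≤ k₁ →
    ((L + 1) * Y) ^ e₀ * H₀ < th ^ s →
    X.card * N ≤ 10 * s * th * ∏ i, Fintype.card (Om i) + N * (((L + 1) * Y) ^ e₀ * H₀)

/-- B9: the output of the arithmetic half. -/
def ARITHst (Q : MZ → ℕ → Prop) (τ : Mat) : Prop :=
  ∀ s₀ : ℕ, ∃ s : ℕ, s₀ ≤ s ∧ ∃ δ : ℝ, 0 < δ ∧ ∀ Y₀ : ℕ, ∃ Y : ℕ, Y₀ ≤ Y ∧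
    ∃ (Om : Fin s → Type) (_ : ∀ i, Fintype (Om i)) (X : Finset (∀ i, Om i))
      (g : (∀ i, Om i) → MZ) (M : (∀ i, Om i) → ℕ) (N : ℕ), Fam Q (2 * Y) X g M ∧
      (Y : ℝ) ^ (198 / 100 : ℝ) ≤ N ∧ (∀ i, N ≤ Fintype.card (Om i)) ∧
      δ * ∏ i, (Fintype.card (Om i) : ℝ) ≤ X.card ∧
      ∀ μ : ℕ, (μ : ℝ) ≤ (Y : ℝ) ^ (s / 5 : ℝ) →
        (hil (fun ξ : X => th2 (act (zr (g ξ)) τ)) μ : ℝ) ≤ (Y : ℝ) ^ (19 / 10 * s : ℝ)

end M8
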