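import Pool.Agent.Lib.MP_33b3f9_ag.M8.IDefA
import Pool.Agent.Lib.MP_33b3f9_ag.M4.KzLag

/-!
Block B1b: similitudes with prescribed kernels, interface form.
-/

set_option autoImplicit false

namespace M8.Kz

open Matrix M4 M4.Kz

/-- The image of a subgroup modulo `l`. -/
def kzfinlSub (l : ℕ) (G : AddSubgroup (ν → ℤ)) : Submodule (ZMod l) (ν → ZMod l) where
  carrier := {a | ∃ x ∈ G, vZ l x = a}
  zero_mem' := ⟨0, G.zero_mem, by funext i; simp [vZ]⟩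
  add_mem' := by
    rintro _ _ ⟨x, hx, rfl⟩ ⟨y, hy, rfl⟩
    exact ⟨x + y, G.add_mem hx hy, vZ_add l x y⟩
  smul_mem' := by
    rintro c _ ⟨x, hx, rfl⟩
    obtain ⟨n, rfl⟩ := ZMod.intCast_surjective c
    exact ⟨n • x, G.zsmul_mem hx n, by rw [vZ_zsmul, Int.cast_smul_eq_zsmul]⟩

theorem kzfinl_mem {l : ℕ} {G : AddSubgroup (ν → ℤ)} (hG : M8.Lag l G) (x : ν → ℤ) :
    vZ l x ∈ kzfinlSub l G ↔ x ∈ G := by
  refine ⟨?_, fun hx => ⟨x, hx, rfl⟩⟩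
  rintro ⟨y, hy, e⟩
  obtain ⟨n, rfl⟩ := (vZ_eq_iff l x y).1 e.symm
  refine G.add_mem hy ((hG _).2 fun z _ => ?_)
  rw [mulVec_smul, dotProduct_smul, smul_eq_mul]
  exact dvd_mul_right _ _

theorem kzfinl_Ef (l : ℕ) (x y : ν → ℤ) :
    Ef (vZ l x) (vZ l y) = 0 ↔ (l : ℤ) ∣ y ⬝ᵥ Matrix.J (Fin 8) ℤ *ᵥ x := by
  rw [Ef_vZ, ZMod.intCast_zmod_eq_zero_iff_dvd, Ef_swap, Ef_eq_J, neg_neg]

theorem kzfinl_lag {l : ℕ} {G : AddSubgroup (ν → ℤ)} (hG : M8.Lag l G) :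
    M4.Kz.Lag (kzfinlSub l G) := by
  intro a
  obtain ⟨x, rfl⟩ : ∃ x, vZ l x = a := by
    choose x hx using fun i => ZMod.intCast_surjective (a i)
    exact ⟨x, funext hx⟩
  rw [kzfinl_mem hG, hG x]
  constructor
  · rintro H _ ⟨y, hy, rfl⟩
    exact (kzfinl_Ef l x y).2 (H y hy)
  · intro H y hy
    exact (kzfinl_Ef l x y).1 (H _ ⟨y, hy, rfl⟩)

/-- `exists_sim` with `Q = 32` for the submodules `{a | ∃ x ∈ G l, vZ l x = a}` (a subgroup with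
`M8.Lag l` contains `l ℤ^16`; `Ef_eq_J`, `Ef_vZ`, `Ef_swap`); `zr = mR`, `Lev = One 32`,
`SimR.sim`, `Finset.squarefree_prod_of_pairwise_isCoprime`. -/
theorem lagr : LAGRst := by
  intro S G hS
  obtain ⟨g, g1, g2, g3⟩ := exists_sim S (fun l hl => (hS l hl).1) 32 (fun l hl => (hS l hl).2.1)
    (fun l => kzfinlSub l (G l)) fun l hl => kzfinl_lag (hS l hl).2.2
  refine ⟨g, ⟨⟨?_, fun l hl hd => ?_⟩, g2, ?_⟩, fun l hl => ?_⟩
  · refine Finset.squarefree_prod_of_pairwise_isCoprime (fun a ha b hb hab => ?_)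
      fun l hl => (hS l hl).1.prime.squarefree
    exact Nat.coprime_iff_isRelPrime.1 ((Nat.coprime_primes (hS a ha).1 (hS b hb).1).2 hab)
  · obtain ⟨q, hq, hlq⟩ := (hl.prime.dvd_finsetProd_iff _).1 hd
    rw [(Nat.prime_dvd_prime_iff_eq hl (hS q hq).1).1 hlq]
    exact (hS q hq).2.1
  · have h := g1.sim
    rwa [Int.cast_natCast] at h
  · ext x
    rw [← kzfinl_mem (hS l hl).2.2, g3 l hl, mZ_mulVec, funext_iff]
    exact forall_congr' fun i => (ZMod.intCast_zmod_eq_zero_iff_dvd _ l).symm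

end M8.Kz
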