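import Pool.Agent.Lib.MP_33b3f9_ag.M8.GDefs
import Pool.Agent.Lib.MP_33b3f9_ag.M4.ModFib

/-!
The fibres of a finite projection are finite unions of orbits.
-/

set_option autoImplicit false

namespace M8

open M4 Complex Matrix

namespace Mo

open M4.Mo

variable {ι : Type} [Fintype ι] [DecidableEq ι]

/-- At most `4 ^ (4 ^ (2 g))` orbits have a given theta null point of level two. -/
theorem fib_two (w : (ι ⊕ ι → Fin 2) → ℂ) : ∃ T : Finset (Matrix ι ι ℂ),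
    T.card ≤ 4 ^ Fintype.card (ι ⊕ ι → Fin 4) ∧ (∀ t ∈ T, InH t) ∧
      ∀ τ, InH τ → (∃ c : ℂ, ∀ e, Th τ (hf (bz e)) = c * w e) →
        ∃ t ∈ T, ∃ γ ∈ GamN ι 4, τ = actZ γ t := by
  classical
  by_cases h0 : ∃ τ₀, InH τ₀ ∧ ∃ c : ℂ, ∀ e, Th τ₀ (hf (bz e)) = c * w e
  swap
  · exact ⟨∅, by simp, by simp, fun τ hτ h => (h0 ⟨τ, hτ, h⟩).elim⟩
  obtain ⟨τ₀, hτ₀, c₀, hc₀⟩ := h0
  have hne : ∀ τ : Matrix ι ι ℂ, InH τ → ∀ c : ℂ, (∀ e, Th τ (hf (bz e)) = c * w e) → c ≠ 0 := by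
    rintro τ hτ c h rfl
    refine thN_ne_zero (N := 2) dvd_rfl hτ (funext fun e => ?_)
    simpa [thN_two] using h e
  obtain ⟨T, hT, hT', hT''⟩ := fin_cover
    {τ | InH τ ∧ ∃ c : ℂ, ∀ e, Th τ (hf (bz e)) = c * w e}
    (fun τ b => ∃ c : ℂ, c ≠ 0 ∧ thN 4 τ = c • b)
    (Fintype.piFinset fun e => Polynomial.nthRootsFinset 4 (thN 4 τ₀ e ^ 4)) (by
      rintro τ ⟨hτ, c, hc⟩
      have h1 := hne τ hτ c hc
      have h2 := hne τ₀ hτ₀ c₀ hc₀
      have h3 : ∀ e, Th τ (hf (bz e)) = (c / c₀) * Th τ₀ (hf (bz e)) := fun e => by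
        rw [hc, hc₀]
        field_simp
      refine ⟨(c / c₀)⁻¹ • thN 4 τ, Fintype.mem_piFinset.2 fun e => ?_, c / c₀, div_ne_zero h1 h2,
        (smul_inv_smul₀ (div_ne_zero h1 h2) _).symm⟩
      rw [Polynomial.mem_nthRootsFinset (by norm_num), Pi.smul_apply, smul_eq_mul, mul_pow]
      change _ * Th τ (qv 4 (fz e)) ^ 4 = Th τ₀ (qv 4 (fz e)) ^ 4
      rw [pow_four hτ₀ hτ (hf_of_bits hτ₀ hτ h3)]
      field_simp)
  refine ⟨T, hT.trans ?_, fun t ht => (hT' t ht).1, fun τ hτ h => ?_⟩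
  · rw [Fintype.card_piFinset, ← Finset.card_univ]
    refine Finset.prod_le_pow_card _ _ _ fun e _ => ?_
    rw [Polynomial.nthRootsFinset_def]
    exact (Multiset.toFinset_card_le _).trans (Polynomial.card_nthRoots _ _)
  · obtain ⟨t, ht, b, ⟨c, -, hc⟩, c', hc', hb⟩ := hT'' τ ⟨hτ, h⟩
    obtain ⟨γ, hγ⟩ := torelli (N := 4) (c := c / c') dvd_rfl (hT' t ht).1 hτ (by
      rw [hc, hb, smul_smul, div_mul_cancel₀ _ hc'])
    exact ⟨t, ht, γ, hγ⟩

end Mo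

/-- B5: the fibres of a finite projection. -/
theorem fib {a b : MZ} (y : Matrix (Fin 11) Bits ℂ) (hy : FinProj a b y) : FIBst a b y := by
  classical
  choose d c hc hc' using hy.1
  obtain ⟨C, hC⟩ : ∃ C : ℕ, ∀ w : Bits → ℂ, ∃ T : Finset Mat, T.card ≤ C ∧ (∀ t ∈ T, InH t) ∧
      ∀ τ, InH τ → (∃ c : ℂ, ∀ e, Th τ (hf (bz e)) = c * w e) →
        ∃ t ∈ T, ∃ γ ∈ GamN (Fin 8) 4, τ = actZ γ t := ⟨_, Mo.fib_two⟩
  refine ⟨(∏ ε, d ε) * C, fun v => ?_⟩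
  choose B hB hB' using fun ε => M4.Mo.exists_roots (d ε) fun e => MvPolynomial.eval v (c ε e)
  choose T hT hT' hT'' using hC
  refine ⟨(Fintype.piFinset B).biUnion T, ?_, ?_, ?_⟩
  · refine (Finset.card_biUnion_le_card_mul _ _ _ fun w _ => hT w).trans ?_
    rw [Fintype.card_piFinset]
    exact Nat.mul_le_mul_right _ (Finset.prod_le_prod' fun ε _ => hB ε)
  · intro t ht
    obtain ⟨w, -, hw⟩ := Finset.mem_biUnion.1 ht
    exact hT' w t hw
  · rintro τ hτ ⟨s, hs⟩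
    have h1 : ∀ ε, th2 τ ε ^ d ε + ∑ e ∈ Finset.range (d ε),
        MvPolynomial.eval v (c ε e) * s ^ (d ε - e) * th2 τ ε ^ e = 0 := fun ε => by
      rw [← hc' ε τ hτ]
      congr 1
      refine Finset.sum_congr rfl fun e he => ?_
      rw [← Z.hfb_scale (hc ε e (Finset.mem_range.1 he)), hs]
      congr 3
      funext i
      rw [Pi.smul_apply, smul_eq_mul, mul_comm]
    have hs0 : s ≠ 0 := by
      rintro rfl
      refine M4.Mo.thN_ne_zero (N := 2) dvd_rfl hτ.1 (funext fun ε => ?_)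
      have h2 := h1 ε
      rw [Finset.sum_eq_zero fun e he => by
        rw [zero_pow (Nat.sub_ne_zero_of_lt (Finset.mem_range.1 he)), mul_zero, zero_mul],
        add_zero] at h2
      rw [M4.Mo.thN_two]
      exact eq_zero_of_pow_eq_zero h2
    have h2 : s⁻¹ • th2 τ ∈ Fintype.piFinset B := Fintype.mem_piFinset.2 fun ε => hB' ε _ (by
      refine mul_left_cancel₀ (pow_ne_zero (d ε) hs0) ?_
      rw [mul_zero, ← h1 ε, mul_add, Finset.mul_sum, Pi.smul_apply, smul_eq_mul, ← mul_pow,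
        mul_inv_cancel_left₀ hs0]
      congr 1
      refine Finset.sum_congr rfl fun e he => ?_
      obtain ⟨k, hk⟩ := Nat.exists_eq_add_of_le (Finset.mem_range.1 he).le
      rw [hk, Nat.add_sub_cancel_left, pow_add, mul_pow, inv_pow]
      field_simp)
    obtain ⟨t, ht, γ, ⟨β, hβ, -⟩, hγ⟩ := hT'' (s⁻¹ • th2 τ) τ hτ.1 ⟨s, fun e => by
      rw [Pi.smul_apply, smul_eq_mul, mul_inv_cancel_left₀ hs0]
      rfl⟩
    refine ⟨t, Finset.mem_biUnion.2 ⟨_, h2, ht⟩, γ.1, M4.Mo.sim_sp γ, fun i j => ?_, hγ⟩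
    rw [hβ, add_sub_cancel_left]
    exact Dvd.intro _ rfl

end M8
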