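import Mathlib
import Pool.Agent.Lib.MP_33b3f9_ag.M8.Fin
import Pool.Agent.Lib.MP_33b3f9_ag.M4.Proj0

/-!
Existence of a finite projection that is etale at countably many points.
-/

set_option autoImplicit false

namespace M8

open M4 Complex Matrix

variable {a b : MZ} {m n : ℕ} (c : Ch a b)

/-- The ideal of the cone over the theta null variety. -/
noncomputable def IA : Ideal (MvPolynomial Bits ℂ) :=
  RingHom.ker (Gr.Ya fun e => c.pb (t2 (ι := Fin 8) e))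

theorem proj0_iff {n : ℕ} {φ : MvPolynomial Bits ℂ} (hφ : φ.IsHomogeneous n) :
    φ ∈ IA c ↔ c.pb (MvPolynomial.aeval (t2 (ι := Fin 8)) φ) = 0 := by
  rw [IA, RingHom.mem_ker, Gr.Ya_hom _ hφ, Polynomial.monomial_eq_zero_iff, c.aeval_pb]

theorem IA_hom : Z.Hom (IA c) := by
  intro g hg μ
  rw [proj0_iff c (MvPolynomial.homogeneousComponent_isHomogeneous μ g), ← c.aeval_pb,
    ← Gr.coeff_Ya, show Gr.Ya (fun e => c.pb (t2 (ι := Fin 8) e)) g = 0 from hg,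
    Polynomial.coeff_zero]

theorem IA_prime : (IA c).IsPrime := by
  have := nonempty_HH (ι := Fin 4)
  have hm : ∀ (p : MvPolynomial Bits ℂ) n, (Gr.Ya (fun e => c.pb (t2 (ι := Fin 8) e)) p).coeff n ∈
      (MF (Fin 8) n).map c.pb.toLinearMap :=
    Gr.Ya_mem_rees (W := fun n => (MF (Fin 8) n).map c.pb.toLinearMap)
      ⟨⟨1, MF.one, map_one c.pb⟩, by
        rintro k l _ _ ⟨f, hf, rfl⟩ ⟨g, hg, rfl⟩
        exact ⟨f * g, MF.mul hf hg, map_mul c.pb f g⟩⟩ fun e => ⟨_, t2_mem e, rfl⟩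
  refine ⟨RingHom.ker_ne_top _, fun {p q} h => ?_⟩
  have h1 : Gr.Ya (fun e => c.pb (t2 (ι := Fin 8) e)) p *
      Gr.Ya (fun e => c.pb (t2 (ι := Fin 8) e)) q = 0 := by
    rw [← map_mul]
    exact h
  have h2 := Polynomial.coeff_mul_degree_add_degree (Gr.Ya (fun e => c.pb (t2 (ι := Fin 8) e)) p)
    (Gr.Ya (fun e => c.pb (t2 (ι := Fin 8) e)) q)
  rw [h1, Polynomial.coeff_zero] at h2
  obtain ⟨f, hf, e1⟩ := hm p (Gr.Ya (fun e => c.pb (t2 (ι := Fin 8) e)) p).natDegree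
  obtain ⟨g, hg, e2⟩ := hm q (Gr.Ya (fun e => c.pb (t2 (ι := Fin 8) e)) q).natDegree
  replace e1 : c.pb f = Polynomial.leadingCoeff _ := e1
  replace e2 : c.pb g = Polynomial.leadingCoeff _ := e2
  rw [← e1, ← e2] at h2
  exact (c.mul_eq_zero hf hg h2.symm).imp (fun h => Polynomial.leadingCoeff_eq_zero.1 (e1 ▸ h))
    fun h => Polynomial.leadingCoeff_eq_zero.1 (e2 ▸ h)

theorem IA_le : IA c ≤ Z.mx (0 : Bits → ℂ) := by
  intro g hg
  obtain ⟨τ⟩ := nonempty_HH (ι := Fin 4)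
  have h := congrFun ((proj0_iff c (MvPolynomial.homogeneousComponent_isHomogeneous 0 g)).1
    (IA_hom c g hg 0)) τ
  rw [MvPolynomial.homogeneousComponent_zero, MvPolynomial.aeval_C, AlgHom.commutes] at h
  rw [Z.mx, RingHom.mem_ker, MvPolynomial.eval_zero]
  exact h

theorem IA_HF (hP : PEL a b m n) : ∃ B : ℕ, ∀ μ, Z.HF (IA c) μ ≤ B * (μ + 1) ^ 10 := by
  obtain ⟨C, hC⟩ := hP.dim c
  obtain ⟨z⟩ := nonempty_HH (ι := Fin 4)
  obtain ⟨e, he⟩ := exists_null_ne_zero (c.h z).2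
  refine ⟨C * 8 ^ 256, fun μ => ?_⟩
  obtain ⟨h1, h2⟩ := hC 8 μ (by norm_num)
  have hp : ∀ k, c.pb (t2 e ^ k) ≠ 0 := fun k h => pow_ne_zero k he (congrFun h z)
  let Φ : MvPolynomial Bits ℂ →ₗ[ℂ] (HH (Fin 4) → ℂ) := c.pb.toLinearMap.comp
    ((LinearMap.mulRight ℂ (t2 e ^ (7 * μ))).comp
      (MvPolynomial.aeval (t2 (ι := Fin 8))).toLinearMap)
  refine (Z.hf_le (IA c) μ Φ fun g hg h0 => (proj0_iff c hg).2 ?_).trans ?_
  · have h3 : MvPolynomial.aeval (t2 (ι := Fin 8)) g ∈ MF (Fin 8) μ :=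
      proj0_mem (fun i => by simpa only [MF, pow_one] using t2_mem i) hg
    exact (c.mul_eq_zero h3 (MF.pow (t2_mem e) (7 * μ))
      ((map_mul c.pb _ _).symm.trans h0)).resolve_right (hp _)
  · refine (Submodule.finrank_mono (t := Rx.MIX ![a, b] c.h {γ | Lv 8 γ} μ) ?_).trans h2
    rintro _ ⟨g, hg, rfl⟩
    refine Rx.MIX.of_MI (f := MvPolynomial.aeval (t2 (ι := Fin 8)) g * t2 e ^ (7 * μ))
      (span_t2_pow_le μ ?_)
    rw [show 8 * μ = μ + 7 * μ by ring, pow_add]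
    exact Submodule.mul_mem_mul
      (proj0_mem (fun i => Submodule.subset_span (Set.mem_range_self i)) hg)
      (Submodule.pow_mem_pow _ (Submodule.subset_span (Set.mem_range_self e)) _)

end M8
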