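import Mathlib
import Pool.Agent.Lib.MP_33b3f9_ag.M8.Proj0

/-!
Existence of a finite projection that is etale at countably many points.
-/

set_option autoImplicit false

namespace M8

open M4 Complex Matrix

variable {a b : MZ} {m n : ℕ} (c : Ch a b)

theorem proj_th2 (τ : Mat) : th2 τ = thN 2 τ := by
  funext e
  simp only [th2, thN, qv, hf, Nat.cast_ofNat]
  rfl

theorem proj_sco : Differentiable ℂ (sco : (Fin 8 → Fin 8 → ℂ) → Sym2 (Fin 8) → ℂ) := by
  refine differentiable_pi.2 fun z => ?_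
  induction z using Sym2.ind with
  | _ i j =>
    change Differentiable ℂ fun τ : Fin 8 → Fin 8 → ℂ => (τ i j + τ j i) / 2
    fun_prop

/-- The action in the coordinates of the symmetric matrices. -/
noncomputable def projF (G : Matrix ν ν ℝ) (z : Sy) : Sym2 (Fin 8) → ℂ :=
  sco fun i j => act G (c.f (mat z)) i j

theorem proj_mat {G : Matrix ν ν ℝ} {m : ℝ} (hG : Sim G m) (hm : 0 < m) {z : Sy}
    (hz : InH (mat z)) : smat (projF c G z) = act G (c.f (mat z)) :=
  M4.Mo.smat_sco_of_inH (inH_act hG hm (c.mem _ hz).1)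

theorem proj_an {G : Matrix ν ν ℝ} {m : ℝ} (hG : Sim G m) (hm : 0 < m) {z : Sy}
    (hz : InH (mat z)) : AnalyticAt ℂ (projF c G) z := by
  refine Pool.Agent.Lib.MP_940f24_an.analyticOnNhd_of_differentiableOn M4.Mo.isOpen_inH
    (fun t ht => ?_) z hz
  have h : DifferentiableAt ℂ (fun (σ : Fin 8 → Fin 8 → ℂ) i j => act G (of σ) i j)
      (fun i j => c.f (mat t) i j) := M4.Mo.differentiableAt_act hG hm (c.mem _ ht).1
  have h1 := h.comp_differentiableWithinAt t (c.hol t ht)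
  exact (proj_sco _).comp_differentiableWithinAt t h1

theorem proj_inj {G : Matrix ν ν ℝ} {m : ℝ} (hG : Sim G m) (hm : 0 < m) {z : Sy}
    (hz : InH (mat z)) {w : Sy} (hw : fderiv ℂ (projF c G) z w = 0) : w = 0 := by
  have hG' := hG.inv hm.ne'
  have hm' := inv_pos.2 hm
  have hb : InH (smat (projF c G z)) := by
    rw [proj_mat c hG hm hz]
    exact inH_act hG hm (c.mem _ hz).1
  have h0 : DifferentiableAt ℂ (fun (σ : Fin 8 → Fin 8 → ℂ) i j => act G⁻¹ (of σ) i j)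
      (M4.Mo.smatL (Fin 8) (projF c G z)) := M4.Mo.differentiableAt_act hG' hm' hb
  have h1 := ((c.holL _ (inH_act hG' hm' hb)).comp (projF c G z)
    (h0.comp _ (M4.Mo.smatL (Fin 8)).differentiableAt)).hasFDerivAt.comp z
    (proj_an c hG hm hz).differentiableAt.hasFDerivAt
  have h2 := (hasFDerivAt_id (𝕜 := ℂ) z).unique (h1.congr_of_eventuallyEq (by
    filter_upwards [M4.Mo.isOpen_inH.mem_nhds hz] with t ht
    replace ht : InH (mat t) := ht
    change t = c.L (act G⁻¹ (smat (projF c G t)))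
    rw [proj_mat c hG hm ht, ← M4.Mo.act_mul hG' hm' hG hm (c.mem _ ht).1,
      nonsing_inv_mul _ (hG.det_ne_zero hm.ne').isUnit, act_one, c.inv t ht]))
  have h3 := DFunLike.congr_fun h2 w
  rwa [ContinuousLinearMap.comp_apply, hw, map_zero] at h3

theorem th2_imm {z : Sy} (hz : InH (mat z)) {g : MZ} {m : ℕ} (hm : 0 < m) (hg : Sim (zr g) m) :
    AnalyticAt ℂ (fun t => th2 (act (zr g) (c.f (mat t)))) z ∧
      Function.Injective fun q : ℂ × Sy => q.1 • th2 (act (zr g) (c.f (mat z))) +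
        fderiv ℂ (fun t => th2 (act (zr g) (c.f (mat t)))) z q.2 := by
  have hm' : (0 : ℝ) < m := Nat.cast_pos.2 hm
  have e0 := proj_mat c hg hm' hz
  have hb : InH (smat (projF c (zr g) z)) := by
    rw [e0]
    exact inH_act hg hm' (c.mem _ hz).1
  have e : (fun t => th2 (act (zr g) (c.f (mat t)))) =ᶠ[nhds z]
      (fun t : Sym2 (Fin 8) → ℂ => thN 2 (smat t)) ∘ projF c (zr g) := by
    filter_upwards [M4.Mo.isOpen_inH.mem_nhds hz] with t ht
    rw [Function.comp_apply, proj_mat c hg hm' ht, proj_th2]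
  have h1 := M4.Mo.analyticAt_thN 2 (t := projF c (zr g) z) hb
  have h0 := fun s w => M4.Mo.imm_thN (N := 2) dvd_rfl (t := projF c (zr g) z) hb (c := s) (w := w)
  have h2 := proj_an c hg hm' hz
  refine ⟨(h1.comp h2).congr e.symm, fun q q' h => ?_⟩
  have h3 : (q.1 - q'.1) • thN 2 (smat (projF c (zr g) z)) +
      fderiv ℂ (fun t : Sym2 (Fin 8) → ℂ => thN 2 (smat t)) (projF c (zr g) z)
        (fderiv ℂ (projF c (zr g)) z (q.2 - q'.2)) = 0 := by
    rw [← ContinuousLinearMap.comp_apply, ← fderiv_comp z h1.differentiableAt h2.differentiableAt,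
      ← e.fderiv_eq, e0, ← proj_th2, map_sub, sub_smul, ← add_sub_add_comm]
    exact sub_eq_zero.2 h
  obtain ⟨h4, h5⟩ := h0 _ _ h3
  exact Prod.ext (sub_eq_zero.1 h4) (sub_eq_zero.1 (proj_inj c hg hm' hz h5))

theorem int_of_noZ {y : Matrix (Fin 11) Bits ℂ} (h : Gr.NoZ (IA c) y) (ε : Bits) :
    ∃ (d : ℕ) (q : ℕ → MvPolynomial (Fin 11) ℂ),
      (∀ e < d, (q e).IsHomogeneous (d - e)) ∧ ∀ τ ∈ FX a b,
        th2 τ ε ^ d + ∑ e ∈ Finset.range d, MvPolynomial.eval (lin y τ) (q e) * th2 τ ε ^ e = 0 := by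
  obtain ⟨q, hq, h1⟩ := Gr.NoZ.int (d := 10) (IA_hom c) h ε
  have e : (Gr.Ya fun e => c.pb (t2 (ι := Fin 8) e)).comp (MvPolynomial.aeval (Gr.rows y)) =
      Gr.Ya fun i => c.pb (yH y i) := by
    refine MvPolynomial.algHom_ext fun i => ?_
    have e1 : yH y i = ∑ j, y i j • t2 (ι := Fin 8) j := by
      funext τ
      rw [Finset.sum_apply]
      rfl
    simp only [AlgHom.comp_apply, MvPolynomial.aeval_X, Gr.rows, Gr.Ya, e1, map_sum, map_smul,
      MvPolynomial.C_mul', Polynomial.smul_monomial]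
  have h2 : Gr.Ya (fun e => c.pb (t2 (ι := Fin 8) e)) _ = 0 := h1
  have h3 := Polynomial.hom_eval₂ q (MvPolynomial.aeval (Gr.rows y) :
    Z.AA 10 →ₐ[ℂ] MvPolynomial Bits ℂ).toRingHom
    (Gr.Ya fun e => c.pb (t2 (ι := Fin 8) e)).toRingHom (MvPolynomial.X ε)
  have h4 : q.eval₂ (Gr.Ya fun i => c.pb (yH y i)).toRingHom
      (Polynomial.monomial 1 (c.pb (t2 ε))) = 0 := by
    rw [← e, ← h2, ← MvPolynomial.aeval_X (R := ℂ)
      (fun i => Polynomial.monomial 1 (c.pb (t2 (ι := Fin 8) i))) ε]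
    exact h3.symm
  obtain ⟨u, hc, h5⟩ := Gr.gEq_of_monic hq h4
  refine ⟨_, u, fun e he => by simpa only [one_mul] using hc e he, fun τ hτ => ?_⟩
  obtain ⟨z, rfl⟩ := c.h_sur hτ
  have h6 := congrFun h5 z
  simp only [Pi.add_apply, Finset.sum_apply, Pi.mul_apply, Pi.pow_apply, c.aeval_pb,
    c.pb_apply] at h6
  refine Eq.trans (congrArg _ (Finset.sum_congr rfl fun e _ => ?_)) h6
  exact congrArg (· * _) (aeval_yH (u e) (c.h z)).symm

theorem proj (hP : PEL a b m n) (c : Ch a b) : PROJst c := by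
  intro z hz
  obtain ⟨B, hB⟩ := IA_HF c hP
  obtain ⟨y₀, hy₀⟩ := Gr.exists_noZ (IA_prime c) (IA_hom c) (IA_le c)
    (Gr.dm_le_of_HF (IA_prime c) hB)
  have hc : Countable MZ := inferInstanceAs (Countable (ν → ν → ℤ))
  have hr : Module.finrank ℂ (Fin 11 → ℂ) = Module.finrank ℂ (ℂ × Sy) := by
    rw [Module.finrank_prod, M4.Mo.finrank_Sy_four, Module.finrank_self, Module.finrank_fin_fun]
  let e := LinearEquiv.ofFinrankEq _ _ hr
  let Λ : MZ → (ℂ × Sy →ₗ[ℂ] Bits → ℂ) := fun g =>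
    (LinearMap.toSpanSingleton ℂ _ (th2 (act (zr g) (c.f (mat z))))).coprod
      (fderiv ℂ (fun t => th2 (act (zr g) (c.f (mat t)))) z).toLinearMap
  obtain ⟨y, hy, hi⟩ := Gr.exists_generic (Gr.isOpen_noZ (κ := Fin 11) (IA_hom c)) ⟨y₀, hy₀⟩
    (fun p : {p : MZ × ℕ // 0 < p.2 ∧ Sim (zr p.1) p.2} =>
      LinearMap.toMatrix' (Λ p.1.1 ∘ₗ e.toLinearMap)) fun p x x' h => by
      rw [LinearMap.toMatrix'_mulVec, LinearMap.toMatrix'_mulVec] at h
      exact e.injective ((th2_imm c hz p.2.1 p.2.2).2 h)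
  have hE : EtProj c (of y) z := fun g m hm hg => by
    have h1 := (th2_imm c hz hm hg).1
    let Y := LinearMap.toContinuousLinearMap (mulVecLin (of y))
    have h2 : fderiv ℂ (Thy c (of y) g) z = _ :=
      (Y.hasFDerivAt.comp z h1.differentiableAt.hasFDerivAt).fderiv
    have h3 : ∀ q : ℂ × Sy, q.1 • Thy c (of y) g z + fderiv ℂ (Thy c (of y) g) z q.2 =
        (of y * LinearMap.toMatrix' (Λ g ∘ₗ e.toLinearMap)) *ᵥ e.symm q := fun q => by
      rw [← mulVec_mulVec, LinearMap.toMatrix'_mulVec, LinearMap.comp_apply,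
        LinearEquiv.coe_coe, e.apply_symm_apply, h2, LinearMap.coprod_apply, mulVec_add,
        LinearMap.toSpanSingleton_apply, mulVec_smul]
      rfl
    refine ⟨(Y.analyticAt _).comp h1, fun q q' h => e.symm.injective (hi ⟨(g, m), hm, hg⟩ ?_)⟩
    exact (h3 q).symm.trans (h.trans (h3 q'))
  refine ⟨of y, ⟨int_of_noZ c hy, fun n φ hφ h => ?_⟩, hE⟩
  have h0 : zr 1 = 1 := M4.Mo.rm_one
  have h1 : Sim (zr 1) (1 : ℕ) := by
    rw [h0, Nat.cast_one]
    exact Sim.one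
  obtain ⟨h2, h3⟩ := hE 1 1 one_pos h1
  refine Gr.eq_zero_of_etale (by rw [M4.Mo.finrank_Sy_four, Fintype.card_fin]) h2 h3 hφ ?_
  filter_upwards [M4.Mo.isOpen_inH.mem_nhds hz] with t ht
  rw [Thy, h0, act_one]
  exact h _ (c.mem _ ht)

end M8
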