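import Pool.Agent.Lib.MP_33b3f9_ag.M8.Pig
import Pool.Agent.Lib.MP_33b3f9_ag.M8.TrE
import Pool.Agent.Lib.MP_33b3f9_ag.M8.Em
import Pool.Agent.Lib.MP_33b3f9_ag.M8.KzFinL
import Pool.Agent.Lib.MP_33b3f9_ag.M8.INum
import Pool.Agent.Lib.MP_33b3f9_ag.M8.G.Arith
import Pool.Agent.Lib.MP_33b3f9_ag.M8.Proj
import Pool.Agent.Lib.MP_33b3f9_ag.M8.ModHn
import Pool.Agent.Lib.MP_33b3f9_ag.M8.ModFib
import Pool.Agent.Lib.MP_33b3f9_ag.M8.Fin
import Pool.Agent.Lib.MP_33b3f9_ag.M8.ZGeo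
import Pool.Agent.Lib.MP_33b3f9_ag.M8.Cent
import Pool.Agent.Lib.MP_33b3f9_ag.M8.SH.MonoOut
import Pool.Agent.Lib.MP_33b3f9_ag.M8.CL.Main
import Pool.Agent.Lib.MP_33b3f9_ag.M8.B2.Red
import Pool.Agent.Lib.MP_33b3f9_ag.M8.F.Main
import Pool.Agent.Lib.MP_33b3f9_ag.M8.W.Main

/-!
The two halves together.
-/

set_option autoImplicit false

noncomputable section

namespace M8

open M4 Matrix

variable {τ : Mat} {K : IntermediateField ℚ ℂ} {r : Rep K} {a b : MZ} {m n : ℕ}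

theorem core (h : AV τ K r) (hP : PEL a b m n) (hτ : τ ∈ FX a b) (hE : EndX a b τ)
    (hc : COMM a b r) (F : Type) [Field F] [NumberField F] (hF : Module.finrank ℚ F = 3)
    (hcb : CBst τ r F) : ¬ GEN a b (cst τ) := fun hg => by
  obtain ⟨a', b', g, M, hM, ha, hb, hA⟩ :=
    pig hP hτ (G.arith h hc (Kz.mu h) Kz.lagr (Kz.points h) F hF hcb)
  have h0 : 0 < M := Nat.pos_of_ne_zero hM.1.1.ne_zero
  have hP' := hP.conj h0 hM.2.2 ha hb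
  have hτ' := hP.fx_act h0 hM.2.2 ha hb hτ
  have hE' := hE.act hτ.1 h0 hM.2.2 ha hb
  have hg' := hg.act hτ.1 h0 hM.2.2 ha hb
  obtain ⟨c⟩ := hP'.ch
  obtain ⟨w, hw, e⟩ := c.sur _ hτ'
  obtain ⟨z, rfl⟩ : ∃ z : Sy, mat z = w :=
    ⟨Sym2.lift ⟨fun i j => w i j, fun i j => (hw.1.apply j i)⟩, by ext i j; simp [mat]⟩
  rw [← e] at hτ' hE' hg' hA
  obtain ⟨y, hy, he⟩ := proj hP' c z hw
  exact num (Z.geo hP' c y z hw he (hn hP' c y hy) (fib y hy) (SH.stab hP' hτ' hE')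
    (CL.cl hP' c y z hw hy (fin_gen hP' c y hy) (SH.mono hP' c y z hw hE' hg' hy he))) hA

theorem dich (h : AV τ K r) (hP : PEL a b m n) (hτ : τ ∈ FX a b) (hE : EndX a b τ)
    (hc : COMM a b r) : DICH a b τ r :=
  W.dich h hP hc (fal h hP hE hc) (fun _ _ h => B2.red h) (fun _ _ h => Kz.mu h)
    fun _ _ h hc F _ _ hF hcb => core h hP hτ hE hc F hF hcb

end M8
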