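import Pool.Agent.Lib.MP_33b3f9_ag.M8.KzFinM
import Pool.Agent.Lib.MP_33b3f9_ag.M4.KzPts
import Pool.Agent.Lib.MP_33b3f9_ag.M4.KzCard

/-!
Block B1b: the points, interface form.
-/

set_option autoImplicit false

namespace M8.Kz

open Complex Matrix M4.Kz
open M4 hiding XX_zero ee_add chi_sq

variable {τ : Mat} {K : IntermediateField ℚ ℂ} {r : Rep K}

theorem exists_den (h : AV τ K r) (e : Bits) :
    ∃ D : ℤ, D ≠ 0 ∧ ∀ k, IsIntegral ℤ (D * (XX τ k 0 / th2 τ e)) := by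
  classical
  have := h.fin
  have : Algebra.IsAlgebraic ℤ K := (IsFractionRing.comap_isAlgebraic_iff (K := ℚ)).2 inferInstance
  obtain ⟨D, hD, H⟩ := Algebra.IsAlgebraic.exists_integral_multiples ℤ
    (Finset.univ.image fun e' : Bits => (⟨_, null_mem h e (bz e')⟩ : K))
  refine ⟨D, hD, fun k => ?_⟩
  obtain ⟨e', n, rfl⟩ := exists_bits k
  have h1 := (H _ (Finset.mem_image_of_mem _ (Finset.mem_univ e'))).map
    (K.val.toRingHom.toIntAlgHom)
  rw [XX_add_two h.inH, mul_div_assoc, mul_left_comm]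
  refine IsIntegral.mul (IsIntegral.of_pow (n := 4) (by norm_num) ?_) (by simpa using h1)
  rw [mul_pow, pow_mul (chi n) 2 2, chi_sq, ← zpow_natCast (I ^ _), ← _root_.zpow_mul,
    mul_comm (Ef _ _), _root_.zpow_mul, zpow_natCast, I_pow_four]
  simpa using isIntegral_one

theorem exists_arch (h : AV τ K r) (e : Bits) :
    ∃ C : ℝ, ∀ (φ : ℂ →+* ℂ) k, ‖φ (XX τ k 0 / th2 τ e)‖ ≤ C := by
  have := h.fin
  have : NumberField K := ⟨⟩
  obtain ⟨C, hC⟩ := (Set.finite_range fun p : (K →+* ℂ) × Bits =>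
    ‖p.1 ⟨_, null_mem h e (bz p.2)⟩‖).bddAbove
  refine ⟨C, fun φ k => ?_⟩
  obtain ⟨e', n, rfl⟩ := exists_bits k
  have h1 : ‖φ (chi n)‖₊ = 1 := w_chi (nnnormHom.comp φ.toMonoidWithZeroHom) n
  have h2 : ‖φ (I ^ Ef (bz e') n)‖₊ = 1 := w_I (nnnormHom.comp φ.toMonoidWithZeroHom) _
  rw [XX_add_two h.inH, mul_div_assoc, map_mul, map_mul, norm_mul, norm_mul, ← coe_nnnorm, h1,
    ← coe_nnnorm, h2, NNReal.coe_one, one_mul, one_mul]
  exact hC ⟨(φ.comp K.val.toRingHom, e'), rfl⟩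

theorem Iso.odd {g : MZ} {M : ℕ} (hg : Iso g M) : Odd M := by
  rw [← Nat.not_even_iff_odd, even_iff_two_dvd]
  intro h2
  exact absurd (hg.1.2 2 Nat.prime_two h2) (by decide)

theorem Iso.simR {g : MZ} {M : ℕ} (hg : Iso g M) : SimR g (M : ℤ) :=
  simR_of_sim (by rw [Int.cast_natCast]; exact hg.2.2)

theorem mem_Ker {g : MZ} {M : ℕ} {a : ν → ℤ} : a ∈ Ker g M ↔ vZ M a ∈ kerM M g := by
  change _ ↔ mZ M g *ᵥ vZ M a = 0
  rw [mZ_mulVec, funext_iff]
  exact forall_congr' fun i => (ZMod.intCast_zmod_eq_zero_iff_dvd _ M).symm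

theorem cong_vZ {σ : ℂ ≃ₐ[K] ℂ} {M N : ℕ} (hM : M ≠ 0) (hN : M ∣ N) {R R' : MZ}
    (hR : Cong r σ M R) (hR' : Cong r σ N R') : mZ M R' = mZ M R := by
  ext i j
  refine (ZMod.intCast_eq_intCast_iff_dvd_sub _ _ M).2 (dvd_of_padic hM fun l _ => ?_)
  have := dvd_sub ((Nat.cast_dvd_cast hN).trans (hR' l i j)) (hR l i j)
  rwa [sub_sub_sub_cancel_left, ← Int.cast_sub] at this

theorem points (h : AV τ K r) : POINTSst τ r := by
  classical
  obtain ⟨e, he⟩ := exists_null_ne_zero h.inH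
  change th2 τ e ≠ 0 at he
  obtain ⟨D, hD0, hD⟩ := exists_den h e
  obtain ⟨C, hC⟩ := exists_arch h e
  choose F hF using exists_four
  let S : (M : ℕ) → AddSubgroup (ν → ℤ) → Set (ν → ZMod M) := fun M G => {a | lift a ∈ G}
  refine ⟨(256 * |(D : ℝ)| * (256 * C)) ^ 4, fun M G η => if hM : M = 0 then 0 else
    have : NeZero M := ⟨hM⟩
    (256 * D : ℤ) ^ 4 * yy τ (th2 τ e) (F M) 0 (S M G) (bz η), fun g M hg => ?_⟩
  have hM : M ≠ 0 := hg.1.1.ne_zero
  have : NeZero M := ⟨hM⟩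
  have hS : ∀ g, S M (Ker g M) = (kerM M g : Set (ν → ZMod M)) := fun g => by
    ext a
    change lift a ∈ Ker g M ↔ a ∈ kerM M g
    rw [mem_Ker, vZ_lift]
  have hM0 : (0 : ℝ) < M := by positivity
  simp only [dif_neg hM, hS]
  refine ⟨?_, fun i => ?_, fun φ i => ?_, fun σ R g' hR hg' hk i => ?_⟩
  · obtain ⟨c, hc, H⟩ := yy_koi (Iso.odd hg) (Iso.simR hg) (fun i j =>
      (by norm_num : ((8 : ℕ) : ℤ) ∣ 32).trans (hg.2.1 i j)) (hF M) h.inH
      (inH_act hg.2.2 hM0 h.inH) (rel_act hg.2.2 hM0 h.inH) he 0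
    refine ⟨(256 * D : ℤ) ^ 4 * c, mul_ne_zero (pow_ne_zero _ (by simpa using hD0)) hc, ?_⟩
    funext η
    rw [H, ← mul_assoc]
    rfl
  · refine YY_int (ρ := Fin 4) (fun k a => ?_) _ _
    have := XX_int h.inH (c := D / th2 τ e) (fun k => by
      rw [div_mul_eq_mul_div, mul_div_assoc]; exact hD k) hM k a
    rw [Fintype.card_fin] at this
    refine (congrArg _ ?_).mp this
    push_cast; ring
  · have ht : 0 < ‖φ (th2 τ e)‖ := by simpa using he
    have hB : ∀ k a, ‖φ (XX τ k (M4.Kz.rq M a) / th2 τ e)‖ ≤ 256 * C := fun k a => by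
      have := bound_emb φ h.inH (N₀ := C * ‖φ (th2 τ e)‖) (fun k => by
        rw [← div_le_iff₀ ht, ← norm_div, ← map_div₀]; exact hC φ k) hM k a
      rw [map_div₀, norm_div, div_le_iff₀ ht, mul_assoc]
      rw [Fintype.card_fin] at this
      exact this.trans_eq (by norm_num)
    have h1 := YY_le (F := F M) φ hB (kerM M g : Set (ν → ZMod M))
      (Function.update (fun _ => eta1 τ (th2 τ e) (F M) (kerM M g : Set (ν → ZMod M))) 0 (bz i))
    have h2 : (Nat.card (kerM M g : Set (ν → ZMod M)) : ℝ) ≤ (M : ℝ) ^ 8 := by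
      exact_mod_cast card_kerM (Iso.simR hg)
    have h3 : 0 ≤ 256 * C := (norm_nonneg _).trans (hB 0 0)
    rw [Fintype.card_fin] at h1
    rw [map_mul, norm_mul, map_pow, map_intCast, norm_pow, Complex.norm_intCast]
    calc _ ≤ |((256 * D : ℤ) : ℝ)| ^ 4 * ((M : ℝ) ^ 8 * (256 * C)) ^ 4 :=
          mul_le_mul_of_nonneg_left (h1.trans (by gcongr)) (by positivity)
      _ = _ := by push_cast; rw [abs_mul, abs_of_pos (by norm_num : (0 : ℝ) < 256)]; ring
  · obtain ⟨R', hR'⟩ := exists_cong r σ (N := 4 * (2 * M) * (2 * M)) (by positivity)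
    have h1 := cong_vZ hM ⟨16 * M, by ring⟩ hR hR'
    rw [map_mul, map_pow, map_intCast]
    congr 1
    refine yy_gal (σ := (σ : ℂ →+* ℂ)) (r := R') h.inH (hF M) (exact_gal h he hM
      (cong_iff.2 ((cong_iff.1 hR').of_dvd ⟨4, by ring⟩))) (bijOn_kerM (Iso.simR hg)
        (Iso.simR hg') (fun a b hab => ?_) fun a ha => ?_) 0 _
    · rw [← ee_div_eq_one hM] at hab ⊢
      exact σ.injective (by rw [sim_gal h hM hR', hab, map_one])
    · rw [← mZ_mulVec, h1, mZ_mulVec, ← mem_Ker]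
      exact hk a (mem_Ker.2 ha)

end M8.Kz
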