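import Pool.Agent.Lib.MP_33b3f9_ag.M8.Mor
import Pool.Agent.Lib.MP_33b3f9_ag.IgTng

/-!
Closures and tangent spaces along linear maps of matrix spaces.
-/

set_option autoImplicit false

noncomputable section

namespace M8

open Matrix Pool.Agent.Lib.MP_33b3f9_ag

variable {n m : Type} [Fintype n] [DecidableEq n] {Ω : Type} [Field Ω]
  (φ : Matrix n n Ω →ₗ[Ω] Matrix m m Ω)

/-- Extension of scalars of a linear map. -/
def linX (R : Type) [CommRing R] [Algebra Ω R] : Matrix n n R →ₗ[R] Matrix m m R :=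
  ∑ p : n × n, (entryLinearMap R R p.1 p.2).smulRight ((φ (single p.1 p.2 1)).map (algebraMap Ω R))

theorem linX_apply {R : Type} [CommRing R] [Algebra Ω R] (g : Matrix n n R) (i j : m) :
    linX φ R g i j = ∑ p : n × n, g p.1 p.2 * algebraMap Ω R (φ (single p.1 p.2 1) i j) := by
  simp [linX, Matrix.sum_apply]

theorem linX_map {R : Type} [CommRing R] [Algebra Ω R] (g : Matrix n n Ω) :
    linX φ R (g.map (algebraMap Ω R)) = (φ g).map (algebraMap Ω R) := by
  ext i j
  conv_rhs => rw [matrix_eq_sum_single g, ← Fintype.sum_prod_type', map_sum]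
  rw [linX_apply, map_apply, Matrix.sum_apply, map_sum]
  refine Finset.sum_congr rfl fun p _ => ?_
  rw [map_apply, ← map_mul, ← smul_eq_mul, ← Matrix.smul_apply, ← map_smul, smul_single,
    smul_eq_mul, mul_one]

theorem ptsR_lin {T : Set (Matrix n n Ω)} {T' : Set (Matrix m m Ω)} (h : ∀ t ∈ T, φ t ∈ T')
    {R : Type} [CommRing R] [Algebra Ω R] {g : Matrix n n R} (hg : g ∈ ptsR T R) :
    linX φ R g ∈ ptsR T' R := by
  intro P hP
  let G : m × m → MvPolynomial (n × n) Ω := fun q =>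
    ∑ p : n × n, MvPolynomial.X p * MvPolynomial.C (φ (single p.1 p.2 1) q.1 q.2)
  have key : ∀ {A : Type} [CommRing A] [Algebra Ω A] (x : Matrix n n A),
      MvPolynomial.aeval (fun p : n × n => x p.1 p.2) (MvPolynomial.aeval G P) =
        MvPolynomial.aeval (fun q : m × m => linX φ A x q.1 q.2) P := by
    intro A _ _ x
    rw [MvPolynomial.comp_aeval_apply]
    congr 2
    funext q
    simp [G, linX_apply]
  rw [← key]
  refine hg _ fun t ht => (key t).trans ?_
  have h1 : linX φ Ω t = φ t := linX_map φ (R := Ω) t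
  rw [h1]
  exact hP _ (h t ht)

theorem mcl_lin {T : Set (Matrix n n Ω)} {T' : Set (Matrix m m Ω)} (h : ∀ t ∈ T, φ t ∈ T')
    {g : Matrix n n Ω} (hg : g ∈ mcl T) : φ g ∈ mcl T' := by
  have h1 : linX φ Ω g = φ g := linX_map φ (R := Ω) g
  rw [← h1]
  exact ptsR_lin φ h (R := Ω) hg

theorem tng_lin [Fintype m] [DecidableEq m] (h1 : φ 1 = 1) {T : Submonoid (Matrix n n Ω)}
    {T' : Submonoid (Matrix m m Ω)} (h : ∀ t ∈ T, φ t ∈ T') {Y : Matrix n n Ω} (hY : Y ∈ tng T) :
    φ Y ∈ tng T' := by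
  have h2 := ptsR_lin φ (T' := (T' : Set (Matrix m m Ω))) h (mem_tng.1 hY)
  have h3 := linX_map φ (R := DualNumber Ω) 1
  rw [h1, Matrix.map_one _ (map_zero _) (map_one _), Matrix.map_one _ (map_zero _) (map_one _)] at h3
  rwa [dualM, map_add, map_smul, h3, linX_map] at h2

end M8
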