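import Pool.Agent.Lib.MP_33b3f9_ag.M8.Em
import Pool.Agent.Lib.MP_33b3f9_ag.M8.P.If
import Pool.Agent.Lib.MP_33b3f9_ag.M4.FP.Pm

/-!
The normal form of the endomorphism algebra.
-/

set_option autoImplicit false

noncomputable section

namespace M8

open Matrix M4

section quat

variable {a b : ℚ}

theorem quat_sq {x y : QuaternionAlgebra ℚ a 0 b} (hx : x.re = 0) (hy : y.re = 0) :
    x * y + y * x = (2 * (x * y).re) • 1 := by
  ext <;> simp [hx, hy] <;> ring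

/-- A positive involution of an indefinite quaternion algebra. -/
theorem quat_nf (ha : 0 < a) (hb : b ≠ 0)
    (σ : QuaternionAlgebra ℚ a 0 b →ₗ[ℚ] QuaternionAlgebra ℚ a 0 b) (h1 : σ 1 = 1)
    (hmul : ∀ x y, σ (x * y) = σ y * σ x) (hinv : ∀ x, σ (σ x) = x)
    (hpos : ∀ x (c : ℚ), x ≠ 0 → σ x * x = c • 1 → 0 < c)
    {Z : QuaternionAlgebra ℚ a 0 b → Prop} (hZ : ∀ x, ∃ c : ℚ, c ≠ 0 ∧ Z (c • x)) :
    ∃ (A B : QuaternionAlgebra ℚ a 0 b) (s t : ℚ), Z A ∧ Z B ∧ 0 < s ∧ 0 < t ∧ σ A = -A ∧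
      σ B = B ∧ A * A = -(s • 1) ∧ B * B = t • 1 ∧ A * B = -(B * A) ∧
      ∀ x, ∃ c : Fin 4 → ℚ, x = c 0 • 1 + c 1 • A + c 2 • B + c 3 • (A * B) := by
  let i : QuaternionAlgebra ℚ a 0 b := ⟨0, 1, 0, 0⟩
  let j : QuaternionAlgebra ℚ a 0 b := ⟨0, 0, 1, 0⟩
  have hc : ∀ x y, (σ (x * y - y * x)).re = 0 := fun x y => by
    rw [map_sub, hmul, hmul]
    simp
    ring
  have hp : ∀ x : QuaternionAlgebra ℚ a 0 b, x.re = 0 → (σ x).re = 0 := fun x hx => by
    have e : x = (x.imI / (2 * b)) • (i * j * j - j * (i * j)) +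
        (x.imJ / (2 * a)) • (i * (i * j) - i * j * i) + (x.imK / 2) • (i * j - j * i) := by
      ext <;> simp [i, j, hx] <;> field_simp <;> ring
    rw [e, map_add, map_add, map_smul, map_smul, map_smul]
    simp only [QuaternionAlgebra.re_add, QuaternionAlgebra.re_smul, hc, smul_zero, add_zero]
  obtain ⟨A, hA, hA0, hA1, hA2⟩ : ∃ A, Z A ∧ A ≠ 0 ∧ A.re = 0 ∧ σ A = -A := by
    obtain ⟨x, hx, hx'⟩ : ∃ x : QuaternionAlgebra ℚ a 0 b, x.re = 0 ∧ σ x ≠ x := by
      by_contra! h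
      have h2 := hmul i j
      rw [h i rfl, h j rfl, h _ (by simp [i, j])] at h2
      have h3 := congrArg QuaternionAlgebra.imK h2
      norm_num [i, j] at h3
    obtain ⟨c, hc0, hc1⟩ := hZ (x - σ x)
    refine ⟨_, hc1, smul_ne_zero hc0 (sub_ne_zero.2 hx'.symm), by simp [hx, hp x hx], ?_⟩
    rw [map_smul, map_sub, hinv, ← smul_neg, neg_sub]
  obtain ⟨B, hB, hB0, hB1, hB2⟩ : ∃ B, Z B ∧ B ≠ 0 ∧ B.re = 0 ∧ σ B = B := by
    obtain ⟨x, hx, hx'⟩ : ∃ x : QuaternionAlgebra ℚ a 0 b, x.re = 0 ∧ x + σ x ≠ 0 := by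
      by_contra! h
      have h2 := hpos i (-a) (fun e => one_ne_zero (congrArg QuaternionAlgebra.imI e)) (by
        rw [eq_neg_of_add_eq_zero_right (h i rfl)]
        ext <;> simp [i])
      linarith
    obtain ⟨c, hc0, hc1⟩ := hZ (x + σ x)
    refine ⟨_, hc1, smul_ne_zero hc0 hx', by simp [hx, hp x hx], ?_⟩
    rw [map_smul, map_add, hinv, add_comm]
  have sq : ∀ x : QuaternionAlgebra ℚ a 0 b, x.re = 0 → x * x = (x * x).re • 1 := fun x hx => by
    refine smul_right_injective _ (two_ne_zero' ℚ) ?_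
    beta_reduce
    rw [two_smul, quat_sq hx hx, mul_smul]
  have hAA : A * A = -((-(A * A).re) • 1) := by rw [neg_smul, neg_neg, ← sq A hA1]
  have hs : 0 < -(A * A).re := hpos A _ hA0 (by rw [hA2, neg_mul, neg_smul, ← sq A hA1])
  have ht : 0 < (B * B).re := hpos B _ hB0 (by rw [hB2, ← sq B hB1])
  have hBB := sq B hB1
  have hAB : A * B = -(B * A) := by
    have h2 := congrArg σ (quat_sq hA1 hB1)
    rw [map_smul, h1, ← quat_sq hA1 hB1, map_add, hmul, hmul, hA2, hB2, mul_neg, neg_mul] at h2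
    refine eq_neg_of_add_eq_zero_left (smul_right_injective _ (two_ne_zero' ℚ) ?_)
    beta_reduce
    rw [smul_zero, two_smul]
    nth_rewrite 1 [← h2]
    abel
  generalize -(A * A).re = s at hAA hs
  generalize (B * B).re = t at hBB ht
  refine ⟨A, B, s, t, hA, hB, hs, ht, hA2, hB2, hAA, hBB, hAB, fun x => ?_⟩
  have h2 : ∀ u v : ℚ, u • 1 + v • A = 0 → u = 0 ∧ v = 0 := fun u v h => by
    have h3 : u = 0 := by simpa [hA1] using congrArg QuaternionAlgebra.re h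
    rw [h3, zero_smul, zero_add] at h
    exact ⟨h3, (smul_eq_zero.1 h).resolve_right hA0⟩
  have hli : LinearIndependent ℚ ![1, A, B, A * B] := by
    refine Fintype.linearIndependent_iff.2 fun c hc => ?_
    simp only [Fin.sum_univ_four, cons_val_zero, cons_val_one, cons_val] at hc
    have e1 : (A * B).re = 0 := by
      have := congrArg QuaternionAlgebra.re (quat_sq hA1 hB1)
      rw [hAB, neg_add_cancel] at this
      rw [hAB]
      simpa using this.symm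
    have e2 : c 0 = 0 := by
      simpa only [QuaternionAlgebra.re_add, QuaternionAlgebra.re_smul, hA1, hB1, e1, mul_zero,
        add_zero, QuaternionAlgebra.re_one, smul_eq_mul, mul_one, QuaternionAlgebra.re_zero] using
        congrArg QuaternionAlgebra.re hc
    rw [e2, zero_smul, zero_add] at hc
    have e3 : A * (A * B) = -(s • B) := by rw [← mul_assoc, hAA, neg_mul, smul_mul_assoc, one_mul]
    have e4 : c 1 = 0 := by
      have := congrArg (fun x => (A * x).re) hc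
      simp only [mul_add, mul_smul_comm, hAA, e3, QuaternionAlgebra.re_add,
        QuaternionAlgebra.re_smul, QuaternionAlgebra.re_neg, hB1, e1, neg_zero, add_zero,
        mul_zero, QuaternionAlgebra.re_zero, QuaternionAlgebra.re_one, smul_eq_mul, mul_one] at this
      exact (mul_eq_zero.1 this).resolve_right (neg_ne_zero.2 hs.ne')
    rw [e4, zero_smul, zero_add] at hc
    have e5 := congrArg (· * B) hc
    simp only [add_mul, smul_mul_assoc, mul_assoc, hBB, mul_smul_comm, mul_one, zero_mul,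
      smul_smul] at e5
    obtain ⟨e6, e7⟩ := h2 _ _ e5
    intro k
    fin_cases k
    exacts [e2, e4, (mul_eq_zero.1 e6).resolve_right ht.ne', (mul_eq_zero.1 e7).resolve_right ht.ne']
  have h3 : x ∈ Submodule.span ℚ (Set.range ![1, A, B, A * B]) := by
    rw [hli.span_eq_top_of_card_eq_finrank' (by simp [QuaternionAlgebra.finrank_eq_four])]
    trivial
  obtain ⟨c, hc⟩ := (Submodule.mem_span_range_iff_exists_fun ℚ).1 h3
  exact ⟨c, by simpa [Fin.sum_univ_four] using hc.symm⟩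

end quat

section dag

variable {ι R : Type} [Fintype ι] [DecidableEq ι] [CommRing R]

/-- The adjoint for the symplectic form. -/
def dag : Matrix (ι ⊕ ι) (ι ⊕ ι) R →ₗ[R] Matrix (ι ⊕ ι) (ι ⊕ ι) R where
  toFun g := -(J ι R * gᵀ * J ι R)
  map_add' g h := by rw [transpose_add, Matrix.mul_add, Matrix.add_mul, neg_add]
  map_smul' c g := by
    rw [transpose_smul, Matrix.mul_smul, Matrix.smul_mul, RingHom.id_apply, smul_neg]

theorem dag_apply (g : Matrix (ι ⊕ ι) (ι ⊕ ι) R) : dag g = -(J ι R * gᵀ * J ι R) := rfl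

theorem J_dag (g : Matrix (ι ⊕ ι) (ι ⊕ ι) R) : J ι R * dag g = gᵀ * J ι R := by
  rw [dag_apply, Matrix.mul_neg, ← Matrix.mul_assoc, ← Matrix.mul_assoc, J_squared,
    Matrix.neg_mul, Matrix.neg_mul, neg_neg, Matrix.one_mul]

theorem dag_eq {g h : Matrix (ι ⊕ ι) (ι ⊕ ι) R} (e : gᵀ * J ι R = J ι R * h) : dag g = h := by
  rw [dag_apply, Matrix.mul_assoc, e, ← Matrix.mul_assoc, J_squared, Matrix.neg_mul, neg_neg,
    Matrix.one_mul]

theorem dag_one : dag (1 : Matrix (ι ⊕ ι) (ι ⊕ ι) R) = 1 :=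
  dag_eq (by rw [transpose_one, Matrix.one_mul, Matrix.mul_one])

theorem dag_mul (g h : Matrix (ι ⊕ ι) (ι ⊕ ι) R) : dag (g * h) = dag h * dag g :=
  dag_eq (by rw [transpose_mul, Matrix.mul_assoc, ← J_dag, ← Matrix.mul_assoc, ← J_dag,
    Matrix.mul_assoc])

theorem dag_dag (g : Matrix (ι ⊕ ι) (ι ⊕ ι) R) : dag (dag g) = g :=
  dag_eq (by
    have h := congrArg transpose (J_dag g)
    rwa [transpose_mul, transpose_mul, J_transpose, transpose_transpose, Matrix.mul_neg,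
      Matrix.neg_mul, neg_inj] at h)

theorem dag_map {R' : Type} [CommRing R'] (f : R →+* R') (g : Matrix (ι ⊕ ι) (ι ⊕ ι) R) :
    (dag g).map f = dag (g.map f) :=
  (dag_eq (by rw [← map_J ι f, ← transpose_map, ← Matrix.map_mul, ← Matrix.map_mul, J_dag])).symm

theorem dag_mul_self {g : Matrix (ι ⊕ ι) (ι ⊕ ι) R} {c : R} (h : gᵀ * J ι R * g = c • J ι R) :
    dag g * g = c • 1 := by
  rw [dag_apply, Matrix.neg_mul, Matrix.mul_assoc, Matrix.mul_assoc, ← Matrix.mul_assoc gᵀ, h,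
    Matrix.mul_smul, J_squared, smul_neg, neg_neg]

theorem dag_cst {τ : Matrix ι ι ℂ} (hτ : InH τ) : dag (cst τ) = -cst τ :=
  dag_eq (by rw [Matrix.mul_neg]; exact eq_neg_of_add_eq_zero_left (E3.cst_sp hτ))

theorem dag_pos {τ : Matrix ι ι ℂ} (hτ : InH τ) {g : Matrix (ι ⊕ ι) (ι ⊕ ι) ℝ} (h0 : g ≠ 0)
    (hg : g * cst τ = cst τ * g) {c : ℝ} (h : dag g * g = c • 1) : 0 < c := by
  obtain ⟨k, hk, e⟩ := FP.Pm_fac hτ
  have hu : IsUnit k := (isUnit_iff_isUnit_det k).2 (SymplecticGroup.symplectic_det hk)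
  have h1 : (k * g)ᵀ * (k * g) = c • (kᵀ * k) := by
    rw [transpose_mul, Matrix.mul_assoc, ← Matrix.mul_assoc kᵀ, ← e, FP.Pm, Matrix.mul_assoc, ← hg,
      ← Matrix.mul_assoc, ← Matrix.mul_assoc, ← J_dag, Matrix.mul_assoc (J ι ℝ), h,
      Matrix.mul_smul, Matrix.mul_one, Matrix.smul_mul]
  have h2 := congrArg trace h1
  rw [trace_smul, smul_eq_mul] at h2
  have h3 : 0 < ((k * g)ᵀ * (k * g)).trace := (FP.pm_trace_nonneg _).lt_of_ne' fun h4 =>
    h0 (hu.mul_right_eq_zero.1 (trace_conjTranspose_mul_self_eq_zero_iff.1 h4))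
  exact lt_of_not_ge fun hc => h3.not_ge
    (h2 ▸ mul_nonpos_of_nonpos_of_nonneg hc (FP.pm_trace_nonneg k))

end dag

theorem zM_den (X : Matrix ν ν ℚ) : ∃ c : ℚ, c ≠ 0 ∧ ∃ g : MZ, zM ℚ g = c • X := by
  obtain ⟨N, hN⟩ := IsLocalization.exist_integer_multiples_of_finite (nonZeroDivisors ℤ)
    fun s : ν × ν => X s.1 s.2
  choose G hG using hN
  refine ⟨N.1, Int.cast_ne_zero.2 (nonZeroDivisors.coe_ne_zero N), .of (Function.curry G), ?_⟩
  ext s t
  simpa using hG (s, t)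

theorem zM_scalar {g : MZ} {c : ℚ} (hc : 0 < c) (h : zM ℚ g = c • 1) :
    ∃ m : ℕ, 0 < m ∧ g = (m : ℤ) • 1 := by
  have h1 : (g (.inl 0) (.inl 0) : ℚ) = c := by simpa using congrFun (congrFun h (.inl 0)) (.inl 0)
  have h2 : 0 < g (.inl 0) (.inl 0) := by exact_mod_cast h1 ▸ hc
  obtain ⟨m, hm⟩ := Int.eq_ofNat_of_zero_le h2.le
  refine ⟨m, by omega, zM_injective ℚ ?_⟩
  rw [h, zM_smul, zM_one, ← hm, h1]

theorem endII_conj {I I' : Matrix ν ν ℝ} (hE : Pool.Agent.M8.EndII I) {G : MZ} (hG : G.det ≠ 0)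
    (hGI : I' * zr G = zr G * I) : Pool.Agent.M8.EndII I' := by
  obtain ⟨a, b, φ, ha, hb, hd, h⟩ := hE
  have hu : IsUnit (zM ℚ G).det := by
    refine Ne.isUnit ?_
    rw [← Int.cast_det]
    exact Int.cast_ne_zero.2 hG
  have e1 := mul_nonsing_inv _ hu
  have e2 := nonsing_inv_mul _ hu
  generalize (zM ℚ G)⁻¹ = Q at e1 e2
  have hm : ∀ x y : Matrix ν ν ℚ, (x * y).map (Rat.cast : ℚ → ℝ) =
      x.map Rat.cast * y.map Rat.cast := fun x y => Matrix.map_mul (f := Rat.castHom ℝ)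
  have e3 : (zM ℚ G).map (Rat.cast : ℚ → ℝ) = zr G := zM_map (Rat.castHom ℝ) G
  have e4 : zr G * Q.map Rat.cast = 1 := by
    rw [← e3, ← hm, e1, Matrix.map_one _ Rat.cast_zero Rat.cast_one]
  have e5 := mul_eq_one_comm.1 e4
  refine ⟨a, b, AlgHom.ofLinearMap (LinearMap.mulLeftRight ℚ (zM ℚ G, Q) ∘ₗ φ.toLinearMap) ?_
    fun x y => ?_, ha, hb, hd, fun g => ?_⟩
  · change zM ℚ G * φ 1 * Q = 1
    rw [map_one, mul_one, e1]
  · change zM ℚ G * φ (x * y) * Q = zM ℚ G * φ x * Q * (zM ℚ G * φ y * Q)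
    rw [map_mul]
    simp only [mul_assoc]
    rw [← mul_assoc Q, e2, one_mul]
  · change _ ↔ ∃ x, zM ℚ G * φ x * Q = g
    have k1 : (∃ x, zM ℚ G * φ x * Q = g) ↔ ∃ x, φ x = Q * g * zM ℚ G :=
      exists_congr fun x => ⟨fun e => by
        rw [← e, ← mul_assoc, ← mul_assoc, e2, one_mul, mul_assoc, e2, mul_one], fun e => by
        rw [e, ← mul_assoc, ← mul_assoc, e1, one_mul, mul_assoc, e1, mul_one]⟩
    have k2 : I = Q.map Rat.cast * I' * zr G := by rw [mul_assoc, hGI, ← mul_assoc, e5, one_mul]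
    rw [k1, ← h, hm, hm, e3, k2]
    simp only [mul_assoc]
    rw [← mul_assoc (zr G), ← mul_assoc (zr G), e4, one_mul, one_mul,
      (IsUnit.of_mul_eq_one _ e5).mul_right_inj, ← mul_assoc, ← mul_assoc,
      (IsUnit.of_mul_eq_one _ e4).mul_left_inj]

theorem exists_pel {τ : Mat} {I : Matrix ν ν ℝ} (hE : Pool.Agent.M8.EndII I) {G : MZ}
    (hG : G.det ≠ 0) (hτ : InH τ) (hGI : cst τ * zr G = zr G * I) :
    ∃ (a b : MZ) (m n : ℕ), PEL a b m n ∧ τ ∈ FX a b ∧ EndX a b τ := by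
  obtain ⟨a0, b0, φ, ha, hb, hd, h⟩ := endII_conj hE hG hGI
  have hi : Function.Injective φ := (injective_iff_map_eq_zero φ).2 fun x hx => by
    by_contra h0
    exact ((hd x h0).map φ).ne_zero hx
  obtain ⟨ψ, hψ⟩ := φ.toLinearMap.exists_leftInverse_of_injective (LinearMap.ker_eq_bot.2 hi)
  have hσ : ∀ x, φ (ψ (dag (φ x))) = dag (φ x) := fun x => by
    obtain ⟨y, hy⟩ := (h (dag (φ x))).1 (by
      have h1 := congrArg dag ((h _).2 ⟨x, rfl⟩)
      rw [dag_mul, dag_mul, dag_cst hτ, neg_mul, mul_neg, neg_inj] at h1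
      rw [show (dag (φ x)).map Rat.cast = _ from dag_map (Rat.castHom ℝ) _]
      exact h1.symm)
    rw [← hy, show ψ (φ y) = y from DFunLike.congr_fun hψ y]
  obtain ⟨A, B, s, t, ⟨a, hA⟩, ⟨b, hB⟩, hs, ht, h1, h2, h3, h4, h5, h6⟩ := quat_nf ha hb
    (ψ ∘ₗ dag ∘ₗ φ.toLinearMap) (Z := fun x => ∃ g : MZ, zM ℚ g = φ x)
    (hi ((hσ 1).trans (by rw [map_one, dag_one])))
    (fun x y => hi ((hσ _).trans (by rw [map_mul φ, map_mul φ, dag_mul, ← hσ, ← hσ x]; rfl)))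
    (fun x => hi ((hσ _).trans ((congrArg dag (hσ x)).trans (dag_dag _))))
    (fun x c hx e => by
      have k1 := congrArg (fun y => (φ y).map (Rat.castHom ℝ)) e
      simp only [map_mul, map_smul, map_one] at k1
      rw [show φ ((ψ ∘ₗ dag ∘ₗ φ.toLinearMap) x) = _ from hσ x, Matrix.map_mul, dag_map] at k1
      refine Rat.cast_pos.1 (dag_pos hτ (fun e0 => hx (hi ?_)) ((h _).2 ⟨x, rfl⟩) (k1.trans ?_))
      · rw [map_zero]
        exact Matrix.ext fun i j => Rat.cast_eq_zero.1 (congrFun (congrFun e0 i) j)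
      · ext i j
        by_cases hij : i = j <;> simp [hij])
    fun x => by simpa only [map_smul] using zM_den (φ x)
  have k1 : dag (φ A) = -φ A := by rw [← hσ, ← map_neg, ← h1]; rfl
  have k2 : dag (φ B) = φ B := by rw [← hσ]; exact congrArg φ h2
  obtain ⟨m, hm, em⟩ := zM_scalar (g := -(a * a)) hs (by
    rw [zM_neg, zM_mul, hA, ← map_mul, h3, map_neg, neg_neg, map_smul, map_one])
  obtain ⟨n, hn, en⟩ := zM_scalar (g := b * b) ht (by
    rw [zM_mul, hB, ← map_mul, h4, map_smul, map_one])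
  have ht' : ∀ g : MZ, zM ℚ gᵀ = (zM ℚ g)ᵀ := fun g => rfl
  have hP : PEL a b m n := ⟨hm, hn, neg_eq_iff_eq_neg.1 em, en, zM_injective ℚ (by
      rw [zM_neg, zM_mul, zM_mul, hA, hB, ← map_mul, h5, map_neg, map_mul]),
    zM_injective ℚ (by rw [zM_neg, zM_mul, zM_mul, zM_J, ht', hA, ← J_dag, k1, mul_neg]),
    zM_injective ℚ (by rw [zM_mul, zM_mul, zM_J, ht', hB, ← J_dag, k2])⟩
  have hz : ∀ g : MZ, (zM ℚ g).map (Rat.cast : ℚ → ℝ) = zr g := zM_map (Rat.castHom ℝ)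
  refine ⟨a, b, m, n, hP, (hP.em_fx hτ).2 ⟨?_, ?_⟩, fun g hg => ?_⟩
  · have k := (h _).2 ⟨A, hA.symm⟩
    rwa [hz] at k
  · have k := (h _).2 ⟨B, hB.symm⟩
    rwa [hz] at k
  · obtain ⟨x, hx⟩ := (h (zM ℚ g)).1 (by rwa [hz])
    obtain ⟨c, rfl⟩ := h6 x
    obtain ⟨N, hN⟩ := IsLocalization.exist_integer_multiples_of_finite (nonZeroDivisors ℤ) c
    choose z hz' using hN
    refine ⟨N, z, nonZeroDivisors.coe_ne_zero N, zM_injective ℚ ?_⟩
    simp only [eq_intCast, zsmul_eq_mul] at hz'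
    simp only [zM_add, zM_smul, zM_mul, zM_one, hA, hB, hz', ← hx, map_add, map_smul, map_mul,
      map_one, smul_add, smul_smul]

end M8
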